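import Mathlib

/-!
Product measures of Bernoulli variables: averaging operators, covariance identity, Efron-Stein.
-/

set_option autoImplicit false

open MeasureTheory ProbabilityTheory Filter Topology
open scoped ENNReal NNReal

namespace FPPDir

/-- probability of a slow edge -/
noncomputable def pb : ℝ := 1 / 100

lemma pb_pos : 0 < pb := by norm_num [pb]
lemma pb_lt_one : pb < 1 := by norm_num [pb]
lemma one_sub_pb_pos : 0 < 1 - pb := by norm_num [pb]

/-- Bernoulli measure on `Bool` (`true` has probability `pb`). -/
noncomputable def bern : Measure Bool :=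
  ENNReal.ofReal pb • Measure.dirac true + ENNReal.ofReal (1 - pb) • Measure.dirac false

instance : IsProbabilityMeasure bern := by
  constructor
  simp only [bern, Measure.add_apply, Measure.smul_apply, smul_eq_mul, measure_univ, mul_one]
  rw [← ENNReal.ofReal_add pb_pos.le one_sub_pb_pos.le]
  norm_num

lemma integral_bern (f : Bool → ℝ) : ∫ c, f c ∂bern = pb * f true + (1 - pb) * f false := by
  unfold bern
  rw [integral_add_measure, integral_smul_measure, integral_smul_measure, integral_dirac,
    integral_dirac, ENNReal.toReal_ofReal pb_pos.le, ENNReal.toReal_ofReal one_sub_pb_pos.le,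
    smul_eq_mul, smul_eq_mul]
  · exact (integrable_dirac (by simp)).smul_measure ENNReal.ofReal_ne_top
  · exact (integrable_dirac (by simp)).smul_measure ENNReal.ofReal_ne_top

variable {ι : Type*} [DecidableEq ι]

/-- The product measure. -/
noncomputable def PP (ι : Type*) : Measure (ι → Bool) := Measure.infinitePi (fun _ : ι => bern)

instance (ι : Type*) : IsProbabilityMeasure (PP ι) := by unfold PP; infer_instance

omit [DecidableEq ι] in
/-- A function depending on finitely many coordinates is measurable. -/
lemma DependsOn.meas {β : Type*} [MeasurableSpace β] {f : (ι → Bool) → β} {S : Finset ι}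
    (hf : DependsOn f (S : Set ι)) : Measurable f := by
  classical
  let ext : (S → Bool) → (ι → Bool) := fun σ i => if h : i ∈ S then σ ⟨i, h⟩ else false
  have h : f = (fun σ => f (ext σ)) ∘ (fun b : ι → Bool => fun i : S => b i) := by
    funext b
    apply hf
    intro i hi
    simp only [ext]
    rw [dif_pos (by exact hi)]
  rw [h]
  exact (measurable_of_finite _).comp (by fun_prop)

omit [DecidableEq ι] in
/-- A real function depending on finitely many coordinates is bounded. -/
lemma DependsOn.bdd {f : (ι → Bool) → ℝ} {S : Finset ι}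
    (hf : DependsOn f (S : Set ι)) : ∃ C, ∀ b, |f b| ≤ C := by
  classical
  let ext : (S → Bool) → (ι → Bool) := fun σ i => if h : i ∈ S then σ ⟨i, h⟩ else false
  obtain ⟨σ, hσ⟩ := Finite.exists_max (fun σ : S → Bool => |f (ext σ)|)
  refine ⟨|f (ext σ)|, fun b => ?_⟩
  have : f b = f (ext fun i : S => b i) := by
    apply hf
    intro i hi
    simp only [ext]
    rw [dif_pos (by exact hi)]
  rw [this]
  exact hσ (fun i : S => b i)

omit [DecidableEq ι] in
lemma DependsOn.integrable {f : (ι → Bool) → ℝ} {S : Finset ι}
    (hf : DependsOn f (S : Set ι)) : Integrable f (PP ι) := by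
  obtain ⟨C, hC⟩ := DependsOn.bdd hf
  exact Integrable.of_bound (DependsOn.meas hf).aestronglyMeasurable C (ae_of_all _ hC)

/-- average over the coordinate `e` -/
noncomputable def Av (e : ι) (f : (ι → Bool) → ℝ) (b : ι → Bool) : ℝ :=
  pb * f (Function.update b e true) + (1 - pb) * f (Function.update b e false)

/-- discrete derivative in the coordinate `e` -/
noncomputable def Dd (e : ι) (f : (ι → Bool) → ℝ) (b : ι → Bool) : ℝ :=
  f (Function.update b e true) - f (Function.update b e false)

lemma map_update (e : ι) :
    ((PP ι).prod bern).map (fun q : (ι → Bool) × Bool => Function.update q.1 e q.2) = PP ι := by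
  have hm : Measurable (fun q : (ι → Bool) × Bool => Function.update q.1 e q.2) := by
    refine measurable_pi_iff.2 fun i => ?_
    by_cases h : i = e
    · subst h
      simpa using measurable_snd
    · simp only [Function.update_of_ne h]
      exact (measurable_pi_apply i).comp measurable_fst
  unfold PP
  apply Measure.eq_infinitePi
  intro s t ht
  rw [Measure.map_apply hm (MeasurableSet.pi s.countable_toSet fun i _ => ht i)]
  have h1 : (fun q : (ι → Bool) × Bool => Function.update q.1 e q.2) ⁻¹' Set.pi s t
      = (Set.pi (s.erase e) t) ×ˢ (if e ∈ s then t e else Set.univ) := by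
    ext q
    simp only [Set.mem_preimage, Set.mem_pi, Set.mem_prod, Finset.mem_coe, Finset.mem_erase]
    constructor
    · intro h
      refine ⟨fun i hi => ?_, ?_⟩
      · have := h i hi.2
        rwa [Function.update_of_ne hi.1] at this
      · split_ifs with he
        · have := h e he
          rwa [Function.update_self] at this
        · trivial
    · rintro ⟨h1, h2⟩ i hi
      by_cases hie : i = e
      · subst hie
        rw [Function.update_self]
        rwa [if_pos hi] at h2
      · rw [Function.update_of_ne hie]
        exact h1 i ⟨hie, hi⟩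
  rw [h1, Measure.prod_prod, Measure.infinitePi_pi]
  · by_cases he : e ∈ s
    · rw [if_pos he, ← Finset.prod_erase_mul s _ he]
    · rw [if_neg he, Finset.erase_eq_of_notMem he, measure_univ, mul_one]
  · intro i _
    exact ht i

lemma int_Av (e : ι) {f : (ι → Bool) → ℝ} {S : Finset ι} (hf : DependsOn f (S : Set ι)) :
    ∫ b, Av e f b ∂(PP ι) = ∫ b, f b ∂(PP ι) := by
  have hm : Measurable (fun q : (ι → Bool) × Bool => Function.update q.1 e q.2) := by
    refine measurable_pi_iff.2 fun i => ?_
    by_cases h : i = e
    · subst h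
      simpa using measurable_snd
    · simp only [Function.update_of_ne h]
      exact (measurable_pi_apply i).comp measurable_fst
  have h1 : ∫ b, f b ∂(PP ι) = ∫ q, f (Function.update q.1 e q.2) ∂((PP ι).prod bern) := by
    conv_lhs => rw [← map_update e]
    rw [integral_map hm.aemeasurable (DependsOn.meas hf).aestronglyMeasurable]
  obtain ⟨C, hC⟩ := DependsOn.bdd hf
  have h2 : Integrable (fun q : (ι → Bool) × Bool => f (Function.update q.1 e q.2)) ((PP ι).prod bern) :=
    Integrable.of_bound ((DependsOn.meas hf).comp hm).aestronglyMeasurable C (ae_of_all _ fun q => hC _)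
  rw [h1, integral_prod _ h2]
  congr 1
  funext b
  rw [integral_bern]
  rfl

lemma DependsOn.upd {f : (ι → Bool) → ℝ} {S : Finset ι} (e : ι) (c : Bool)
    (hf : DependsOn f (S : Set ι)) :
    DependsOn (fun b => f (Function.update b e c)) ((S.erase e : Finset ι) : Set ι) := by
  intro x y h
  apply hf
  intro i hi
  by_cases hie : i = e
  · subst hie; simp
  · rw [Function.update_of_ne hie, Function.update_of_ne hie]
    exact h i (by simp [hie]; exact hi)

lemma DependsOn.av {f : (ι → Bool) → ℝ} {S : Finset ι} (e : ι) (hf : DependsOn f (S : Set ι)) :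
    DependsOn (Av e f) ((S.erase e : Finset ι) : Set ι) := by
  intro x y h
  unfold Av
  have h1 := DependsOn.upd e true hf h
  have h2 := DependsOn.upd e false hf h
  simp only at h1 h2
  rw [h1, h2]

lemma DependsOn.dd {f : (ι → Bool) → ℝ} {S : Finset ι} (e : ι) (hf : DependsOn f (S : Set ι)) :
    DependsOn (Dd e f) ((S.erase e : Finset ι) : Set ι) := by
  intro x y h
  unfold Dd
  have h1 := DependsOn.upd e true hf h
  have h2 := DependsOn.upd e false hf h
  simp only at h1 h2
  rw [h1, h2]

omit [DecidableEq ι] in
lemma DependsOn.comp2 {f g : (ι → Bool) → ℝ} {S : Finset ι} (F : ℝ → ℝ → ℝ)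
    (hf : DependsOn f (S : Set ι)) (hg : DependsOn g (S : Set ι)) :
    DependsOn (fun b => F (f b) (g b)) (S : Set ι) := by
  intro x y h
  simp only
  rw [hf h, hg h]

omit [DecidableEq ι] in
lemma DependsOn.mono' {β : Type*} {f : (ι → Bool) → β} {S T : Finset ι} (hST : S ⊆ T)
    (hf : DependsOn f (S : Set ι)) : DependsOn f (T : Set ι) :=
  hf.mono (by exact_mod_cast hST)

/-- **Efron-Stein inequality** for Bernoulli variables. -/
lemma efron_stein (S : Finset ι) : ∀ f : (ι → Bool) → ℝ, DependsOn f (S : Set ι) →
    ∫ b, f b ^ 2 ∂(PP ι) - (∫ b, f b ∂(PP ι)) ^ 2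
      ≤ ∑ e ∈ S, pb * (1 - pb) * ∫ b, Dd e f b ^ 2 ∂(PP ι) := by
  induction S using Finset.induction_on with
  | empty =>
    intro f hf
    have h : ∀ b, f b = f (fun _ => false) := fun b => hf (by simp)
    have h1 : f = fun _ => f (fun _ => false) := funext h
    rw [h1]
    simp
  | insert e S he ih =>
    intro f hf
    have hg : DependsOn (Av e f) (S : Set ι) := by
      have := DependsOn.av e hf
      rwa [Finset.erase_insert he] at this
    have hsq : ∀ {h : (ι → Bool) → ℝ} {T : Finset ι}, DependsOn h (T : Set ι) →
        DependsOn (fun b => h b ^ 2) (T : Set ι) := fun hh x y hxy => by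
      simp only; rw [hh hxy]
    have i1 : ∫ b, f b ^ 2 ∂(PP ι) - ∫ b, Av e f b ^ 2 ∂(PP ι)
        = pb * (1 - pb) * ∫ b, Dd e f b ^ 2 ∂(PP ι) := by
      rw [← int_Av e (hsq hf), ← integral_sub, ← integral_const_mul]
      · congr 1
        funext b
        unfold Av Dd
        ring
      · exact DependsOn.integrable (DependsOn.av e (hsq hf))
      · exact DependsOn.integrable (hsq hg)
    have i2 : ∫ b, Av e f b ∂(PP ι) = ∫ b, f b ∂(PP ι) := int_Av e hf
    have i3 := ih (Av e f) hg
    rw [i2] at i3
    have i4 : ∀ e' ∈ S, ∫ b, Dd e' (Av e f) b ^ 2 ∂(PP ι) ≤ ∫ b, Dd e' f b ^ 2 ∂(PP ι) := by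
      intro e' he'
      have hne : e' ≠ e := fun h => he (h ▸ he')
      rw [← int_Av e (hsq (DependsOn.dd e' hf))]
      apply integral_mono
      · exact DependsOn.integrable (hsq (DependsOn.dd e' hg))
      · exact DependsOn.integrable (DependsOn.av e (hsq (DependsOn.dd e' hf)))
      · intro b
        simp only
        have hc : Dd e' (Av e f) b = pb * Dd e' f (Function.update b e true)
            + (1 - pb) * Dd e' f (Function.update b e false) := by
          unfold Dd Av
          rw [Function.update_comm hne, Function.update_comm hne, Function.update_comm hne,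
            Function.update_comm hne]
          ring
        rw [hc]
        unfold Av
        have := pb_pos
        have := one_sub_pb_pos
        nlinarith [mul_nonneg (mul_nonneg pb_pos.le one_sub_pb_pos.le)
          (sq_nonneg (Dd e' f (Function.update b e true) - Dd e' f (Function.update b e false)))]
    rw [Finset.sum_insert he]
    have i5 : ∑ e' ∈ S, pb * (1 - pb) * ∫ b, Dd e' (Av e f) b ^ 2 ∂(PP ι)
        ≤ ∑ e' ∈ S, pb * (1 - pb) * ∫ b, Dd e' f b ^ 2 ∂(PP ι) :=
      Finset.sum_le_sum fun e' he' => mul_le_mul_of_nonneg_left (i4 e' he')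
        (mul_nonneg pb_pos.le one_sub_pb_pos.le)
    linarith

/-- indicator of a slow edge -/
noncomputable def bi (e : ι) (b : ι → Bool) : ℝ := if b e then 1 else 0

omit [DecidableEq ι] in
lemma dep_bi (e : ι) : DependsOn (bi e) (({e} : Finset ι) : Set ι) := by
  intro x y h
  unfold bi
  rw [h e (by simp)]

/-- **Covariance identity**. -/
lemma cov_identity (e : ι) {f : (ι → Bool) → ℝ} {S : Finset ι} (hf : DependsOn f (S : Set ι)) :
    ∫ b, f b * (bi e b - pb) ∂(PP ι) = pb * (1 - pb) * ∫ b, Dd e f b ∂(PP ι) := by
  have h1 : DependsOn (fun b => f b * (bi e b - pb)) ((insert e S : Finset ι) : Set ι) := by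
    intro x y h
    simp only
    rw [DependsOn.mono' (Finset.subset_insert e S) hf h,
      DependsOn.mono' (T := insert e S) (by simp) (dep_bi e) h]
  rw [← int_Av e h1, ← integral_const_mul]
  congr 1
  funext b
  unfold Av Dd bi
  simp
  ring

/-- A weighted version: `pb ∫ D_e f = ∫ 1(e slow) D_e f`. -/
lemma int_bi_Dd (e : ι) {f : (ι → Bool) → ℝ} {S : Finset ι} (hf : DependsOn f (S : Set ι)) :
    ∫ b, bi e b * Dd e f b ∂(PP ι) = pb * ∫ b, Dd e f b ∂(PP ι) := by
  have h1 : DependsOn (fun b => bi e b * Dd e f b) ((insert e S : Finset ι) : Set ι) := by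
    intro x y h
    simp only
    rw [DependsOn.mono' ((Finset.erase_subset e S).trans (Finset.subset_insert e S)) (DependsOn.dd e hf) h,
      DependsOn.mono' (T := insert e S) (by simp) (dep_bi e) h]
  rw [← int_Av e h1, ← integral_const_mul]
  congr 1
  funext b
  unfold Av Dd bi
  simp

/-- `(1-pb) ∫ (D_e f)² = ∫ 1(e fast) (D_e f)²`. -/
lemma int_bi_Dd_sq (e : ι) {f : (ι → Bool) → ℝ} {S : Finset ι} (hf : DependsOn f (S : Set ι)) :
    ∫ b, (1 - bi e b) * Dd e f b ^ 2 ∂(PP ι) = (1 - pb) * ∫ b, Dd e f b ^ 2 ∂(PP ι) := by
  have h1 : DependsOn (fun b => (1 - bi e b) * Dd e f b ^ 2) ((insert e S : Finset ι) : Set ι) := by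
    intro x y h
    simp only
    rw [DependsOn.mono' ((Finset.erase_subset e S).trans (Finset.subset_insert e S)) (DependsOn.dd e hf) h,
      DependsOn.mono' (T := insert e S) (by simp) (dep_bi e) h]
  rw [← int_Av e h1, ← integral_const_mul]
  congr 1
  funext b
  unfold Av Dd bi
  simp

/-- Second moment of a centred sum. -/
lemma sum_sq (S : Finset ι) :
    ∫ b, (∑ e ∈ S, (bi e b - pb)) ^ 2 ∂(PP ι) = pb * (1 - pb) * S.card := by
  have hdep : DependsOn (fun b : ι → Bool => ∑ e ∈ S, (bi e b - pb)) (S : Set ι) := by
    intro x y h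
    simp only
    refine Finset.sum_congr rfl fun e he => ?_
    unfold bi
    rw [h e (by simpa using he)]
  have hint : ∀ e ∈ S, ∫ b, (∑ e' ∈ S, (bi e' b - pb)) * (bi e b - pb) ∂(PP ι) = pb * (1 - pb) := by
    intro e he
    rw [cov_identity e hdep]
    have : ∀ b : ι → Bool, Dd e (fun b => ∑ e' ∈ S, (bi e' b - pb)) b = 1 := by
      intro b
      unfold Dd
      rw [← Finset.sum_sub_distrib, Finset.sum_eq_single e]
      · simp [bi]
      · intro e' _ hne
        simp [bi, Function.update_of_ne hne]
      · intro h; exact absurd he h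
    simp only [this]
    simp
  have h2 : ∀ b : ι → Bool, (∑ e ∈ S, (bi e b - pb)) ^ 2
      = ∑ e ∈ S, (∑ e' ∈ S, (bi e' b - pb)) * (bi e b - pb) := by
    intro b
    rw [sq, Finset.mul_sum]
  simp only [h2]
  rw [integral_finsetSum]
  · rw [Finset.sum_congr rfl hint]
    simp
    ring
  · intro e he
    apply DependsOn.integrable (S := S)
    intro x y h
    have h3 := hdep h
    simp only at h3 ⊢
    rw [h3]
    unfold bi
    rw [h e (by simpa using he)]

/-- Product formula. -/
lemma int_prod (ψ : Bool → ℝ) (S : Finset ι) :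
    ∫ b, ∏ e ∈ S, ψ (b e) ∂(PP ι) = (pb * ψ true + (1 - pb) * ψ false) ^ S.card := by
  induction S using Finset.induction_on with
  | empty => simp
  | insert e S he ih =>
    have h1 : DependsOn (fun b : ι → Bool => ∏ e' ∈ insert e S, ψ (b e')) ((insert e S : Finset ι) : Set ι) := by
      intro x y h
      simp only
      exact Finset.prod_congr rfl fun e' he' => by rw [h e' (by exact_mod_cast he')]
    rw [← int_Av e h1, Finset.card_insert_of_notMem he, pow_succ, ← ih, mul_comm, ← integral_const_mul]
    congr 1
    funext b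
    unfold Av
    simp only
    rw [Finset.prod_insert he, Finset.prod_insert he]
    have h2 : ∀ c, ∏ e' ∈ S, ψ (Function.update b e c e') = ∏ e' ∈ S, ψ (b e') := by
      intro c
      refine Finset.prod_congr rfl fun e' he' => ?_
      rw [Function.update_of_ne (fun h => he (by rw [← h]; exact he'))]
    rw [h2, h2]
    simp
    ring

/-- Probability that all edges of a finite set are slow. -/
lemma prob_all_slow (S : Finset ι) :
    (PP ι).real {b | ∀ e ∈ S, b e = true} = pb ^ S.card := by
  have h := int_prod (fun c => if c then (1 : ℝ) else 0) S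
  simp only [if_true, Bool.false_eq_true, if_false, mul_one, mul_zero, add_zero] at h
  rw [← h]
  have hset : MeasurableSet {b : ι → Bool | ∀ e ∈ S, b e = true} := by
    have : {b : ι → Bool | ∀ e ∈ S, b e = true} = ⋂ e ∈ S, {b | b e = true} := by
      ext b; simp
    rw [this]
    refine Finset.measurableSet_biInter _ fun e _ => ?_
    exact measurableSet_eq_fun (measurable_pi_apply e) measurable_const
  rw [← integral_indicator_one hset]
  congr 1
  funext b
  by_cases hb : ∀ e ∈ S, b e = true
  · rw [Set.indicator_of_mem (by exact hb)]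
    rw [Finset.prod_eq_one fun e he => by rw [hb e he]; simp]
    rfl
  · rw [Set.indicator_of_notMem (by exact hb)]
    push Not at hb
    obtain ⟨e, he, hbe⟩ := hb
    rw [Finset.prod_eq_zero he]
    simp [hbe]

end FPPDir
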