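import Pool.Agent.Lib.MP_9b88e3_pr.Defs
import Pool.Agent.Lib.MP_9b88e3_pr.Prob

/-!
Deterministic facts about lattice paths and passage times.
-/

set_option autoImplicit false

open MeasureTheory ProbabilityTheory Filter Topology
open scoped ENNReal NNReal

namespace FPPDir

/-- reversed step -/
def opp (s : Step) : Step := (s.1, !s.2)

lemma vec_opp (s : Step) : vec (opp s) = -vec s := by
  rcases s with ⟨a, b⟩; cases a <;> cases b <;> rfl

lemma stepEdge_opp (z : ℤ × ℤ) (s : Step) : stepEdge (z + vec s) (opp s) = stepEdge z s := by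
  rcases s with ⟨a, b⟩
  cases b
  · simp [stepEdge, opp]
    have := vec_opp (a, false)
    simp only [opp, Bool.not_false] at this
    rw [this]
    simp
  · simp [stepEdge, opp]

/-- the end points of an edge determine it -/
lemma stepEdge_inj {z w : ℤ × ℤ} {s s' : Step} (h : stepEdge z s = stepEdge w s') :
    (w = z ∧ s' = s) ∨ (w = z + vec s ∧ s' = opp s) := by
  rcases s with ⟨a, b⟩
  rcases s' with ⟨a', b'⟩
  rcases z with ⟨z1, z2⟩
  rcases w with ⟨w1, w2⟩
  cases a <;> cases b <;> cases a' <;> cases b' <;>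
    simp_all [stepEdge, vec, opp, Prod.ext_iff]

lemma endPt_append (u : ℤ × ℤ) (l₁ l₂ : List Step) :
    endPt u (l₁ ++ l₂) = endPt (endPt u l₁) l₂ := by
  induction l₁ generalizing u with
  | nil => rfl
  | cons s l ih => exact ih _

lemma edgs_append (u : ℤ × ℤ) (l₁ l₂ : List Step) :
    edgs u (l₁ ++ l₂) = edgs u l₁ ++ edgs (endPt u l₁) l₂ := by
  induction l₁ generalizing u with
  | nil => rfl
  | cons s l ih =>
    simp only [List.cons_append, edgs, endPt, ih]

lemma cost_append (τ : Edge → ℝ) (u : ℤ × ℤ) (l₁ l₂ : List Step) :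
    cost τ u (l₁ ++ l₂) = cost τ u l₁ + cost τ (endPt u l₁) l₂ := by
  simp [cost, edgs_append]

lemma cost_nil (τ : Edge → ℝ) (u : ℤ × ℤ) : cost τ u [] = 0 := by simp [cost, edgs]

lemma cost_cons (τ : Edge → ℝ) (u : ℤ × ℤ) (s : Step) (l : List Step) :
    cost τ u (s :: l) = τ (stepEdge u s) + cost τ (u + vec s) l := by simp [cost, edgs]

lemma edgs_length (u : ℤ × ℤ) (l : List Step) : (edgs u l).length = l.length := by
  induction l generalizing u with
  | nil => rfl
  | cons s l ih => simp [edgs, ih]

lemma mem_edgs {u : ℤ × ℤ} {l : List Step} {e : Edge} :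
    e ∈ edgs u l ↔ ∃ l₁ s l₂, l = l₁ ++ s :: l₂ ∧ stepEdge (endPt u l₁) s = e := by
  induction l generalizing u with
  | nil => simp [edgs]
  | cons s l ih =>
    simp only [edgs, List.mem_cons, ih]
    constructor
    · rintro (h | ⟨l₁, s', l₂, h1, h2⟩)
      · exact ⟨[], s, l, rfl, h.symm⟩
      · exact ⟨s :: l₁, s', l₂, by rw [h1]; rfl, h2⟩
    · rintro ⟨l₁, s', l₂, h1, h2⟩
      cases l₁ with
      | nil =>
        simp only [List.nil_append, List.cons.injEq] at h1
        left
        rw [h1.1]
        exact h2.symm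
      | cons a l₁ =>
        simp only [List.cons_append, List.cons.injEq] at h1
        right
        refine ⟨l₁, s', l₂, h1.2, ?_⟩
        rw [h1.1]
        exact h2

/-- `ℓ¹` norm -/
def l1 (z : ℤ × ℤ) : ℕ := z.1.natAbs + z.2.natAbs

lemma l1_vec (s : Step) : l1 (vec s) = 1 := by
  rcases s with ⟨a, b⟩; cases a <;> cases b <;> rfl

lemma l1_add_le (z w : ℤ × ℤ) : l1 (z + w) ≤ l1 z + l1 w := by
  unfold l1
  simp only [Prod.fst_add, Prod.snd_add]
  omega

lemma l1_neg (z : ℤ × ℤ) : l1 (-z) = l1 z := by
  unfold l1; simp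

lemma l1_sub_comm (z w : ℤ × ℤ) : l1 (z - w) = l1 (w - z) := by
  rw [← l1_neg (z - w)]; congr 1; abel

lemma l1_endPt_le (u : ℤ × ℤ) (l : List Step) : l1 (endPt u l - u) ≤ l.length := by
  induction l generalizing u with
  | nil => simp [endPt, l1]
  | cons s l ih =>
    have h := ih (u + vec s)
    have h2 : endPt u (s :: l) - u = (endPt (u + vec s) l - (u + vec s)) + vec s := by
      simp only [endPt]; abel
    rw [h2]
    refine (l1_add_le _ _).trans ?_
    rw [l1_vec]
    simp only [List.length_cons]
    omega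

/-- a shortest lattice path -/
lemma exists_straight (n : ℕ) : ∀ u v : ℤ × ℤ, l1 (v - u) = n →
    ∃ l : List Step, endPt u l = v ∧ l.length = n := by
  induction n with
  | zero =>
    intro u v h
    refine ⟨[], ?_, rfl⟩
    unfold l1 at h
    simp only [Prod.fst_sub, Prod.snd_sub] at h
    simp only [endPt]
    exact Prod.ext (by omega) (by omega)
  | succ n ih =>
    intro u v h
    have hs : ∃ s : Step, l1 (v - (u + vec s)) = n := by
      unfold l1 at h ⊢
      simp only [Prod.fst_sub, Prod.snd_sub] at h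
      by_cases h1 : v.1 - u.1 = 0
      · by_cases h2 : 0 ≤ v.2 - u.2
        · refine ⟨(true, false), ?_⟩
          simp only [vec, Prod.fst_sub, Prod.snd_sub, Prod.fst_add, Prod.snd_add]
          omega
        · refine ⟨(true, true), ?_⟩
          simp only [vec, Prod.fst_sub, Prod.snd_sub, Prod.fst_add, Prod.snd_add]
          omega
      · by_cases h2 : 0 ≤ v.1 - u.1
        · refine ⟨(false, false), ?_⟩
          simp only [vec, Prod.fst_sub, Prod.snd_sub, Prod.fst_add, Prod.snd_add]
          omega
        · refine ⟨(false, true), ?_⟩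
          simp only [vec, Prod.fst_sub, Prod.snd_sub, Prod.fst_add, Prod.snd_add]
          omega
    obtain ⟨s, hs⟩ := hs
    obtain ⟨l, hl1, hl2⟩ := ih _ _ hs
    exact ⟨s :: l, hl1, by simp [hl2]⟩

section general

variable {τ : Edge → ℝ}

lemma length_le_cost (h1 : ∀ e, 1 ≤ τ e) (u : ℤ × ℤ) (l : List Step) : (l.length : ℝ) ≤ cost τ u l := by
  induction l generalizing u with
  | nil => simp [cost_nil]
  | cons s l ih =>
    rw [cost_cons]
    have := ih (u + vec s)
    have := h1 (stepEdge u s)
    push_cast [List.length_cons]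
    linarith

lemma cost_le_length {c : ℝ} (h2 : ∀ e, τ e ≤ c) (u : ℤ × ℤ) (l : List Step) :
    cost τ u l ≤ c * l.length := by
  induction l generalizing u with
  | nil => simp [cost_nil]
  | cons s l ih =>
    rw [cost_cons]
    have := ih (u + vec s)
    have := h2 (stepEdge u s)
    push_cast [List.length_cons]
    linarith

lemma cost_nonneg (h1 : ∀ e, 1 ≤ τ e) (u : ℤ × ℤ) (l : List Step) : 0 ≤ cost τ u l :=
  (Nat.cast_nonneg _).trans (length_le_cost h1 u l)

lemma T_le (h1 : ∀ e, 1 ≤ τ e) {u v : ℤ × ℤ} {l : List Step} (hl : endPt u l = v) :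
    T τ u v ≤ cost τ u l := by
  unfold T
  have hb : BddBelow (Set.range fun l : {l : List Step // endPt u l = v} => cost τ u l) :=
    ⟨0, by rintro _ ⟨l, rfl⟩; exact cost_nonneg h1 u l⟩
  exact ciInf_le hb ⟨l, hl⟩

/-- geodesics exist -/
lemma exists_geod (h1 : ∀ e, 1 ≤ τ e) (u v : ℤ × ℤ) :
    ∃ l : List Step, endPt u l = v ∧ cost τ u l = T τ u v := by
  obtain ⟨l₀, hl₀, _⟩ := exists_straight _ u v rfl
  have hfin : {l : List Step | l.length ≤ ⌈cost τ u l₀⌉₊ ∧ endPt u l = v}.Finite := by
    refine Set.Finite.subset (List.finite_length_le Step ⌈cost τ u l₀⌉₊) ?_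
    intro l hl
    exact hl.1
  have hne : {l : List Step | l.length ≤ ⌈cost τ u l₀⌉₊ ∧ endPt u l = v}.Nonempty := by
    refine ⟨l₀, ?_, hl₀⟩
    have := (length_le_cost h1 u l₀).trans (Nat.le_ceil _)
    exact_mod_cast this
  obtain ⟨l, hl, hmin⟩ := Set.exists_min_image _ (fun l => cost τ u l) hfin hne
  refine ⟨l, hl.2, ?_⟩
  apply le_antisymm _ (T_le h1 hl.2)
  have : Nonempty {l : List Step // endPt u l = v} := ⟨⟨l, hl.2⟩⟩
  refine le_ciInf fun l' => ?_
  by_cases hl' : l'.1.length ≤ ⌈cost τ u l₀⌉₊
  · exact hmin l'.1 ⟨hl', l'.2⟩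
  · push Not at hl'
    have h2 : cost τ u l ≤ cost τ u l₀ := by
      refine hmin l₀ ⟨?_, hl₀⟩
      have := (length_le_cost h1 u l₀).trans (Nat.le_ceil _)
      exact_mod_cast this
    have h3 : (⌈cost τ u l₀⌉₊ : ℝ) < (l'.1.length : ℝ) := by exact_mod_cast hl'
    have h4 := Nat.le_ceil (cost τ u l₀)
    have h5 := length_le_cost h1 u l'.1
    linarith

lemma T_nonneg (h1 : ∀ e, 1 ≤ τ e) (u v : ℤ × ℤ) : 0 ≤ T τ u v := by
  obtain ⟨l, _, h⟩ := exists_geod h1 u v
  rw [← h]; exact cost_nonneg h1 u l

lemma l1_le_T (h1 : ∀ e, 1 ≤ τ e) (u v : ℤ × ℤ) : (l1 (v - u) : ℝ) ≤ T τ u v := by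
  obtain ⟨l, hl, h⟩ := exists_geod h1 u v
  rw [← h]
  refine le_trans ?_ (length_le_cost h1 u l)
  have := l1_endPt_le u l
  rw [hl] at this
  exact_mod_cast this

lemma T_le_l1 (h1 : ∀ e, 1 ≤ τ e) {c : ℝ} (h2 : ∀ e, τ e ≤ c) (u v : ℤ × ℤ) :
    T τ u v ≤ c * l1 (v - u) := by
  obtain ⟨l, hl, h⟩ := exists_straight _ u v rfl
  refine (T_le h1 hl).trans ?_
  have := cost_le_length h2 u l
  rwa [h] at this

lemma T_tri (h1 : ∀ e, 1 ≤ τ e) (u v w : ℤ × ℤ) : T τ u w ≤ T τ u v + T τ v w := by
  obtain ⟨l, hl, h⟩ := exists_geod h1 u v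
  obtain ⟨l', hl', h'⟩ := exists_geod h1 v w
  rw [← h, ← h', ← hl, ← cost_append]
  apply T_le h1
  rw [endPt_append, hl, hl']

/-- reversed path -/
def rev (l : List Step) : List Step := (l.map opp).reverse

lemma endPt_rev (u : ℤ × ℤ) (l : List Step) : endPt (endPt u l) (rev l) = u := by
  induction l generalizing u with
  | nil => rfl
  | cons s l ih =>
    simp only [rev, List.map_cons, List.reverse_cons, endPt_append]
    have := ih (u + vec s)
    simp only [rev] at this
    simp only [endPt]
    rw [this, vec_opp]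
    simp

lemma cost_rev (τ : Edge → ℝ) (u : ℤ × ℤ) (l : List Step) :
    cost τ (endPt u l) (rev l) = cost τ u l := by
  induction l generalizing u with
  | nil => rfl
  | cons s l ih =>
    have h1 := ih (u + vec s)
    have h2 := endPt_rev (u + vec s) l
    simp only [rev, List.map_cons, List.reverse_cons, cost_append, endPt] at h1 h2 ⊢
    rw [h1, h2, cost_cons, cost_cons, cost_nil, stepEdge_opp]
    ring

lemma T_symm (h1 : ∀ e, 1 ≤ τ e) (u v : ℤ × ℤ) : T τ u v = T τ v u := by
  have key : ∀ u v, T τ v u ≤ T τ u v := by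
    intro u v
    obtain ⟨l, hl, h⟩ := exists_geod h1 u v
    rw [← h, ← cost_rev τ u l, hl]
    apply T_le h1
    rw [← hl]
    exact endPt_rev u l
  exact le_antisymm (key v u) (key u v)

/-- Lipschitz property in the second point -/
lemma T_lip (h1 : ∀ e, 1 ≤ τ e) {c : ℝ} (h2 : ∀ e, τ e ≤ c) (u v w : ℤ × ℤ) :
    |T τ u v - T τ u w| ≤ c * l1 (v - w) := by
  rw [abs_le]
  have a1 := T_tri h1 u v w
  have a2 := T_tri h1 u w v
  have a3 := T_le_l1 h1 h2 v w
  have a4 := T_le_l1 h1 h2 w v
  rw [l1_sub_comm] at a3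
  constructor <;> linarith

/-- splitting a geodesic at a vertex -/
lemma geo_split (h1 : ∀ e, 1 ≤ τ e) {u v : ℤ × ℤ} {l₁ l₂ : List Step} (hl : endPt u (l₁ ++ l₂) = v)
    (hc : cost τ u (l₁ ++ l₂) = T τ u v) :
    T τ u (endPt u l₁) + T τ (endPt u l₁) v ≤ T τ u v := by
  rw [← hc, cost_append]
  have a1 := T_le h1 (u := u) (v := endPt u l₁) rfl
  have a2 := T_le h1 (u := endPt u l₁) (v := v) (l := l₂) (by rw [← hl, endPt_append])
  linarith

lemma geo_suffix (h1 : ∀ e, 1 ≤ τ e) {u v : ℤ × ℤ} {l₁ l₂ : List Step} (hl : endPt u (l₁ ++ l₂) = v)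
    (hc : cost τ u (l₁ ++ l₂) = T τ u v) :
    cost τ (endPt u l₁) l₂ = T τ (endPt u l₁) v := by
  have a1 := T_le h1 (u := u) (v := endPt u l₁) rfl
  have a2 := T_le h1 (u := endPt u l₁) (v := v) (l := l₂) (by rw [← hl, endPt_append])
  have a3 := T_tri h1 u (endPt u l₁) v
  rw [cost_append] at hc
  linarith

/-- geodesics do not return to their starting point -/
lemma geo_no_return (h1 : ∀ e, 1 ≤ τ e) {u v : ℤ × ℤ} {l₁ l₂ : List Step} (hl : endPt u (l₁ ++ l₂) = v)
    (hc : cost τ u (l₁ ++ l₂) = T τ u v) (hne : l₁ ≠ []) : endPt u l₁ ≠ u := by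
  intro h
  have a1 := geo_suffix h1 hl hc
  rw [h] at a1
  rw [cost_append, h, a1] at hc
  have a2 := length_le_cost h1 u l₁
  have a3 : (1 : ℝ) ≤ (l₁.length : ℝ) := by
    have : 0 < l₁.length := List.length_pos_of_ne_nil hne
    exact_mod_cast this
  linarith

/-- geodesics use every edge at most once -/
lemma geo_nodup (h1 : ∀ e, 1 ≤ τ e) {v : ℤ × ℤ} (l : List Step) : ∀ (u : ℤ × ℤ), endPt u l = v →
    cost τ u l = T τ u v → (edgs u l).Nodup := by
  induction l with
  | nil => intro u _ _; simp [edgs]
  | cons s l ih =>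
    intro u hl hc
    have hc' : cost τ u ([s] ++ l) = T τ u v := hc
    have hl' : endPt u ([s] ++ l) = v := hl
    have a1 := geo_suffix h1 hl' hc'
    simp only [edgs, List.nodup_cons]
    refine ⟨?_, ih _ hl a1⟩
    intro hmem
    rw [mem_edgs] at hmem
    obtain ⟨l₁, s', l₂, hl2, he⟩ := hmem
    rcases stepEdge_inj he.symm with ⟨h2, _⟩ | ⟨h2, h3⟩
    · -- returned to `u`
      have hh : s :: l = (s :: l₁) ++ (s' :: l₂) := by rw [hl2]; rfl
      exact geo_no_return h1 (v := v) (l₁ := s :: l₁) (l₂ := s' :: l₂) (by rw [← hh]; exact hl)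
        (by rw [← hh]; exact hc) (by simp) h2
    · have hh : s :: l = (s :: (l₁ ++ [s'])) ++ l₂ := by rw [hl2]; simp
      refine geo_no_return h1 (v := v) (l₁ := s :: (l₁ ++ [s'])) (l₂ := l₂) (by rw [← hh]; exact hl)
        (by rw [← hh]; exact hc) (by simp) ?_
      simp only [endPt, endPt_append]
      rw [h2, h3, vec_opp]
      simp

end general

/-! ### finite dependence -/

/-- edges with lower-left endpoint within `ℓ^∞` distance `n` of `u` -/
noncomputable def SN (u : ℤ × ℤ) (n : ℕ) : Finset Edge :=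
  (Finset.Icc (u.1 - n) (u.1 + n) ×ˢ Finset.Icc (u.2 - n) (u.2 + n)) ×ˢ Finset.univ

lemma mem_SN {u : ℤ × ℤ} {n : ℕ} {e : Edge} :
    e ∈ SN u n ↔ |e.1.1 - u.1| ≤ n ∧ |e.1.2 - u.2| ≤ n := by
  unfold SN
  simp only [Finset.mem_product, Finset.mem_Icc, Finset.mem_univ, and_true, abs_le]
  constructor <;> (intro h; omega)

lemma edgs_mem_SN {u : ℤ × ℤ} {n : ℕ} {l : List Step} (hl : l.length ≤ n) {e : Edge}
    (he : e ∈ edgs u l) : e ∈ SN u n := by
  rw [mem_edgs] at he
  obtain ⟨l₁, s, l₂, h1, h2⟩ := he
  have h3 := l1_endPt_le u l₁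
  have h4 : l.length = l₁.length + l₂.length + 1 := by rw [h1]; simp; omega
  rw [mem_SN, ← h2]
  unfold l1 at h3
  simp only [Prod.fst_sub, Prod.snd_sub] at h3
  rcases s with ⟨a, b⟩
  cases a <;> cases b <;> simp only [stepEdge, vec, Prod.fst_add, Prod.snd_add, if_true, Bool.false_eq_true, if_false] <;>
    rw [abs_le, abs_le] <;> omega

lemma cost_congr {τ τ' : Edge → ℝ} {u : ℤ × ℤ} {l : List Step} (h : ∀ e ∈ edgs u l, τ e = τ' e) :
    cost τ u l = cost τ' u l := by
  unfold cost
  rw [List.map_congr_left h]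

/-! ### the environment -/

/-- extra time of a slow edge -/
noncomputable def hh : ℝ := 1 / 100

lemma hh_pos : 0 < hh := by norm_num [hh]

/-- passage times in terms of the slow edges -/
noncomputable def env (b : Edge → Bool) (e : Edge) : ℝ := 1 + hh * bi e b

lemma bi_nonneg {ι : Type*} (e : ι) (b : ι → Bool) : 0 ≤ bi e b := by unfold bi; split_ifs <;> norm_num
lemma bi_le_one {ι : Type*} (e : ι) (b : ι → Bool) : bi e b ≤ 1 := by unfold bi; split_ifs <;> norm_num

lemma env_ge (b : Edge → Bool) (e : Edge) : 1 ≤ env b e := by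
  unfold env; have := mul_nonneg hh_pos.le (bi_nonneg e b); linarith

lemma env_le (b : Edge → Bool) (e : Edge) : env b e ≤ 1 + hh := by
  unfold env; have := mul_le_mul_of_nonneg_left (bi_le_one e b) hh_pos.le; linarith

lemma env_le' (b : Edge → Bool) (e : Edge) : env b e ≤ 2 := by
  have := env_le b e; unfold hh at this; linarith

/-- passage time in terms of the slow edges -/
noncomputable def TB (b : Edge → Bool) (u v : ℤ × ℤ) : ℝ := T (env b) u v

lemma TB_depends (u v : ℤ × ℤ) {n : ℕ} (hn : 2 * l1 (v - u) ≤ n) :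
    DependsOn (fun b => TB b u v) (SN u n : Set Edge) := by
  have key : ∀ x y : Edge → Bool, (∀ i ∈ (SN u n : Set Edge), x i = y i) → TB y u v ≤ TB x u v := by
    intro x y h
    obtain ⟨l, hl, hc⟩ := exists_geod (env_ge x) u v
    have hlen : l.length ≤ n := by
      have a1 := length_le_cost (env_ge x) u l
      have a2 := T_le_l1 (env_ge x) (env_le' x) u v
      rw [hc] at a1
      have a3 : (l.length : ℝ) ≤ ((2 * l1 (v - u) : ℕ) : ℝ) := by push_cast; linarith
      have a4 : l.length ≤ 2 * l1 (v - u) := by exact_mod_cast a3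
      omega
    unfold TB
    rw [← hc, cost_congr (τ' := env y)]
    · exact T_le (env_ge y) hl
    · intro e he
      have := h e (by exact_mod_cast edgs_mem_SN hlen he)
      unfold env bi
      rw [this]
  intro x y h
  exact le_antisymm (key y x fun i hi => (h i hi).symm) (key x y h)

lemma env_update_of_ne {b : Edge → Bool} {e e' : Edge} {c : Bool} (h : e' ≠ e) :
    env (Function.update b e c) e' = env b e' := by
  unfold env bi
  rw [Function.update_of_ne h]

lemma env_update_true (b : Edge → Bool) (e : Edge) : env (Function.update b e true) e = 1 + hh := by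
  unfold env bi; simp

lemma env_update_false (b : Edge → Bool) (e : Edge) : env (Function.update b e false) e = 1 := by
  unfold env bi; simp

lemma env_upd_le (b : Edge → Bool) (e e' : Edge) :
    env (Function.update b e false) e' ≤ env (Function.update b e true) e' := by
  by_cases h : e' = e
  · subst h; rw [env_update_true, env_update_false]; linarith [hh_pos]
  · rw [env_update_of_ne h, env_update_of_ne h]

lemma cost_mono {τ τ' : Edge → ℝ} (h : ∀ e, τ e ≤ τ' e) (u : ℤ × ℤ) (l : List Step) :
    cost τ u l ≤ cost τ' u l := by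
  induction l generalizing u with
  | nil => simp [cost_nil]
  | cons s l ih =>
    rw [cost_cons, cost_cons]
    have := ih (u + vec s)
    have := h (stepEdge u s)
    linarith

lemma Dd_TB_nonneg (e : Edge) (u v : ℤ × ℤ) (b : Edge → Bool) : 0 ≤ Dd e (fun b => TB b u v) b := by
  unfold Dd TB
  simp only
  obtain ⟨l, hl, hc⟩ := exists_geod (env_ge (Function.update b e true)) u v
  rw [← hc]
  have a1 := T_le (env_ge (Function.update b e false)) hl
  have a2 := cost_mono (env_upd_le b e) u l
  linarith

/-- if `e` is not used by a geodesic and `e` is fast, then slowing `e` down changes nothing -/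
lemma Dd_TB_zero {e : Edge} {u v : ℤ × ℤ} {b : Edge → Bool} (hb : b e = false) {l : List Step}
    (hl : endPt u l = v) (hc : cost (env b) u l = TB b u v) (he : e ∉ edgs u l) :
    Dd e (fun b => TB b u v) b = 0 := by
  apply le_antisymm _ (Dd_TB_nonneg e u v b)
  have h0 : Function.update b e false = b := by rw [← hb]; exact Function.update_eq_self e b
  unfold Dd
  rw [h0]
  have a1 := T_le (env_ge (Function.update b e true)) hl
  have a2 : cost (env (Function.update b e true)) u l = cost (env b) u l := by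
    apply cost_congr
    intro e' he'
    exact env_update_of_ne fun h => he (h ▸ he')
  rw [a2, hc] at a1
  unfold TB at *
  linarith

lemma cost_update_nodup {b : Edge → Bool} {e : Edge} {u : ℤ × ℤ} {l : List Step} (hn : (edgs u l).Nodup) :
    cost (env (Function.update b e true)) u l ≤ cost (env (Function.update b e false)) u l + hh := by
  unfold cost
  generalize edgs u l = L at hn
  induction L with
  | nil => simp [hh_pos.le]
  | cons a L ih =>
    rw [List.nodup_cons] at hn
    simp only [List.map_cons, List.sum_cons]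
    by_cases ha : a = e
    · subst ha
      have h2 : L.map (env (Function.update b a true)) = L.map (env (Function.update b a false)) := by
        apply List.map_congr_left
        intro e' he'
        have hne : e' ≠ a := fun h => hn.1 (h ▸ he')
        rw [env_update_of_ne hne, env_update_of_ne hne]
      rw [h2, env_update_true, env_update_false]
      linarith
    · rw [env_update_of_ne ha, env_update_of_ne ha]
      have := ih hn.2
      linarith

lemma Dd_TB_le (e : Edge) (u v : ℤ × ℤ) (b : Edge → Bool) : Dd e (fun b => TB b u v) b ≤ hh := by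
  unfold Dd TB
  obtain ⟨l, hl, hc⟩ := exists_geod (env_ge (Function.update b e false)) u v
  have hn := geo_nodup (env_ge (Function.update b e false)) l u hl hc
  have a1 := T_le (env_ge (Function.update b e true)) hl
  have a2 := cost_update_nodup (b := b) (e := e) hn
  rw [hc] at a2
  linarith

lemma cost_update_mem {b : Edge → Bool} {e : Edge} (hb : b e = true) {u : ℤ × ℤ} {l : List Step}
    (he : e ∈ edgs u l) :
    cost (env (Function.update b e false)) u l ≤ cost (env b) u l - hh := by
  have hle : ∀ e', env (Function.update b e false) e' ≤ env b e' := by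
    intro e'
    have h0 : Function.update b e true = b := by rw [← hb]; exact Function.update_eq_self e b
    have := env_upd_le b e e'
    rwa [h0] at this
  unfold cost
  generalize edgs u l = L at he
  induction L with
  | nil => simp at he
  | cons a L ih =>
    simp only [List.map_cons, List.sum_cons]
    have hsum : ∀ L : List Edge, (L.map (env (Function.update b e false))).sum ≤ (L.map (env b)).sum := by
      intro L
      exact List.sum_le_sum fun i _ => hle i
    rcases List.mem_cons.1 he with h | h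
    · subst h
      have h1 : env b e = 1 + hh := by unfold env bi; simp [hb]
      rw [env_update_false, h1]
      have := hsum L
      linarith
    · have := ih h
      have := hle a
      linarith

/-- speeding up a slow edge of a geodesic -/
lemma TB_update_false_le {e : Edge} {u v : ℤ × ℤ} {b : Edge → Bool} (hb : b e = true) {l : List Step}
    (hl : endPt u l = v) (hc : cost (env b) u l = TB b u v) (he : e ∈ edgs u l) :
    TB (Function.update b e false) u v ≤ TB b u v - hh := by
  have a1 := T_le (env_ge (Function.update b e false)) hl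
  have a2 := cost_update_mem hb he
  rw [hc] at a2
  unfold TB at *
  linarith

/-! ### translations -/

/-- translation of edges -/
def shift (x : ℤ × ℤ) : Edge ≃ Edge where
  toFun e := (e.1 + x, e.2)
  invFun e := (e.1 - x, e.2)
  left_inv e := by simp
  right_inv e := by simp

lemma endPt_add (u x : ℤ × ℤ) (l : List Step) : endPt (u + x) l = endPt u l + x := by
  induction l generalizing u with
  | nil => rfl
  | cons s l ih =>
    simp only [endPt]
    rw [← ih]; congr 1; abel

lemma stepEdge_add (u x : ℤ × ℤ) (s : Step) : stepEdge (u + x) s = shift x (stepEdge u s) := by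
  unfold stepEdge shift
  simp only [Equiv.coe_fn_mk]
  split_ifs
  · simp only [Prod.mk.injEq, and_true]; abel
  · rfl

lemma cost_add (τ : Edge → ℝ) (u x : ℤ × ℤ) (l : List Step) :
    cost τ (u + x) l = cost (fun e => τ (shift x e)) u l := by
  induction l generalizing u with
  | nil => simp [cost_nil]
  | cons s l ih =>
    rw [cost_cons, cost_cons, stepEdge_add]
    congr 1
    rw [← ih]; congr 1; abel

lemma T_add (τ : Edge → ℝ) (u v x : ℤ × ℤ) :
    T τ (u + x) (v + x) = T (fun e => τ (shift x e)) u v := by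
  unfold T
  have hiff : ∀ l : List Step, endPt (u + x) l = v + x ↔ endPt u l = v := by
    intro l; rw [endPt_add]; exact add_left_inj x
  refine Equiv.iInf_congr (Equiv.subtypeEquivRight hiff) ?_
  intro l
  simp only [Equiv.subtypeEquivRight_apply_coe]
  rw [cost_add]

end FPPDir
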