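import Pool.Agent.Lib.MP_9b88e3_pr.Words

/-!
Confinement of geodesics in the extremal direction.
-/

set_option autoImplicit false

open MeasureTheory ProbabilityTheory Filter Topology
open scoped ENNReal NNReal

namespace FPPDir

/-- net points -/
def net (k : ℕ) (i j : ℤ) : ℤ × ℤ := ((k : ℤ) ^ 16 * i, (k : ℤ) ^ 16 * j)

/-- some passage time from or to a net point is far from its mean -/
def badC (k : ℕ) (v : ℤ × ℤ) : Set (Edge → Bool) :=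
  {b | ∃ i j : ℤ, |i| ≤ 3 * (k : ℤ) ^ 4 ∧ |j| ≤ 3 * (k : ℤ) ^ 4 ∧
    ((k : ℝ) ^ 16 ≤ |TB b 0 (net k i j) - aa (net k i j)| ∨
      (k : ℝ) ^ 16 ≤ |TB b (net k i j) v - aa (v - net k i j)|)}

lemma l1_net {k : ℕ} {i j : ℤ} (hi : |i| ≤ 3 * (k : ℤ) ^ 4) (hj : |j| ≤ 3 * (k : ℤ) ^ 4) :
    (l1 (net k i j) : ℝ) ≤ 6 * (k : ℝ) ^ 20 := by
  rw [l1_real]
  unfold net
  simp only
  push_cast
  rw [abs_mul, abs_mul, abs_of_nonneg (by positivity : (0 : ℝ) ≤ (k : ℝ) ^ 16)]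
  have hi' : |(i : ℝ)| ≤ 3 * (k : ℝ) ^ 4 := by exact_mod_cast hi
  have hj' : |(j : ℝ)| ≤ 3 * (k : ℝ) ^ 4 := by exact_mod_cast hj
  have h1 : (k : ℝ) ^ 16 * |(i : ℝ)| ≤ (k : ℝ) ^ 16 * (3 * (k : ℝ) ^ 4) := mul_le_mul_of_nonneg_left hi' (by positivity)
  have h2 : (k : ℝ) ^ 16 * |(j : ℝ)| ≤ (k : ℝ) ^ 16 * (3 * (k : ℝ) ^ 4) := mul_le_mul_of_nonneg_left hj' (by positivity)
  have h3 : (k : ℝ) ^ 16 * (3 * (k : ℝ) ^ 4) = 3 * (k : ℝ) ^ 20 := by ring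
  linarith

lemma C_bound {k : ℕ} (hk : 1 ≤ k) {v : ℤ × ℤ} (hv : (l1 v : ℝ) ≤ 3 * (k : ℝ) ^ 20) :
    (PP Edge).real (badC k v) ≤ 735 / (k : ℝ) ^ 4 := by
  have hk' : (1 : ℝ) ≤ k := by exact_mod_cast hk
  set I : Finset (ℤ × ℤ) := Finset.Icc (-(3 * (k : ℤ) ^ 4)) (3 * (k : ℤ) ^ 4) ×ˢ Finset.Icc (-(3 * (k : ℤ) ^ 4)) (3 * (k : ℤ) ^ 4) with hI
  have h1 : badC k v ⊆ ⋃ p ∈ I, ({b | (k : ℝ) ^ 16 ≤ |TB b 0 (net k p.1 p.2) - aa (net k p.1 p.2)|} ∪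
      {b | (k : ℝ) ^ 16 ≤ |TB b (net k p.1 p.2) v - aa (v - net k p.1 p.2)|}) := by
    rintro b ⟨i, j, hi, hj, h⟩
    simp only [Set.mem_iUnion]
    refine ⟨(i, j), ?_, h⟩
    rw [hI, Finset.mem_product, Finset.mem_Icc, Finset.mem_Icc]
    exact ⟨abs_le.1 hi, abs_le.1 hj⟩
  refine (prmono h1).trans ((measureReal_biUnion_finset_le _ _).trans ?_)
  have h2 : ∀ p ∈ I, (PP Edge).real ({b | (k : ℝ) ^ 16 ≤ |TB b 0 (net k p.1 p.2) - aa (net k p.1 p.2)|} ∪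
      {b | (k : ℝ) ^ 16 ≤ |TB b (net k p.1 p.2) v - aa (v - net k p.1 p.2)|}) ≤ 15 / (k : ℝ) ^ 12 := by
    intro p hp
    rw [hI, Finset.mem_product, Finset.mem_Icc, Finset.mem_Icc] at hp
    have hn := l1_net (abs_le.2 hp.1) (abs_le.2 hp.2)
    refine (measureReal_union_le _ _).trans ?_
    have c1 := cheb 0 (net k p.1 p.2) (s := (k : ℝ) ^ 16) (by positivity)
    have c2 := cheb (net k p.1 p.2) v (s := (k : ℝ) ^ 16) (by positivity)
    rw [sub_zero] at c1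
    have hn2 : (l1 (v - net k p.1 p.2) : ℝ) ≤ 9 * (k : ℝ) ^ 20 := by
      have := l1_tri v 0 (net k p.1 p.2)
      rw [sub_zero, zero_sub, l1_neg] at this
      linarith
    have d1 : (l1 (net k p.1 p.2) : ℝ) / ((k : ℝ) ^ 16) ^ 2 ≤ 6 / (k : ℝ) ^ 12 := by
      rw [div_le_div_iff₀ (by positivity) (by positivity)]
      calc (l1 (net k p.1 p.2) : ℝ) * (k : ℝ) ^ 12 ≤ 6 * (k : ℝ) ^ 20 * (k : ℝ) ^ 12 :=
            mul_le_mul_of_nonneg_right hn (by positivity)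
        _ = 6 * ((k : ℝ) ^ 16) ^ 2 := by ring
    have d2 : (l1 (v - net k p.1 p.2) : ℝ) / ((k : ℝ) ^ 16) ^ 2 ≤ 9 / (k : ℝ) ^ 12 := by
      rw [div_le_div_iff₀ (by positivity) (by positivity)]
      calc (l1 (v - net k p.1 p.2) : ℝ) * (k : ℝ) ^ 12 ≤ 9 * (k : ℝ) ^ 20 * (k : ℝ) ^ 12 :=
            mul_le_mul_of_nonneg_right hn2 (by positivity)
        _ = 9 * ((k : ℝ) ^ 16) ^ 2 := by ring
    have d3 : (6 : ℝ) / (k : ℝ) ^ 12 + 9 / (k : ℝ) ^ 12 = 15 / (k : ℝ) ^ 12 := by ring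
    linarith
  refine (Finset.sum_le_card_nsmul _ _ _ h2).trans ?_
  rw [nsmul_eq_mul]
  have hcard : (I.card : ℝ) ≤ 49 * (k : ℝ) ^ 8 := by
    rw [hI, Finset.card_product, Int.card_Icc]
    have e1 : (3 * (k : ℤ) ^ 4 + 1 - -(3 * (k : ℤ) ^ 4)).toNat = 6 * k ^ 4 + 1 := by
      have : (3 * (k : ℤ) ^ 4 + 1 - -(3 * (k : ℤ) ^ 4)) = ((6 * k ^ 4 + 1 : ℕ) : ℤ) := by push_cast; ring
      rw [this, Int.toNat_natCast]
    rw [e1]
    push_cast
    have e2 : (1 : ℝ) ≤ (k : ℝ) ^ 4 := one_le_pow₀ hk'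
    have e3 : 6 * (k : ℝ) ^ 4 + 1 ≤ 7 * (k : ℝ) ^ 4 := by linarith
    calc (6 * (k : ℝ) ^ 4 + 1) * (6 * (k : ℝ) ^ 4 + 1) ≤ (7 * (k : ℝ) ^ 4) * (7 * (k : ℝ) ^ 4) :=
          mul_le_mul e3 e3 (by positivity) (by positivity)
      _ = 49 * (k : ℝ) ^ 8 := by ring
  calc (I.card : ℝ) * (15 / (k : ℝ) ^ 12) ≤ 49 * (k : ℝ) ^ 8 * (15 / (k : ℝ) ^ 12) :=
        mul_le_mul_of_nonneg_right hcard (by positivity)
    _ = 735 / (k : ℝ) ^ 4 := by field_simp; ring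

lemma near_net {k : ℕ} (hk : 1 ≤ k) {z : ℤ × ℤ} (h1 : |z.1| ≤ 2 * (k : ℤ) ^ 20) (h2 : |z.2| ≤ 2 * (k : ℤ) ^ 20) :
    ∃ i j : ℤ, |i| ≤ 3 * (k : ℤ) ^ 4 ∧ |j| ≤ 3 * (k : ℤ) ^ 4 ∧ (l1 (z - net k i j) : ℝ) ≤ 2 * (k : ℝ) ^ 16 := by
  have hkz : (1 : ℤ) ≤ k := by exact_mod_cast hk
  have hpos : (0 : ℤ) < (k : ℤ) ^ 16 := by positivity
  have key : ∀ a : ℤ, |a| ≤ 2 * (k : ℤ) ^ 20 → |a / (k : ℤ) ^ 16| ≤ 3 * (k : ℤ) ^ 4 ∧
      |a - (k : ℤ) ^ 16 * (a / (k : ℤ) ^ 16)| ≤ (k : ℤ) ^ 16 := by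
    intro a ha
    have e1 := Int.emod_add_mul_ediv a ((k : ℤ) ^ 16)
    have e2 := Int.emod_nonneg a hpos.ne'
    have e3 := Int.emod_lt_of_pos a hpos
    have e4 : a - (k : ℤ) ^ 16 * (a / (k : ℤ) ^ 16) = a % (k : ℤ) ^ 16 := by linarith
    rw [e4]
    refine ⟨?_, by rw [abs_of_nonneg e2]; exact e3.le⟩
    have e5 : (k : ℤ) ^ 16 ≤ (k : ℤ) ^ 20 := pow_le_pow_right₀ hkz (by norm_num)
    have e6 : |(k : ℤ) ^ 16 * (a / (k : ℤ) ^ 16)| ≤ 3 * (k : ℤ) ^ 20 := by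
      have : (k : ℤ) ^ 16 * (a / (k : ℤ) ^ 16) = a - a % (k : ℤ) ^ 16 := by linarith
      rw [this]
      rw [abs_le] at ha ⊢
      constructor <;> linarith
    rw [abs_mul, abs_of_pos hpos] at e6
    have e7 : (3 : ℤ) * (k : ℤ) ^ 20 = (k : ℤ) ^ 16 * (3 * (k : ℤ) ^ 4) := by ring
    rw [e7] at e6
    exact le_of_mul_le_mul_left e6 hpos
  obtain ⟨a1, a2⟩ := key z.1 h1
  obtain ⟨b1, b2⟩ := key z.2 h2
  refine ⟨z.1 / (k : ℤ) ^ 16, z.2 / (k : ℤ) ^ 16, a1, b1, ?_⟩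
  rw [l1_real]
  unfold net
  simp only [Prod.fst_sub, Prod.snd_sub]
  have a2' : |(((z.1 - (k : ℤ) ^ 16 * (z.1 / (k : ℤ) ^ 16) : ℤ)) : ℝ)| ≤ (k : ℝ) ^ 16 := by exact_mod_cast a2
  have b2' : |(((z.2 - (k : ℤ) ^ 16 * (z.2 / (k : ℤ) ^ 16) : ℤ)) : ℝ)| ≤ (k : ℝ) ^ 16 := by exact_mod_cast b2
  linarith

lemma lower_T {b : Edge → Bool} {k : ℕ} (hk : 1 ≤ k) {v : ℤ × ℤ} (hb : b ∉ badC k v) {z : ℤ × ℤ}
    (h1 : |z.1| ≤ 2 * (k : ℤ) ^ 20) (h2 : |z.2| ≤ 2 * (k : ℤ) ^ 20) :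
    aa z - 9 * (k : ℝ) ^ 16 ≤ TB b 0 z ∧ aa (v - z) - 9 * (k : ℝ) ^ 16 ≤ TB b z v := by
  obtain ⟨i, j, hi, hj, hl⟩ := near_net hk h1 h2
  have hb2 : |TB b 0 (net k i j) - aa (net k i j)| < (k : ℝ) ^ 16 ∧
      |TB b (net k i j) v - aa (v - net k i j)| < (k : ℝ) ^ 16 := by
    constructor
    · by_contra h
      exact hb ⟨i, j, hi, hj, Or.inl (not_lt.1 h)⟩
    · by_contra h
      exact hb ⟨i, j, hi, hj, Or.inr (not_lt.1 h)⟩
  obtain ⟨c1, c2⟩ := hb2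
  have t1 := T_lip (env_ge b) (env_le' b) 0 z (net k i j)
  have t2 := T_lip (env_ge b) (env_le' b) v z (net k i j)
  rw [T_symm (env_ge b) v z, T_symm (env_ge b) v (net k i j)] at t2
  have t3 := aa_lip z (net k i j)
  have t4 := aa_lip (v - z) (v - net k i j)
  have e1 : v - z - (v - net k i j) = net k i j - z := by abel
  rw [e1, l1_comm'] at t4
  unfold TB at *
  rw [abs_le] at t1 t2 t3 t4
  rw [abs_lt] at c1 c2
  constructor <;> linarith [t1.1, t1.2, t2.1, t2.2, t3.1, t3.2, t4.1, t4.2, c1.1, c1.2, c2.1, c2.2]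

lemma fl_pt (z : ℤ × ℤ) : fl (pt z) = z := by
  unfold fl pt
  simp

lemma aa_ge {y : ℂ} (hmin : ∀ x : ℂ, G y * ‖x‖ ≤ G x) (z : ℤ × ℤ) : G y * ‖pt z‖ - 4 ≤ aa z := by
  have h1 := hmin (pt z)
  have h2 := G_le (pt z)
  rw [fl_pt] at h2
  linarith

lemma cross_bound {y z : ℂ} (hy : ‖y‖ = 1) {n E : ℝ} (hn : 0 ≤ n) (hE : 0 ≤ E)
    (h : ‖z‖ + ‖(n : ℂ) * y - z‖ ≤ n + E) :
    4 * ((starRingEnd ℂ) y * z).im ^ 2 ≤ 2 * n * E + E ^ 2 := by
  set w := (starRingEnd ℂ) y * z with hw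
  have h1 : ‖w‖ = ‖z‖ := by rw [hw, norm_mul, Complex.norm_conj, hy, one_mul]
  have hyy : (starRingEnd ℂ) y * y = 1 := by
    rw [mul_comm, Complex.mul_conj, Complex.normSq_eq_norm_sq, hy]; simp
  have h2 : ‖(n : ℂ) - w‖ = ‖(n : ℂ) * y - z‖ := by
    have : (n : ℂ) - w = (starRingEnd ℂ) y * ((n : ℂ) * y - z) := by
      rw [hw, mul_sub]
      have : (starRingEnd ℂ) y * ((n : ℂ) * y) = n * ((starRingEnd ℂ) y * y) := by ring
      rw [this, hyy, mul_one]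
    rw [this, norm_mul, Complex.norm_conj, hy, one_mul]
  have h3 : ‖(starRingEnd ℂ) w + ((n : ℂ) - w)‖ ≤ n + E := by
    refine (norm_add_le _ _).trans ?_
    rw [Complex.norm_conj, h1, h2]
    exact h
  have h4 : ‖(starRingEnd ℂ) w + ((n : ℂ) - w)‖ ^ 2 = n ^ 2 + 4 * w.im ^ 2 := by
    rw [← Complex.normSq_eq_norm_sq, Complex.normSq_apply]
    simp
    ring
  have h5 : ‖(starRingEnd ℂ) w + ((n : ℂ) - w)‖ ^ 2 ≤ (n + E) ^ 2 := pow_le_pow_left₀ (norm_nonneg _) h3 2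
  rw [h4] at h5
  nlinarith

lemma int_card {s : Finset ℤ} {c : ℝ} {W : ℕ} (h : ∀ z ∈ s, |(z : ℝ) - c| ≤ 2 * W) : s.card ≤ 4 * W + 1 := by
  have h1 : s ⊆ Finset.Icc (⌈c⌉ - 2 * W) (⌊c⌋ + 2 * W) := by
    intro z hz
    have := h z hz
    rw [abs_le] at this
    rw [Finset.mem_Icc]
    constructor
    · have : c ≤ ((z + 2 * W : ℤ) : ℝ) := by push_cast; linarith [this.1]
      have := Int.ceil_le.2 this
      linarith
    · have : ((z - 2 * W : ℤ) : ℝ) ≤ c := by push_cast; linarith [this.2]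
      have := Int.le_floor.2 this
      linarith
  refine (Finset.card_le_card h1).trans ?_
  rw [Int.card_Icc]
  have := Int.floor_le_ceil c
  omega

/-- the deterministic region which contains the geodesic -/
noncomputable def reg (y : ℂ) (k : ℕ) : Finset Edge :=
  (SN 0 (2 * k ^ 20)).filter fun e => |((starRingEnd ℂ) y * pt e.1).im| ≤ 15 * (k : ℝ) ^ 18

lemma im_eq (y : ℂ) (z : ℤ × ℤ) : ((starRingEnd ℂ) y * pt z).im = y.re * z.2 - y.im * z.1 := by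
  simp [pt, Complex.mul_im]
  ring

lemma reg_card {y : ℂ} (hy : 1 / 2 ≤ |y.re| ∨ 1 / 2 ≤ |y.im|) {k : ℕ} (hk : 1 ≤ k) :
    ((reg y k).card : ℝ) ≤ 610 * (k : ℝ) ^ 38 := by
  have hk' : (1 : ℝ) ≤ k := by exact_mod_cast hk
  have hnat : (reg y k).card ≤ (4 * (15 * k ^ 18) + 1) * ((4 * k ^ 20 + 1) * 2) := by
    have hcardI : (Finset.Icc (-(2 * (k : ℤ) ^ 20)) (2 * (k : ℤ) ^ 20)).card = 4 * k ^ 20 + 1 := by
      rw [Int.card_Icc]
      have : (2 * (k : ℤ) ^ 20 + 1 - -(2 * (k : ℤ) ^ 20)) = ((4 * k ^ 20 + 1 : ℕ) : ℤ) := by push_cast; ring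
      rw [this, Int.toNat_natCast]
    rcases hy with hy | hy
    · have h := Finset.card_le_mul_card_image_of_maps_to (s := reg y k)
        (t := Finset.Icc (-(2 * (k : ℤ) ^ 20)) (2 * (k : ℤ) ^ 20) ×ˢ (Finset.univ : Finset Bool))
        (f := fun e => (e.1.1, e.2)) ?_ (4 * (15 * k ^ 18) + 1) ?_
      · rwa [Finset.card_product, hcardI, Finset.card_univ, Fintype.card_bool] at h
      · intro e he
        unfold reg at he
        rw [Finset.mem_filter, mem_SN] at he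
        rw [Finset.mem_product, Finset.mem_Icc]
        have := he.1.1
        simp only [Prod.fst_zero, sub_zero] at this
        push_cast at this
        exact ⟨abs_le.1 this, Finset.mem_univ _⟩
      · rintro ⟨a, c⟩ _
        have hinj : Set.InjOn (fun e : Edge => e.1.2) (((reg y k).filter fun e => (e.1.1, e.2) = (a, c) : Finset Edge) : Set Edge) := by
          rintro ⟨⟨e1, e2⟩, e3⟩ he ⟨⟨f1, f2⟩, f3⟩ hf hef
          simp only [Finset.coe_filter, Set.mem_ofPred_eq, Prod.mk.injEq] at he hf hef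
          simp only [Prod.mk.injEq]
          exact ⟨⟨by rw [he.2.1, hf.2.1], hef⟩, by rw [he.2.2, hf.2.2]⟩
        rw [← Finset.card_image_of_injOn hinj]
        apply int_card (c := a * y.im / y.re)
        intro z hz
        rw [Finset.mem_image] at hz
        obtain ⟨e, he, rfl⟩ := hz
        rw [Finset.mem_filter, Prod.mk.injEq] at he
        unfold reg at he
        rw [Finset.mem_filter] at he
        have h1 := he.1.2
        rw [im_eq, he.2.1] at h1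
        have hy0 : y.re ≠ 0 := by
          intro h0; rw [h0] at hy; simp at hy; linarith
        have h2 : (e.1.2 : ℝ) - a * y.im / y.re = (y.re * e.1.2 - y.im * a) / y.re := by
          field_simp
        rw [h2, abs_div, div_le_iff₀ (by linarith)]
        push_cast
        have h3 : (0 : ℝ) ≤ 15 * (k : ℝ) ^ 18 := by positivity
        nlinarith
    · have h := Finset.card_le_mul_card_image_of_maps_to (s := reg y k)
        (t := Finset.Icc (-(2 * (k : ℤ) ^ 20)) (2 * (k : ℤ) ^ 20) ×ˢ (Finset.univ : Finset Bool))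
        (f := fun e => (e.1.2, e.2)) ?_ (4 * (15 * k ^ 18) + 1) ?_
      · rwa [Finset.card_product, hcardI, Finset.card_univ, Fintype.card_bool] at h
      · intro e he
        unfold reg at he
        rw [Finset.mem_filter, mem_SN] at he
        rw [Finset.mem_product, Finset.mem_Icc]
        have := he.1.2
        simp only [Prod.snd_zero, sub_zero] at this
        push_cast at this
        exact ⟨abs_le.1 this, Finset.mem_univ _⟩
      · rintro ⟨a, c⟩ _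
        have hinj : Set.InjOn (fun e : Edge => e.1.1) (((reg y k).filter fun e => (e.1.2, e.2) = (a, c) : Finset Edge) : Set Edge) := by
          rintro ⟨⟨e1, e2⟩, e3⟩ he ⟨⟨f1, f2⟩, f3⟩ hf hef
          simp only [Finset.coe_filter, Set.mem_ofPred_eq, Prod.mk.injEq] at he hf hef
          simp only [Prod.mk.injEq]
          exact ⟨⟨hef, by rw [he.2.1, hf.2.1]⟩, by rw [he.2.2, hf.2.2]⟩
        rw [← Finset.card_image_of_injOn hinj]
        apply int_card (c := a * y.re / y.im)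
        intro z hz
        rw [Finset.mem_image] at hz
        obtain ⟨e, he, rfl⟩ := hz
        rw [Finset.mem_filter, Prod.mk.injEq] at he
        unfold reg at he
        rw [Finset.mem_filter] at he
        have h1 := he.1.2
        rw [im_eq, he.2.1] at h1
        have hy0 : y.im ≠ 0 := by
          intro h0; rw [h0] at hy; simp at hy; linarith
        have h2 : (e.1.1 : ℝ) - a * y.re / y.im = -(y.re * a - y.im * e.1.1) / y.im := by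
          field_simp
          ring
        rw [h2, abs_div, abs_neg, div_le_iff₀ (by linarith)]
        push_cast
        have h3 : (0 : ℝ) ≤ 15 * (k : ℝ) ^ 18 := by positivity
        nlinarith
  have h1 : ((reg y k).card : ℝ) ≤ (4 * (15 * (k : ℝ) ^ 18) + 1) * ((4 * (k : ℝ) ^ 20 + 1) * 2) := by
    exact_mod_cast hnat
  refine h1.trans ?_
  have e1 : (1 : ℝ) ≤ (k : ℝ) ^ 18 := one_le_pow₀ hk'
  have e2 : (1 : ℝ) ≤ (k : ℝ) ^ 20 := one_le_pow₀ hk'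
  calc (4 * (15 * (k : ℝ) ^ 18) + 1) * ((4 * (k : ℝ) ^ 20 + 1) * 2)
      ≤ (61 * (k : ℝ) ^ 18) * (10 * (k : ℝ) ^ 20) := by
        apply mul_le_mul (by linarith) (by linarith) (by positivity) (by positivity)
    _ = 610 * (k : ℝ) ^ 38 := by ring

/-- **Confinement**: all edges of a geodesic from `0` to `v` are in `reg y k`. -/
lemma geo_in_reg {y : ℂ} (hy : ‖y‖ = 1) (hmin : ∀ x : ℂ, G y * ‖x‖ ≤ G x) (hG1 : 1 ≤ G y)
    {k : ℕ} (hk : 1 ≤ k) {v : ℤ × ℤ} (hv : ‖(((k : ℝ) ^ 20 : ℝ) : ℂ) * y - pt v‖ ≤ 2)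
    {b : Edge → Bool} (hb : b ∉ badC k v)
    (hT : TB b 0 v ≤ G y * (k : ℝ) ^ 20 + (k : ℝ) ^ 16) (hT2 : TB b 0 v ≤ 2 * (k : ℝ) ^ 20)
    {l : List Step} (hl : endPt 0 l = v) (hc : cost (env b) 0 l = TB b 0 v) :
    ∀ e ∈ edgs 0 l, e ∈ reg y k := by
  have hk' : (1 : ℝ) ≤ k := by exact_mod_cast hk
  have hlen : (l.length : ℝ) ≤ 2 * (k : ℝ) ^ 20 := by
    have := length_le_cost (env_ge b) 0 l
    rw [hc] at this
    linarith
  have hlen' : l.length ≤ 2 * k ^ 20 := by exact_mod_cast hlen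
  -- all vertices satisfy the bound
  have key : ∀ l₁ l₂ : List Step, l = l₁ ++ l₂ → |((starRingEnd ℂ) y * pt (endPt 0 l₁)).im| ≤ 15 * (k : ℝ) ^ 18 := by
    intro l₁ l₂ h12
    set z := endPt 0 l₁ with hz
    have hz1 := l1_endPt_le 0 l₁
    rw [← hz, sub_zero] at hz1
    have hz2 : l1 z ≤ 2 * k ^ 20 := by
      have : l.length = l₁.length + l₂.length := by rw [h12, List.length_append]
      omega
    have hz3 : |z.1| ≤ 2 * (k : ℤ) ^ 20 ∧ |z.2| ≤ 2 * (k : ℤ) ^ 20 := by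
      unfold l1 at hz2
      have : ((z.1.natAbs + z.2.natAbs : ℕ) : ℤ) ≤ ((2 * k ^ 20 : ℕ) : ℤ) := by exact_mod_cast hz2
      push_cast at this
      have a1 := abs_nonneg z.1
      have a2 := abs_nonneg z.2
      constructor <;> linarith
    obtain ⟨c1, c2⟩ := lower_T hk hb hz3.1 hz3.2
    have c3 : T (env b) 0 z + T (env b) z v ≤ T (env b) 0 v := by
      rw [h12] at hl hc
      exact geo_split (env_ge b) hl hc
    have c4 := aa_ge hmin z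
    have c5 := aa_ge hmin (v - z)
    have hpt : pt (v - z) = pt v - pt z := by
      unfold pt
      apply Complex.ext <;> simp
    rw [hpt] at c5
    unfold TB at *
    have c6 : G y * (‖pt z‖ + ‖pt v - pt z‖) ≤ G y * (k : ℝ) ^ 20 + 19 * (k : ℝ) ^ 16 + 8 := by linarith
    have p16 : (1 : ℝ) ≤ (k : ℝ) ^ 16 := one_le_pow₀ hk'
    have c7 : ‖pt z‖ + ‖pt v - pt z‖ ≤ (k : ℝ) ^ 20 + 27 * (k : ℝ) ^ 16 := by
      by_contra hcon
      push Not at hcon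
      have : G y * ((k : ℝ) ^ 20 + 27 * (k : ℝ) ^ 16) < G y * (‖pt z‖ + ‖pt v - pt z‖) :=
        mul_lt_mul_of_pos_left hcon (by linarith)
      nlinarith
    have c8 : ‖pt z‖ + ‖(((k : ℝ) ^ 20 : ℝ) : ℂ) * y - pt z‖ ≤ (k : ℝ) ^ 20 + 29 * (k : ℝ) ^ 16 := by
      have : (((k : ℝ) ^ 20 : ℝ) : ℂ) * y - pt z = ((((k : ℝ) ^ 20 : ℝ) : ℂ) * y - pt v) + (pt v - pt z) := by ring
      rw [this]
      have := norm_add_le ((((k : ℝ) ^ 20 : ℝ) : ℂ) * y - pt v) (pt v - pt z)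
      linarith
    have c9 := cross_bound hy (by positivity) (by positivity) c8
    have c10 : 2 * (k : ℝ) ^ 20 * (29 * (k : ℝ) ^ 16) + (29 * (k : ℝ) ^ 16) ^ 2 ≤ 900 * (k : ℝ) ^ 36 := by
      have e1 : (k : ℝ) ^ 32 ≤ (k : ℝ) ^ 36 := pow_le_pow_right₀ hk' (by norm_num)
      have e2 : 2 * (k : ℝ) ^ 20 * (29 * (k : ℝ) ^ 16) + (29 * (k : ℝ) ^ 16) ^ 2 = 58 * (k : ℝ) ^ 36 + 841 * (k : ℝ) ^ 32 := by ring
      have e3 : (0 : ℝ) ≤ (k : ℝ) ^ 36 := by positivity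
      linarith
    have c11 : ((starRingEnd ℂ) y * pt z).im ^ 2 ≤ (15 * (k : ℝ) ^ 18) ^ 2 := by
      have : (15 * (k : ℝ) ^ 18) ^ 2 = 225 * (k : ℝ) ^ 36 := by ring
      rw [this]
      linarith
    exact abs_le_of_sq_le_sq c11 (by positivity)
  intro e he
  unfold reg
  rw [Finset.mem_filter]
  refine ⟨edgs_mem_SN hlen' he, ?_⟩
  rw [mem_edgs] at he
  obtain ⟨l₁, s, l₂, h1, h2⟩ := he
  rw [← h2]
  unfold stepEdge
  by_cases hs : s.2
  · rw [if_pos hs]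
    simp only
    have := key (l₁ ++ [s]) l₂ (by rw [h1]; simp)
    rwa [endPt_append] at this
  · rw [if_neg hs]
    simp only
    exact key l₁ (s :: l₂) h1

end FPPDir
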