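import Pool.Agent.Lib.MP_9b88e3_pr.TC

/-!
Contours in a box: a set of sites of the box `[0,m]²` which contains the lower left corner but not
the upper right one has a boundary path from the left/top wall to the bottom/right wall.
-/

set_option autoImplicit false

open MeasureTheory ProbabilityTheory Filter Topology
open scoped ENNReal NNReal

namespace FPPDir

/-- A unit step of a path on the dual lattice: its final point (`(i,j)` stands for the point
`(i+1/2, j+1/2)`) and its direction. -/
abbrev St : Type := (ℤ × ℤ) × Step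

/-- the site on the right-hand side of a dual step -/
def rc (s : St) : ℤ × ℤ :=
  match s.2 with
  | (false, false) => s.1
  | (true, true) => s.1 + (0, 1)
  | (false, true) => s.1 + (1, 1)
  | (true, false) => s.1 + (1, 0)

/-- the site on the left-hand side of a dual step -/
def lc (s : St) : ℤ × ℤ :=
  match s.2 with
  | (false, false) => s.1 + (0, 1)
  | (true, true) => s.1 + (1, 1)
  | (false, true) => s.1 + (1, 0)
  | (true, false) => s.1

/-- the site ahead on the right -/
def fr (s : St) : ℤ × ℤ :=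
  match s.2 with
  | (false, false) => s.1 + (1, 0)
  | (true, true) => s.1
  | (false, true) => s.1 + (0, 1)
  | (true, false) => s.1 + (1, 1)

/-- the site ahead on the left -/
def fL (s : St) : ℤ × ℤ :=
  match s.2 with
  | (false, false) => s.1 + (1, 1)
  | (true, true) => s.1 + (1, 0)
  | (false, true) => s.1
  | (true, false) => s.1 + (0, 1)

/-- clockwise turn -/
def cw : Step → Step
  | (false, false) => (true, true)
  | (true, true) => (false, true)
  | (false, true) => (true, false)
  | (true, false) => (false, false)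

/-- counterclockwise turn -/
def ccw : Step → Step
  | (false, false) => (true, false)
  | (true, false) => (false, true)
  | (false, true) => (true, true)
  | (true, true) => (false, false)

open Classical in
/-- new direction: keep the set `A` on the right-hand side -/
noncomputable def turn (A : ℤ × ℤ → Prop) (s : St) : Step :=
  if A (fr s) then (if A (fL s) then ccw s.2 else s.2) else cw s.2

/-- the next step of the boundary path -/
noncomputable def nxt (A : ℤ × ℤ → Prop) (s : St) : St := (s.1 + vec (turn A s), turn A s)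

/-- the box -/
def VV (m : ℕ) (z : ℤ × ℤ) : Prop := 0 ≤ z.1 ∧ z.1 ≤ m ∧ 0 ≤ z.2 ∧ z.2 ≤ m

/-- dual points all of whose neighbours are in the box -/
def inner (m : ℕ) (p : ℤ × ℤ) : Prop := 0 ≤ p.1 ∧ p.1 < m ∧ 0 ≤ p.2 ∧ p.2 < m

/-- boundary steps of `A` in the box -/
def valid (m : ℕ) (A : ℤ × ℤ → Prop) (s : St) : Prop := A (rc s) ∧ ¬ A (lc s) ∧ VV m (rc s) ∧ VV m (lc s)

lemma rc_cw (s : St) : rc (s.1 + vec (cw s.2), cw s.2) = rc s := by
  rcases s with ⟨⟨x, y⟩, ⟨a, b⟩⟩
  cases a <;> cases b <;> simp [rc, cw, vec]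

lemma lc_cw (s : St) : lc (s.1 + vec (cw s.2), cw s.2) = fr s := by
  rcases s with ⟨⟨x, y⟩, ⟨a, b⟩⟩
  cases a <;> cases b <;> simp [lc, fr, cw, vec]

lemma rc_st (s : St) : rc (s.1 + vec s.2, s.2) = fr s := by
  rcases s with ⟨⟨x, y⟩, ⟨a, b⟩⟩
  cases a <;> cases b <;> simp [rc, fr, vec]

lemma lc_st (s : St) : lc (s.1 + vec s.2, s.2) = fL s := by
  rcases s with ⟨⟨x, y⟩, ⟨a, b⟩⟩
  cases a <;> cases b <;> simp [lc, fL, vec]

lemma rc_ccw (s : St) : rc (s.1 + vec (ccw s.2), ccw s.2) = fL s := by
  rcases s with ⟨⟨x, y⟩, ⟨a, b⟩⟩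
  cases a <;> cases b <;> simp [rc, fL, ccw, vec]

lemma lc_ccw (s : St) : lc (s.1 + vec (ccw s.2), ccw s.2) = lc s := by
  rcases s with ⟨⟨x, y⟩, ⟨a, b⟩⟩
  cases a <;> cases b <;> simp [lc, ccw, vec]

lemma V_front {m : ℕ} {s : St} (h : inner m s.1) : VV m (fr s) ∧ VV m (fL s) := by
  rcases s with ⟨⟨x, y⟩, ⟨a, b⟩⟩
  unfold inner at h
  simp only at h
  cases a <;> cases b <;> simp only [VV, fr, fL, Prod.mk_add_mk] <;> omega

lemma nxt_valid {m : ℕ} {A : ℤ × ℤ → Prop} {s : St} (h : valid m A s) (hi : inner m s.1) : valid m A (nxt A s) := by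
  obtain ⟨h1, h2, h3, h4⟩ := h
  obtain ⟨h5, h6⟩ := V_front hi
  unfold nxt turn
  split_ifs with c1 c2
  · exact ⟨by rw [rc_ccw]; exact c2, by rw [lc_ccw]; exact h2, by rw [rc_ccw]; exact h6, by rw [lc_ccw]; exact h4⟩
  · exact ⟨by rw [rc_st]; exact c1, by rw [lc_st]; exact c2, by rw [rc_st]; exact h5, by rw [lc_st]; exact h6⟩
  · exact ⟨by rw [rc_cw]; exact h1, by rw [lc_cw]; exact c1, by rw [rc_cw]; exact h3, by rw [lc_cw]; exact h5⟩

lemma turn_inj {m : ℕ} {A : ℤ × ℤ → Prop} {p : ℤ × ℤ} {h g : Step} (hs : valid m A (p, h)) (ht : valid m A (p, g))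
    (he : turn A (p, h) = turn A (p, g)) : h = g := by
  obtain ⟨h1, h2, _, _⟩ := hs
  obtain ⟨g1, g2, _, _⟩ := ht
  unfold turn at he
  rcases h with ⟨a, b⟩
  rcases g with ⟨a', b'⟩
  cases a <;> cases b <;> cases a' <;> cases b' <;>
    simp only [rc, lc, fr, fL, cw, ccw] at h1 h2 g1 g2 he ⊢ <;>
    first
      | rfl
      | (exfalso; split_ifs at he <;> simp_all)

lemma nxt_inj {m : ℕ} {A : ℤ × ℤ → Prop} {s t : St} (hs : valid m A s) (ht : valid m A t)
    (he : nxt A s = nxt A t) : s = t := by
  rcases s with ⟨p, h⟩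
  rcases t with ⟨q, g⟩
  unfold nxt at he
  rw [Prod.mk.injEq] at he
  obtain ⟨h1, h2⟩ := he
  rw [h2] at h1
  have hpq : p = q := add_right_cancel h1
  subst hpq
  rw [turn_inj hs ht h2]

/-- initial boundary steps: from the left or the top wall -/
def isI (m : ℕ) (s : St) : Prop := (s.2 = (false, false) ∧ s.1.1 = 0) ∨ (s.2 = (true, true) ∧ s.1.2 = m - 1)

/-- terminal boundary steps to the left or the top wall -/
def isT (m : ℕ) (s : St) : Prop := (s.2 = (false, true) ∧ s.1.1 = -1) ∨ (s.2 = (true, false) ∧ s.1.2 = m)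

/-- terminal boundary steps to the bottom or the right wall -/
def isE (m : ℕ) (s : St) : Prop := (s.2 = (false, false) ∧ s.1.1 = m) ∨ (s.2 = (true, true) ∧ s.1.2 = -1)

lemma nxt_not_isI {m : ℕ} {A : ℤ × ℤ → Prop} {s : St} (hi : inner m s.1) : ¬ isI m (nxt A s) := by
  unfold inner at hi
  rintro (⟨h1, h2⟩ | ⟨h1, h2⟩)
  · unfold nxt at h1 h2
    simp only at h1 h2
    rw [h1] at h2
    simp only [vec, Prod.fst_add] at h2
    omega
  · unfold nxt at h1 h2
    simp only at h1 h2
    rw [h1] at h2
    simp only [vec, Prod.snd_add] at h2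
    omega

lemma not_inner {m : ℕ} {A : ℤ × ℤ → Prop} {s : St} (hs : valid m A s) (hi : ¬ inner m s.1) : isT m s ∨ isE m s := by
  obtain ⟨_, _, h3, h4⟩ := hs
  rcases s with ⟨⟨x, y⟩, ⟨a, b⟩⟩
  unfold inner at hi
  simp only at hi
  cases a <;> cases b <;>
    simp only [VV, rc, lc, isT, isE, Prod.mk_add_mk, Prod.mk.injEq, Bool.false_eq_true, Bool.true_eq_false, and_true,
      and_false, false_and, true_and, or_false, false_or, and_self] at h3 h4 ⊢ <;> omega

open Classical in
/-- the finite set of boundary steps -/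
noncomputable def vs (m : ℕ) (A : ℤ × ℤ → Prop) : Finset St :=
  (((Finset.Icc (-1) (m : ℤ)) ×ˢ (Finset.Icc (-1) (m : ℤ))) ×ˢ Finset.univ).filter (valid m A)

open Classical in
lemma mem_vs {m : ℕ} {A : ℤ × ℤ → Prop} {s : St} : s ∈ vs m A ↔ valid m A s := by
  unfold vs
  rw [Finset.mem_filter]
  refine ⟨fun h => h.2, fun h => ⟨?_, h⟩⟩
  obtain ⟨_, _, h3, h4⟩ := h
  rcases s with ⟨⟨x, y⟩, ⟨a, b⟩⟩
  rw [Finset.mem_product, Finset.mem_product, Finset.mem_Icc, Finset.mem_Icc]
  refine ⟨?_, Finset.mem_univ _⟩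
  cases a <;> cases b <;> simp only [VV, rc, lc, Prod.mk_add_mk] at h3 h4 ⊢ <;> omega

open Classical in
lemma card_vs (m : ℕ) (A : ℤ × ℤ → Prop) : (vs m A).card ≤ 4 * (m + 2) ^ 2 := by
  unfold vs
  refine (Finset.card_le_card (Finset.filter_subset _ _)).trans ?_
  rw [Finset.card_product, Finset.card_product, Int.card_Icc]
  have : ((m : ℤ) + 1 - -1).toNat = m + 2 := by omega
  rw [this]
  simp
  ring_nf
  omega

/-! ### counting transitions along the wall -/

/-- sites along the left and the top wall -/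
def wc (m : ℕ) (t : ℕ) : ℤ × ℤ := if t ≤ m then (0, (t : ℤ)) else ((t : ℤ) - m, (m : ℤ))

lemma count_tr (f : ℕ → Prop) [DecidablePred f] (M : ℕ) :
    ((Finset.range M).filter fun t => f t ∧ ¬ f (t + 1)).card + (if f M then 1 else 0)
      = ((Finset.range M).filter fun t => ¬ f t ∧ f (t + 1)).card + (if f 0 then 1 else 0) := by
  induction M with
  | zero => simp
  | succ M ih =>
    rw [Finset.range_add_one, Finset.filter_insert, Finset.filter_insert]
    have hn1 : M ∉ (Finset.range M).filter fun t => f t ∧ ¬ f (t + 1) := by simp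
    have hn2 : M ∉ (Finset.range M).filter fun t => ¬ f t ∧ f (t + 1) := by simp
    by_cases h1 : f M <;> by_cases h2 : f (M + 1) <;>
      simp only [h1, h2, not_true, not_false_iff, and_true, and_false, and_self, if_true, if_false,
        Finset.card_insert_of_notMem hn1, Finset.card_insert_of_notMem hn2] at ih ⊢ <;> omega

/-- the initial step at the wall position `t` -/
def iS (m t : ℕ) : St := if t < m then ((0, (t : ℤ)), (false, false)) else (((t : ℤ) - m, (m : ℤ) - 1), (true, true))

/-- the terminal step at the wall position `t` -/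
def tS (m t : ℕ) : St := if t < m then ((-1, (t : ℤ)), (false, true)) else (((t : ℤ) - m, (m : ℤ)), (true, false))

open Classical in
lemma card_I {m : ℕ} {A : ℤ × ℤ → Prop} (h0 : A (0, 0)) (hm : ¬ A ((m : ℤ), (m : ℤ))) :
    ((vs m A).filter (isT m)).card < ((vs m A).filter (isI m)).card := by
  have hcount := count_tr (fun t => A (wc m t)) (2 * m)
  have hw0 : wc m 0 = (0, 0) := by simp [wc]
  have hw1 : wc m (2 * m) = ((m : ℤ), (m : ℤ)) := by
    unfold wc
    split_ifs with h
    · have : m = 0 := by omega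
      subst this; simp
    · simp; ring
  rw [hw0, hw1, if_neg hm, if_pos h0] at hcount
  have h1 : ((Finset.range (2 * m)).filter fun t => A (wc m t) ∧ ¬ A (wc m (t + 1))).card
      ≤ ((vs m A).filter (isI m)).card := by
    apply Finset.card_le_card_of_injOn (iS m)
    · intro t ht
      rw [Finset.mem_coe, Finset.mem_filter, Finset.mem_range] at ht
      obtain ⟨ht1, ht2, ht3⟩ := ht
      rw [Finset.mem_coe, Finset.mem_filter, mem_vs]
      by_cases htm : t < m
      · have e1 : wc m t = (0, (t : ℤ)) := by unfold wc; rw [if_pos (by omega)]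
        have e2 : wc m (t + 1) = (0, (t : ℤ) + 1) := by unfold wc; rw [if_pos (by omega)]; push_cast; rfl
        rw [e1] at ht2
        rw [e2] at ht3
        unfold iS
        rw [if_pos htm]
        refine ⟨⟨ht2, ?_, ?_, ?_⟩, Or.inl ⟨rfl, rfl⟩⟩
        · simpa [lc] using ht3
        · simp only [VV, rc]; omega
        · simp only [VV, lc, Prod.mk_add_mk]; omega
      · have e1 : wc m t = ((t : ℤ) - m, (m : ℤ)) := by
          unfold wc
          split_ifs with h
          · have : t = m := by omega
            subst this; simp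
          · rfl
        have e2 : wc m (t + 1) = ((t : ℤ) - m + 1, (m : ℤ)) := by
          unfold wc; rw [if_neg (by omega)]; push_cast
          rw [Prod.mk.injEq]; exact ⟨by ring, rfl⟩
        rw [e1] at ht2
        rw [e2] at ht3
        unfold iS
        rw [if_neg htm]
        refine ⟨⟨?_, ?_, ?_, ?_⟩, Or.inr ⟨rfl, rfl⟩⟩
        · simpa [rc] using ht2
        · simpa [lc] using ht3
        · simp only [VV, rc, Prod.mk_add_mk]; omega
        · simp only [VV, lc, Prod.mk_add_mk]; omega
    · intro t ht t' ht' he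
      unfold iS at he
      split_ifs at he with c1 c2 c2
      · simp only [Prod.mk.injEq, Nat.cast_inj, true_and, and_true] at he
        exact he
      · simp at he
      · simp at he
      · simp only [Prod.mk.injEq, and_true] at he
        omega
  have h2 : ((vs m A).filter (isT m)).card
      ≤ ((Finset.range (2 * m)).filter fun t => ¬ A (wc m t) ∧ A (wc m (t + 1))).card := by
    refine le_trans (Finset.card_le_card ?_) (Finset.card_image_le (f := tS m))
    intro s hs
    rw [Finset.mem_filter, mem_vs] at hs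
    obtain ⟨⟨v1, v2, v3, v4⟩, hT⟩ := hs
    rcases s with ⟨⟨x, y⟩, h⟩
    rw [Finset.mem_image]
    rcases hT with ⟨hT1, hT2⟩ | ⟨hT1, hT2⟩
    · simp only at hT1 hT2
      subst hT1 hT2
      simp only [VV, rc, lc, Prod.mk_add_mk] at v1 v2 v3 v4
      obtain ⟨t, rfl⟩ : ∃ t : ℕ, y = t := ⟨y.toNat, by omega⟩
      refine ⟨t, ?_, ?_⟩
      · rw [Finset.mem_filter, Finset.mem_range]
        have e1 : wc m t = (0, (t : ℤ)) := by unfold wc; rw [if_pos (by omega)]
        have e2 : wc m (t + 1) = (0, (t : ℤ) + 1) := by unfold wc; rw [if_pos (by omega)]; push_cast; rfl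
        rw [e1, e2]
        refine ⟨by omega, ?_, ?_⟩
        · simpa using v2
        · simpa using v1
      · unfold tS
        rw [if_pos (by omega)]
    · simp only at hT1 hT2
      subst hT1 hT2
      simp only [VV, rc, lc, Prod.mk_add_mk] at v1 v2 v3 v4
      obtain ⟨t, ht⟩ : ∃ t : ℕ, x = (t : ℤ) - m := ⟨(x + m).toNat, by omega⟩
      subst ht
      refine ⟨t, ?_, ?_⟩
      · rw [Finset.mem_filter, Finset.mem_range]
        have e1 : wc m t = ((t : ℤ) - m, (m : ℤ)) := by
          unfold wc
          split_ifs with h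
          · have : t = m := by omega
            subst this; simp
          · rfl
        have e2 : wc m (t + 1) = ((t : ℤ) - m + 1, (m : ℤ)) := by
          unfold wc; rw [if_neg (by omega)]; push_cast
          rw [Prod.mk.injEq]; exact ⟨by ring, rfl⟩
        rw [e1, e2]
        refine ⟨by omega, ?_, ?_⟩
        · simpa using v2
        · simpa using v1
      · unfold tS
        rw [if_neg (by omega)]
  omega

end FPPDir
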