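import Pool.Agent.Lib.MP_9b88e3_pr.Contour

/-!
Extraction of a contour, union bound, and the passage time in the diagonal direction.
-/

set_option autoImplicit false

open MeasureTheory ProbabilityTheory Filter Topology
open scoped ENNReal NNReal

namespace FPPDir

lemma prmono' {s t : Set (Edge → Bool)} (h : s ⊆ t) : (PP Edge).real s ≤ (PP Edge).real t :=
  measureReal_mono h (measure_ne_top _ _)

lemma iter_valid {m : ℕ} {A : ℤ × ℤ → Prop} {i : St} (hi : valid m A i) {k : ℕ}
    (hk : ∀ j < k, inner m ((nxt A)^[j] i).1) : ∀ j ≤ k, valid m A ((nxt A)^[j] i) := by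
  intro j
  induction j with
  | zero => intro _; exact hi
  | succ j ih =>
    intro hj
    rw [Function.iterate_succ_apply']
    exact nxt_valid (ih (by omega)) (hk j (by omega))

open Classical in
/-- **Existence of a contour** -/
lemma exists_contour {m : ℕ} {A : ℤ × ℤ → Prop} (h0 : A (0, 0)) (hm : ¬ A ((m : ℤ), (m : ℤ))) :
    ∃ (i : St) (k : ℕ), isI m i ∧ (∀ j ≤ k, valid m A ((nxt A)^[j] i)) ∧
      (List.iterate (nxt A) i (k + 1)).Nodup ∧ isE m ((nxt A)^[k] i) := by
  set P : St → St → ℕ → Prop := fun s i k => (∀ j < k, inner m ((nxt A)^[j] i).1) ∧ s = (nxt A)^[k] i with hP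
  set Y : Finset St := (vs m A).filter fun s => ∃ i, valid m A i ∧ isI m i ∧ ∃ k, P s i k with hY
  set I : Finset St := (vs m A).filter (isI m) with hI
  have hIY : I ⊆ Y := by
    intro s hs
    rw [hI, Finset.mem_filter] at hs
    rw [hY, Finset.mem_filter]
    refine ⟨hs.1, s, mem_vs.1 hs.1, hs.2, 0, fun j hj => by omega, rfl⟩
  have hcard : (Y.filter fun s => inner m s.1).card = (Y \ I).card := by
    apply Finset.card_bij (fun s _ => nxt A s)
    · intro s hs
      rw [Finset.mem_filter, hY, Finset.mem_filter, mem_vs] at hs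
      obtain ⟨⟨hs1, i, hi1, hi2, k, hk1, hk2⟩, hs3⟩ := hs
      rw [Finset.mem_sdiff, hY, Finset.mem_filter, mem_vs]
      refine ⟨⟨nxt_valid hs1 hs3, i, hi1, hi2, k + 1, ?_, ?_⟩, ?_⟩
      · intro j hj
        rcases Nat.lt_succ_iff_lt_or_eq.1 hj with h | h
        · exact hk1 j h
        · rw [h, ← hk2]; exact hs3
      · rw [Function.iterate_succ_apply', ← hk2]
      · rw [hI, Finset.mem_filter]
        intro h
        exact nxt_not_isI hs3 h.2
    · intro s hs t ht he
      rw [Finset.mem_filter, hY, Finset.mem_filter, mem_vs] at hs ht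
      exact nxt_inj hs.1.1 ht.1.1 he
    · intro t ht
      rw [Finset.mem_sdiff, hY, Finset.mem_filter, mem_vs] at ht
      obtain ⟨⟨ht1, i, hi1, hi2, k, hk1, hk2⟩, ht3⟩ := ht
      cases k with
      | zero =>
        exfalso
        apply ht3
        rw [hI, Finset.mem_filter, mem_vs]
        rw [Function.iterate_zero, id_eq] at hk2
        rw [hk2]
        exact ⟨hi1, hi2⟩
      | succ k =>
        have hv := iter_valid hi1 (k := k) (fun j hj => hk1 j (by omega)) k le_rfl
        refine ⟨(nxt A)^[k] i, ?_, ?_⟩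
        · rw [Finset.mem_filter, hY, Finset.mem_filter, mem_vs]
          exact ⟨⟨hv, i, hi1, hi2, k, fun j hj => hk1 j (by omega), rfl⟩, hk1 k (by omega)⟩
        · rw [← Function.iterate_succ_apply' (nxt A), ← hk2]
  have hsplit : (Y.filter fun s => inner m s.1).card + (Y.filter fun s => ¬ inner m s.1).card = Y.card :=
    Finset.card_filter_add_card_filter_not _
  have hsd : (Y \ I).card + I.card = Y.card := Finset.card_sdiff_add_card_eq_card hIY
  have hlt : ((vs m A).filter (isT m)).card < (Y.filter fun s => ¬ inner m s.1).card := by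
    have := card_I h0 hm
    rw [← hI] at this
    omega
  obtain ⟨s, hs1, hs2⟩ := Finset.exists_mem_notMem_of_card_lt_card hlt
  rw [Finset.mem_filter, hY, Finset.mem_filter, mem_vs] at hs1
  obtain ⟨⟨hsv, i, hi1, hi2, hex⟩, hs3⟩ := hs1
  rw [Finset.mem_filter, mem_vs, not_and] at hs2
  have hE : isE m s := by
    rcases not_inner hsv hs3 with h | h
    · exact absurd h (hs2 hsv)
    · exact h
  obtain ⟨hk1, hk2⟩ := Nat.find_spec hex
  set k := Nat.find hex with hk
  have hmin : ∀ k' < k, ¬ P s i k' := fun k' hk' => Nat.find_min hex hk'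
  refine ⟨i, k, hi2, iter_valid hi1 hk1, ?_, by rw [← hk2]; exact hE⟩
  rw [← List.range_map_iterate]
  apply List.Nodup.map_on _ List.nodup_range
  have key : ∀ x y : ℕ, x < y → y ≤ k → (nxt A)^[x] i ≠ (nxt A)^[y] i := by
    intro x y hxy hy he
    apply hmin (k - (y - x)) (by omega)
    refine ⟨fun j hj => hk1 j (by omega), ?_⟩
    have e1 : k - (y - x) = (k - y) + x := by omega
    rw [e1, Function.iterate_add_apply, he, ← Function.iterate_add_apply, Nat.sub_add_cancel hy]
    exact hk2
  intro x hx y hy he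
  rw [List.mem_range] at hx hy
  rcases lt_trichotomy x y with h | h | h
  · exact absurd he (key x y h (by omega))
  · exact h
  · exact absurd he.symm (key y x h (by omega))

/-- successive dual steps of a word -/
def sts : ℤ × ℤ → List Step → List St
  | _, [] => []
  | d, h :: l => (d + vec h, h) :: sts (d + vec h) l

lemma sts_iterate (A : ℤ × ℤ → Prop) (n : ℕ) : ∀ i : St,
    sts (i.1 - vec i.2) ((List.iterate (nxt A) i n).map Prod.snd) = List.iterate (nxt A) i n := by
  induction n with
  | zero => intro i; rfl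
  | succ n ih =>
    intro i
    simp only [List.iterate, List.map_cons, sts, sub_add_cancel]
    congr 1
    have := ih (nxt A i)
    have e : (nxt A i).1 - vec (nxt A i).2 = i.1 := by unfold nxt; simp
    rw [e] at this
    exact this

lemma endPt_iterate (A : ℤ × ℤ → Prop) (n : ℕ) : ∀ i : St,
    endPt (i.1 - vec i.2) ((List.iterate (nxt A) i (n + 1)).map Prod.snd) = ((nxt A)^[n] i).1 := by
  induction n with
  | zero => intro i; simp [List.iterate, endPt]
  | succ n ih =>
    intro i
    have h1 : List.iterate (nxt A) i (n + 1 + 1) = i :: List.iterate (nxt A) (nxt A i) (n + 1) := rfl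
    rw [h1, List.map_cons]
    simp only [endPt, sub_add_cancel]
    have := ih (nxt A i)
    have e : (nxt A i).1 - vec (nxt A i).2 = i.1 := by unfold nxt; simp
    rw [e] at this
    rw [this, Function.iterate_succ_apply]

/-- east or south -/
def es (h : Step) : Bool := h.1 == h.2

lemma val_endPt (d : ℤ × ℤ) (w : List Step) :
    (endPt d w).1 - (endPt d w).2 = d.1 - d.2 + 2 * (w.countP es : ℤ) - (w.length : ℤ) := by
  induction w generalizing d with
  | nil => simp [endPt]
  | cons h w ih =>
    simp only [endPt]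
    rw [ih, List.countP_cons, List.length_cons]
    rcases h with ⟨a, b⟩
    cases a <;> cases b <;> simp [vec, es] <;> ring

/-- lattice edge crossed by a dual step to the east or to the south -/
def ce (s : St) : Edge := (rc s, !s.2.1)

/-- edges crossed by the steps to the east or to the south -/
def ESl (d : ℤ × ℤ) (w : List Step) : List Edge := ((sts d w).filter fun s => es s.2).map ce

lemma ESl_length (d : ℤ × ℤ) (w : List Step) : (ESl d w).length = w.countP es := by
  unfold ESl
  rw [List.length_map]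
  induction w generalizing d with
  | nil => rfl
  | cons h w ih =>
    simp only [sts, List.filter_cons, List.countP_cons]
    by_cases hh : es h = true
    · simp [hh, ih]
    · simp [hh, ih]

lemma ESl_nodup {d : ℤ × ℤ} {w : List Step} (h : (sts d w).Nodup) : (ESl d w).Nodup := by
  unfold ESl
  apply List.Nodup.map_on _ (h.filter _)
  intro x hx y hy he
  rw [List.mem_filter] at hx hy
  have h1 := hx.2
  have h2 := hy.2
  rcases x with ⟨⟨x1, x2⟩, ⟨a, b⟩⟩
  rcases y with ⟨⟨y1, y2⟩, ⟨a', b'⟩⟩
  cases a <;> cases b <;> cases a' <;> cases b' <;> simp_all [es, ce, rc]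

/-- tails of the initial steps -/
def DD (m : ℕ) : Finset (ℤ × ℤ) :=
  (Finset.range m).image (fun t : ℕ => ((-1 : ℤ), (t : ℤ))) ∪ (Finset.range m).image (fun t : ℕ => ((t : ℤ), (m : ℤ)))

lemma card_DD (m : ℕ) : (DD m).card ≤ 2 * m := by
  unfold DD
  refine (Finset.card_union_le _ _).trans ?_
  have h1 := Finset.card_image_le (s := Finset.range m) (f := fun t : ℕ => ((-1 : ℤ), (t : ℤ)))
  have h2 := Finset.card_image_le (s := Finset.range m) (f := fun t : ℕ => ((t : ℤ), (m : ℤ)))
  rw [Finset.card_range] at h1 h2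
  omega

/-- bad event: a long contour -/
def badD (m c : ℕ) : Set (Edge → Bool) :=
  {b | ∃ d ∈ DD m, ∃ w : List Step, 2 * c ≤ w.length ∧ w.length < 4 * (m + 2) ^ 2 + 1 ∧ w.length ≤ 2 * w.countP es ∧
    (ESl d w).Nodup ∧ ∀ e ∈ ESl d w, b e = true}

lemma prob_badD (m c : ℕ) : (PP Edge).real (badD m c) ≤ 2 * m * ((2 / 5) ^ (2 * c) * (5 / 3)) := by
  classical
  set M := 4 * (m + 2) ^ 2 + 1 with hM
  -- fixed word length and starting point
  have hfix : ∀ (d : ℤ × ℤ) (L : ℕ), (PP Edge).real {b | ∃ w : List Step, w.length = L ∧ L ≤ 2 * w.countP es ∧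
      (ESl d w).Nodup ∧ ∀ e ∈ ESl d w, b e = true} ≤ (2 / 5) ^ L := by
    intro d L
    set F : Finset (Fin L → Step) := Finset.univ.filter fun f =>
      (ESl d (List.ofFn f)).Nodup ∧ L ≤ 2 * (List.ofFn f).countP es with hF
    have h1 : {b : Edge → Bool | ∃ w : List Step, w.length = L ∧ L ≤ 2 * w.countP es ∧
        (ESl d w).Nodup ∧ ∀ e ∈ ESl d w, b e = true}
        ⊆ ⋃ f ∈ F, {b | ∀ e ∈ (ESl d (List.ofFn f)).toFinset, b e = true} := by
      rintro b ⟨w, hl, hc, hn, hs⟩
      simp only [Set.mem_iUnion]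
      subst hl
      refine ⟨w.get, ?_, ?_⟩
      · rw [hF, Finset.mem_filter, List.ofFn_get]
        exact ⟨Finset.mem_univ _, hn, hc⟩
      · rw [List.ofFn_get]
        intro e he
        exact hs e (by simpa using he)
    refine (prmono' h1).trans ((measureReal_biUnion_finset_le _ _).trans ?_)
    have h2 : ∀ f ∈ F, (PP Edge).real {b | ∀ e ∈ (ESl d (List.ofFn f)).toFinset, b e = true} ≤ (1 / 10) ^ L := by
      intro f hf
      rw [hF, Finset.mem_filter] at hf
      rw [prob_all_slow, List.toFinset_card_of_nodup hf.2.1, ESl_length]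
      have h3 : pb = (1 / 10) ^ 2 := by unfold pb; norm_num
      rw [h3, ← pow_mul]
      exact pow_le_pow_of_le_one (by norm_num) (by norm_num) hf.2.2
    refine (Finset.sum_le_card_nsmul _ _ _ h2).trans ?_
    rw [nsmul_eq_mul]
    have h3 : (F.card : ℝ) ≤ 4 ^ L := by
      have h4 : F.card ≤ 4 ^ L := by
        refine (Finset.card_le_univ _).trans_eq ?_
        simp
      exact_mod_cast h4
    calc (F.card : ℝ) * (1 / 10) ^ L ≤ 4 ^ L * (1 / 10) ^ L := mul_le_mul_of_nonneg_right h3 (by positivity)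
      _ = (2 / 5) ^ L := by rw [← mul_pow]; norm_num
  have h1 : badD m c ⊆ ⋃ d ∈ DD m, ⋃ L ∈ Finset.Ico (2 * c) M, {b | ∃ w : List Step, w.length = L ∧ L ≤ 2 * w.countP es ∧
      (ESl d w).Nodup ∧ ∀ e ∈ ESl d w, b e = true} := by
    rintro b ⟨d, hd, w, h2, h3, h4, h5, h6⟩
    simp only [Set.mem_iUnion]
    exact ⟨d, hd, w.length, Finset.mem_Ico.2 ⟨h2, h3⟩, w, rfl, h4, h5, h6⟩
  refine (prmono' h1).trans ((measureReal_biUnion_finset_le _ _).trans ?_)
  have h2 : ∀ d ∈ DD m, (PP Edge).real (⋃ L ∈ Finset.Ico (2 * c) M, {b : Edge → Bool | ∃ w : List Step, w.length = L ∧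
      L ≤ 2 * w.countP es ∧ (ESl d w).Nodup ∧ ∀ e ∈ ESl d w, b e = true}) ≤ (2 / 5) ^ (2 * c) * (5 / 3) := by
    intro d _
    refine (measureReal_biUnion_finset_le _ _).trans ?_
    refine (Finset.sum_le_sum fun L _ => hfix d L).trans ?_
    refine (geom_sum_Ico_le_of_lt_one (by norm_num) (by norm_num)).trans_eq ?_
    ring
  refine (Finset.sum_le_card_nsmul _ _ _ h2).trans ?_
  rw [nsmul_eq_mul]
  apply mul_le_mul_of_nonneg_right _ (by positivity)
  exact_mod_cast card_DD m

end FPPDir
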