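import Mathlib

/-!
# First-passage percolation on the square lattice: definitions

The lattice is `ℤ × ℤ`; a nearest-neighbour edge is a pair `(z, v)`: `(z, false)` is the edge
between `z` and `z + (1, 0)`, `(z, true)` is the edge between `z` and `z + (0, 1)`.
-/

set_option autoImplicit false

open MeasureTheory ProbabilityTheory Filter Topology
open scoped ENNReal NNReal

namespace FPPDir

/-- nearest-neighbour edges of `ℤ²` -/
abbrev Edge : Type := (ℤ × ℤ) × Bool

/-- A unit step: the first component says whether it is vertical, the second one whether it goes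
backwards (left or down). -/
abbrev Step : Type := Bool × Bool

/-- displacement of a step -/
def vec : Step → ℤ × ℤ
  | (false, false) => (1, 0)
  | (false, true) => (-1, 0)
  | (true, false) => (0, 1)
  | (true, true) => (0, -1)

/-- the edge used by the step `s` made from the site `z` -/
def stepEdge (z : ℤ × ℤ) (s : Step) : Edge :=
  if s.2 then (z + vec s, s.1) else (z, s.1)

/-- end point of the lattice path which starts at `u` and makes the steps in `l` -/
def endPt (u : ℤ × ℤ) : List Step → ℤ × ℤ
  | [] => u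
  | s :: l => endPt (u + vec s) l

/-- edges used by the lattice path which starts at `u` and makes the steps in `l` (in order, with
repetitions) -/
def edgs (u : ℤ × ℤ) : List Step → List Edge
  | [] => []
  | s :: l => stepEdge u s :: edgs (u + vec s) l

/-- passage time of the lattice path which starts at `u` and makes the steps in `l` -/
noncomputable def cost (τ : Edge → ℝ) (u : ℤ × ℤ) (l : List Step) : ℝ := ((edgs u l).map τ).sum

/-- passage time `T(u,v)`: infimum of the passage times of the lattice paths from `u` to `v` -/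
noncomputable def T (τ : Edge → ℝ) (u v : ℤ × ℤ) : ℝ :=
  ⨅ l : {l : List Step // endPt u l = v}, cost τ u l

/-- a lattice point as a point of the plane `ℝ² = ℂ` -/
noncomputable def pt (z : ℤ × ℤ) : ℂ := ⟨z.1, z.2⟩

/-- `r` sends every point of the plane to a nearest lattice point (with some rule for ties) -/
def IsNearest (r : ℂ → ℤ × ℤ) : Prop := ∀ (x : ℂ) (z : ℤ × ℤ), ‖x - pt (r x)‖ ≤ ‖x - pt z‖

/-- Bernoulli bond percolation on the square lattice: every edge is open (`true`) with
probability `p`, independently of the others -/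
noncomputable def perc (p : ℝ) : Measure (Edge → Bool) :=
  Measure.infinitePi fun _ =>
    ENNReal.ofReal p • Measure.dirac true + ENNReal.ofReal (1 - p) • Measure.dirac false

/-- the open cluster of the origin -/
def cluster (ω : Edge → Bool) : Set (ℤ × ℤ) :=
  {z | ∃ l : List Step, endPt 0 l = z ∧ ∀ e ∈ edgs 0 l, ω e = true}

/-- the critical probability `p_c(2)` of bond percolation on the square lattice -/
noncomputable def pc : ℝ :=
  sSup {p : ℝ | 0 ≤ p ∧ p ≤ 1 ∧ ∀ᵐ ω ∂(perc p), (cluster ω).Finite}

/-- the law of i.i.d. edge passage times with common law `F` -/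
noncomputable def law (F : Measure ℝ) : Measure (Edge → ℝ) := Measure.infinitePi fun _ => F

/-- `μ` is the time constant in the direction `x`: `T(0, n x)/n → μ` almost surely -/
def IsTimeConstant (F : Measure ℝ) (r : ℂ → ℤ × ℤ) (x : ℂ) (μ : ℝ) : Prop :=
  ∀ᵐ τ ∂(law F), Tendsto (fun n : ℝ => T τ 0 (r ((n : ℂ) * x)) / n) atTop (𝓝 μ)

/-- the exponents `κ` such that almost surely, for all large `t`: `T(0, n x) ≤ t` whenever
`0 ≤ n ≤ μ⁻¹ (t - t^κ)`, and `T(0, n x) ≥ t` whenever `n ≥ μ⁻¹ (t + t^κ)` (`n` real) -/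
def GoodExponent (F : Measure ℝ) (r : ℂ → ℤ × ℤ) (x : ℂ) (μ κ : ℝ) : Prop :=
  ∀ᵐ τ ∂(law F), ∀ᶠ t : ℝ in atTop,
    (∀ n : ℝ, 0 ≤ n → n ≤ μ⁻¹ * (t - t ^ κ) → T τ 0 (r ((n : ℂ) * x)) ≤ t) ∧
    (∀ n : ℝ, 0 ≤ n → μ⁻¹ * (t + t ^ κ) ≤ n → t ≤ T τ 0 (r ((n : ℂ) * x)))

/-- the directional almost-sure longitudinal fluctuation exponent `χ₁(x)`, in `[-∞, ∞]` -/
noncomputable def chi1 (F : Measure ℝ) (r : ℂ → ℤ × ℤ) (x : ℂ) (μ : ℝ) : EReal :=
  sInf {c : EReal | ∃ κ : ℝ, c = (κ : EReal) ∧ GoodExponent F r x μ κ}

end FPPDir
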