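import Pool.Agent.Lib.MP_9b88e3_pr.Contour2

/-!
Passage times in the diagonal direction.
-/

set_option autoImplicit false

open MeasureTheory ProbabilityTheory Filter Topology
open scoped ENNReal NNReal

namespace FPPDir

lemma TB_self (b : Edge → Bool) (z : ℤ × ℤ) : TB b z z = 0 := by
  have h2 := T_le_l1 (env_ge b) (env_le' b) z z
  have h3 := T_nonneg (env_ge b) z z
  rw [sub_self] at h2
  unfold TB
  simp [l1] at h2
  linarith

lemma l1_nonneg_eq {z : ℤ × ℤ} (h1 : 0 ≤ z.1) (h2 : 0 ≤ z.2) : (l1 z : ℝ) = (z.1 : ℝ) + z.2 := by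
  rw [l1_real, abs_of_nonneg (by exact_mod_cast h1), abs_of_nonneg (by exact_mod_cast h2)]

/-- a fast edge crossed to the east or to the south propagates the cluster -/
lemma ce_step (s : St) (hs : es s.2 = true) : ∃ h : Step, rc s + vec h = lc s ∧ stepEdge (rc s) h = ce s ∧
    ((lc s).1 : ℝ) + (lc s).2 = (rc s).1 + (rc s).2 + 1 := by
  rcases s with ⟨⟨x, y⟩, ⟨a, b⟩⟩
  cases a <;> cases b
  · refine ⟨(true, false), ?_, ?_, ?_⟩
    · simp [rc, lc, vec]
    · simp [rc, ce, stepEdge]
    · simp [rc, lc]; ring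
  · simp [es] at hs
  · simp [es] at hs
  · refine ⟨(false, false), ?_, ?_, ?_⟩
    · simp [rc, lc, vec]
    · simp [rc, ce, stepEdge]
    · simp [rc, lc]; ring

lemma T_single {b : Edge → Bool} {z : ℤ × ℤ} {h : Step} (hf : b (stepEdge z h) = false) :
    TB b z (z + vec h) ≤ 1 := by
  have h1 := T_le (env_ge b) (u := z) (v := z + vec h) (l := [h]) rfl
  refine h1.trans ?_
  rw [cost_cons, cost_nil]
  unfold env bi
  simp [hf]

/-- **Without long contours the diagonal passage time is almost minimal.** -/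
lemma diag_le {b : Edge → Bool} {m c : ℕ} (hb : b ∉ badD m c) :
    TB b 0 ((m : ℤ), (m : ℤ)) ≤ 2 * m + 4 * c := by
  set A : ℤ × ℤ → Prop := fun z => VV m z ∧ ∃ u : ℤ × ℤ, VV m u ∧ u.1 + u.2 ≤ c ∧
    TB b u z ≤ ((z.1 : ℝ) + z.2) - ((u.1 : ℝ) + u.2) with hA
  have hbase : ∀ z : ℤ × ℤ, VV m z → z.1 + z.2 ≤ c → A z := by
    intro z hz hzc
    refine ⟨hz, z, hz, hzc, ?_⟩
    rw [TB_self]
    linarith
  by_cases hex : ∃ z, A z ∧ 2 * (m : ℤ) - c ≤ z.1 + z.2
  · obtain ⟨z, ⟨hz, u, hu, huc, hT⟩, hzc⟩ := hex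
    have t1 := T_tri (env_ge b) 0 u ((m : ℤ), (m : ℤ))
    have t2 := T_tri (env_ge b) u z ((m : ℤ), (m : ℤ))
    have t3 := T_le_l1 (env_ge b) (env_le' b) 0 u
    have t4 := T_le_l1 (env_ge b) (env_le' b) z ((m : ℤ), (m : ℤ))
    rw [sub_zero, l1_nonneg_eq hu.1 hu.2.2.1] at t3
    rw [l1_nonneg_eq (z := ((m : ℤ), (m : ℤ)) - z) (by simp only [Prod.fst_sub]; have := hz.2.1; omega)
      (by simp only [Prod.snd_sub]; have := hz.2.2.2; omega)] at t4
    simp only [Prod.fst_sub, Prod.snd_sub] at t4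
    push_cast at t4
    have e1 : (u.1 : ℝ) + u.2 ≤ c := by exact_mod_cast huc
    have e2 : 2 * (m : ℝ) - c ≤ (z.1 : ℝ) + z.2 := by exact_mod_cast hzc
    have e3 : (z.1 : ℝ) ≤ m := by exact_mod_cast hz.2.1
    have e4 : (z.2 : ℝ) ≤ m := by exact_mod_cast hz.2.2.2
    have e5 : (0 : ℝ) ≤ u.1 := by exact_mod_cast hu.1
    have e6 : (0 : ℝ) ≤ u.2 := by exact_mod_cast hu.2.2.1
    unfold TB at *
    linarith
  · exfalso
    push Not at hex
    apply hb
    have h0 : A (0, 0) := hbase (0, 0) (by simp only [VV]; omega) (by simp)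
    have hm : ¬ A ((m : ℤ), (m : ℤ)) := by
      intro h
      have := hex _ h
      simp only at this
      omega
    obtain ⟨i, k, hI, hv, hnd, hE⟩ := exists_contour h0 hm
    set p := ((nxt A)^[k] i) with hp
    have hvi : valid m A i := hv 0 (by omega)
    have hvp : valid m A p := hv k le_rfl
    have hstart : (i.1 - vec i.2) ∈ DD m ∧ (i.1 - vec i.2).1 - (i.1 - vec i.2).2 ≤ -1 - (c : ℤ) := by
      obtain ⟨v1, v2, v3, v4⟩ := hvi
      rcases i with ⟨⟨x, y⟩, h⟩
      rcases hI with ⟨g1, g2⟩ | ⟨g1, g2⟩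
      · simp only at g1 g2
        subst g1 g2
        simp only [VV, rc, lc, Prod.mk_add_mk] at v2 v3 v4
        have hc : (c : ℤ) < y + 1 := by
          by_contra hcon
          exact v2 (hbase _ (by simp only [VV]; omega) (by simp only; omega))
        simp only [vec, Prod.mk_sub_mk]
        refine ⟨?_, by omega⟩
        unfold DD
        rw [Finset.mem_union]
        left
        rw [Finset.mem_image]
        refine ⟨y.toNat, by rw [Finset.mem_range]; omega, ?_⟩
        rw [Prod.mk.injEq]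
        omega
      · simp only at g1 g2
        subst g1 g2
        simp only [VV, rc, lc, Prod.mk_add_mk] at v1 v3 v4
        have hc := hex _ v1
        simp only at hc
        simp only [vec, Prod.mk_sub_mk]
        refine ⟨?_, by omega⟩
        unfold DD
        rw [Finset.mem_union]
        right
        rw [Finset.mem_image]
        refine ⟨x.toNat, by rw [Finset.mem_range]; omega, ?_⟩
        rw [Prod.mk.injEq]
        omega
    have hend : (c : ℤ) + 1 ≤ p.1.1 - p.1.2 := by
      obtain ⟨v1, v2, v3, v4⟩ := hvp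
      rcases hE with ⟨g1, g2⟩ | ⟨g1, g2⟩
      · have e1 : rc p = p.1 := by unfold rc; rw [g1]
        have hc := hex _ v1
        rw [e1] at hc
        omega
      · have e1 : lc p = p.1 + (1, 1) := by unfold lc; rw [g1]
        rw [e1] at v2 v4
        simp only [VV, Prod.fst_add, Prod.snd_add] at v4
        have hc : (c : ℤ) < p.1.1 + 1 := by
          by_contra hcon
          exact v2 (hbase _ (by simp only [VV, Prod.fst_add, Prod.snd_add]; omega) (by simp only [Prod.fst_add, Prod.snd_add]; omega))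
        omega
    set w := (List.iterate (nxt A) i (k + 1)).map Prod.snd with hw
    have hlen : w.length = k + 1 := by rw [hw, List.length_map, List.length_iterate]
    have hsts : sts (i.1 - vec i.2) w = List.iterate (nxt A) i (k + 1) := sts_iterate A (k + 1) i
    have hendw : endPt (i.1 - vec i.2) w = p.1 := endPt_iterate A k i
    have hval := val_endPt (i.1 - vec i.2) w
    rw [hendw] at hval
    have hcnt : w.countP es ≤ w.length := List.countP_le_length
    refine ⟨i.1 - vec i.2, hstart.1, w, ?_, ?_, ?_, ?_, ?_⟩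
    · have := hstart.2
      omega
    · have h1 : (List.iterate (nxt A) i (k + 1)).toFinset ⊆ vs m A := by
        intro s hs
        rw [List.mem_toFinset, List.mem_iterate] at hs
        obtain ⟨j, hj, rfl⟩ := hs
        exact mem_vs.2 (hv j (by omega))
      have h2 := Finset.card_le_card h1
      rw [List.toFinset_card_of_nodup hnd, List.length_iterate] at h2
      have h3 := card_vs m A
      omega
    · have := hstart.2
      omega
    · apply ESl_nodup
      rw [hsts]
      exact hnd
    · intro e he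
      unfold ESl at he
      rw [hsts, List.mem_map] at he
      obtain ⟨s, hs, rfl⟩ := he
      rw [List.mem_filter, List.mem_iterate] at hs
      obtain ⟨⟨j, hj, rfl⟩, hes⟩ := hs
      have hvj := hv j (by omega)
      set s := (nxt A)^[j] i with hsdef
      by_contra hcon
      have hcon' : b (ce s) = false := by simpa using hcon
      obtain ⟨h, g1, g2, g3⟩ := ce_step s (by simpa using hes)
      obtain ⟨⟨v1, u, hu, huc, hT⟩, v2, v3, v4⟩ := hvj
      apply v2
      refine ⟨v4, u, hu, huc, ?_⟩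
      have h5 : TB b (rc s) (lc s) ≤ 1 := by
        rw [← g1]
        exact T_single (by rw [g2]; exact hcon')
      have h6 := T_tri (env_ge b) u (rc s) (lc s)
      unfold TB at *
      rw [g3]
      linarith

lemma as_diag : ∀ᵐ b ∂(PP Edge), ∀ᶠ m : ℕ in atTop,
    TB b 0 ((m : ℤ), (m : ℤ)) ≤ 2 * m + 8 * ((Nat.log 2 m : ℝ) + 1) := by
  have hs : Summable fun m : ℕ => 4 * (1 / (m : ℝ) ^ 2) :=
    (Real.summable_one_div_nat_pow.2 (by norm_num)).mul_left _
  have h := bc (μ := PP Edge) (s := fun m : ℕ => badD m (2 * (Nat.log 2 m + 1))) _ hs 1 ?_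
  · filter_upwards [h] with b hb
    filter_upwards [hb] with m hm
    have := diag_le hm
    push_cast at this
    linarith
  · intro m hm
    refine (prob_badD m _).trans ?_
    have hm' : (1 : ℝ) ≤ m := by exact_mod_cast hm
    set q := Nat.log 2 m + 1 with hq
    have h1 : m < 2 ^ q := Nat.lt_pow_succ_log_self (by norm_num) m
    have h2 : (m : ℝ) ≤ 2 ^ q := by exact_mod_cast h1.le
    have h3 : ((2 : ℝ) / 5) ^ (2 * (2 * q)) ≤ 1 / (m : ℝ) ^ 5 := by
      have e1 : ((2 : ℝ) / 5) ^ (2 * (2 * q)) = (16 / 625) ^ q := by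
        rw [← mul_assoc, pow_mul]
        norm_num
      have e2 : ((16 : ℝ) / 625) ^ q ≤ (1 / 32) ^ q := pow_le_pow_left₀ (by norm_num) (by norm_num) q
      have e3 : ((1 : ℝ) / 32) ^ q = 1 / (2 ^ q) ^ 5 := by
        rw [← pow_mul, mul_comm q 5, pow_mul, div_pow, one_pow]
        norm_num
      rw [e1]
      refine e2.trans ?_
      rw [e3]
      exact one_div_le_one_div_of_le (by positivity) (pow_le_pow_left₀ (by positivity) h2 5)
    calc 2 * (m : ℝ) * ((2 / 5) ^ (2 * (2 * q)) * (5 / 3)) ≤ 2 * m * (1 / (m : ℝ) ^ 5 * (5 / 3)) := by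
          apply mul_le_mul_of_nonneg_left _ (by positivity)
          exact mul_le_mul_of_nonneg_right h3 (by norm_num)
      _ = (10 / 3) * (1 / (m : ℝ) ^ 4) := by field_simp; ring
      _ ≤ 4 * (1 / (m : ℝ) ^ 2) := by
          have e1 : 1 / (m : ℝ) ^ 4 ≤ 1 / (m : ℝ) ^ 2 :=
            one_div_le_one_div_of_le (by positivity) (pow_le_pow_right₀ hm' (by norm_num))
          have e2 : 0 ≤ 1 / (m : ℝ) ^ 2 := by positivity
          nlinarith

end FPPDir
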