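import Pool.Agent.Lib.MP_9b88e3_pr.Lower

/-!
In the extremal direction no exponent below `1/20` is possible.
-/

set_option autoImplicit false

open MeasureTheory ProbabilityTheory Filter Topology
open scoped ENNReal NNReal

namespace FPPDir

theorem no_small {y : ℂ} (hy : ‖y‖ = 1) (hmin : ∀ x : ℂ, G y * ‖x‖ ≤ G x) {r : ℂ → ℤ × ℤ} (hr : IsNearest r)
    {κ : ℝ} (h0 : 0 < κ) (h1 : κ < 1 / 20)
    (hA : ∀ᵐ b ∂(PP Edge), ∀ᶠ n : ℝ in atTop, |TB b 0 (r ((n : ℂ) * y)) - G y * n| ≤ (3 * n) ^ κ) : False := by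
  -- bounds on the time constant
  have hG2 : G y ≤ 10001 / 10000 := by
    have h2 := hmin 1
    have h3 := G_one_le
    rw [norm_one, mul_one] at h2
    unfold hh pb at h3
    linarith
  have hsum : |y.re| + |y.im| ≤ 10001 / 10000 := (le_G y).trans hG2
  have hG1 : 1 ≤ G y := by
    have := Complex.norm_le_abs_re_add_abs_im y
    rw [hy] at this
    exact this.trans (le_G y)
  obtain ⟨s₀, hs₀⟩ := exists_main hy hsum
  set k : ℕ → ℕ := fun K => 10 * K with hk
  set n : ℕ → ℝ := fun K => (k K : ℝ) ^ 20 with hn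
  set N : ℕ → ℕ := fun K => 10 ^ 16 * K ^ 20 with hN
  set ρ : ℕ → ℝ := fun K => (3 * n K) ^ κ with hρ
  set v : ℕ → ℤ × ℤ := fun K => r ((n K : ℂ) * y) with hv
  have hkt : Tendsto k atTop atTop := by
    apply tendsto_id.const_mul_atTop' (by norm_num : 0 < 10)
  have hktr : Tendsto (fun K => (k K : ℝ)) atTop atTop := tendsto_natCast_atTop_atTop.comp hkt
  have hnt : Tendsto n atTop atTop := (tendsto_pow_atTop (by norm_num)).comp hktr
  have hNt : Tendsto N atTop atTop := by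
    apply Tendsto.const_mul_atTop' (by norm_num)
    exact tendsto_pow_atTop (by norm_num)
  -- the three error probabilities
  have eA : Tendsto (fun K => (PP Edge).real {b | ¬ |TB b 0 (v K) - G y * n K| ≤ ρ K}) atTop (𝓝 0) := by
    have hm : ∀ K, MeasurableSet {b | ¬ |TB b 0 (v K) - G y * n K| ≤ ρ K} := by
      intro K
      have : Measurable fun b => |TB b 0 (v K) - G y * n K| := ((TB_measurable 0 (v K)).sub_const _).abs
      exact (measurableSet_le this measurable_const).compl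
    have h := tendsto_measure_of_ae_tendsto_indicator_of_isFiniteMeasure (μ := PP Edge) atTop
      (A := (∅ : Set (Edge → Bool))) (As := fun K => {b | ¬ |TB b 0 (v K) - G y * n K| ≤ ρ K})
      MeasurableSet.empty hm ?_
    · rw [measure_empty] at h
      have h2 := (ENNReal.tendsto_toReal ENNReal.zero_ne_top).comp h
      simpa [Measure.real, Function.comp_def] using h2
    · filter_upwards [hA] with b hb
      filter_upwards [hnt.eventually hb] with K hK
      simp only [Set.mem_empty_iff_false, iff_false, not_not]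
      exact hK
  have eC : Tendsto (fun K => (735 : ℝ) / (k K : ℝ) ^ 4) atTop (𝓝 0) :=
    tendsto_const_nhds.div_atTop ((tendsto_pow_atTop (by norm_num)).comp hktr)
  have eB : Tendsto (fun K => (3 * (N K : ℝ) + 1) * (1 / 2) ^ (N K)) atTop (𝓝 0) := by
    have h2 : Tendsto (fun m : ℕ => (3 * (m : ℝ) + 1) * (1 / 2) ^ m) atTop (𝓝 0) := by
      have a1 : Tendsto (fun m : ℕ => (m : ℝ) * (1 / 2) ^ m) atTop (𝓝 0) :=
        tendsto_self_mul_const_pow_of_lt_one (by norm_num) (by norm_num)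
      have a2 : Tendsto (fun m : ℕ => ((1 : ℝ) / 2) ^ m) atTop (𝓝 0) :=
        tendsto_pow_atTop_nhds_zero_of_lt_one (by norm_num) (by norm_num)
      have a3 := (a1.const_mul 3).add a2
      rw [mul_zero, zero_add] at a3
      refine a3.congr fun m => ?_
      ring
    exact h2.comp hNt
  -- growth
  have hgr : Tendsto (fun K => (k K : ℝ) ^ (1 - 20 * κ)) atTop atTop :=
    (tendsto_rpow_atTop (by linarith)).comp hktr
  have hev := ((eA.eventually (gt_mem_nhds (show (0 : ℝ) < 1 / 6 by norm_num))).and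
    ((eC.eventually (gt_mem_nhds (show (0 : ℝ) < 1 / 6 by norm_num))).and
    ((eB.eventually (gt_mem_nhds (show (0 : ℝ) < 1 / 6 by norm_num))).and
    ((hgr.eventually (eventually_gt_atTop (10 ^ 11 : ℝ))).and (hkt.eventually (eventually_ge_atTop 10))))))
  obtain ⟨K, qA, qC, qB, qg, qk⟩ := hev.exists
  have hk1 : 1 ≤ k K := by omega
  have hk10 : (10 : ℝ) ≤ k K := by exact_mod_cast qk
  have hk0 : (0 : ℝ) < k K := by linarith
  have hNk : (k K) ^ 20 = 10 ^ 4 * N K := by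
    simp only [hk, hN]
    rw [mul_pow]
    ring
  have hNr : (k K : ℝ) ^ 20 = 10 ^ 4 * N K := by exact_mod_cast hNk
  have hρle : ρ K ≤ 3 * (k K : ℝ) ^ (20 * κ) := by
    simp only [hρ, hn]
    rw [Real.mul_rpow (by norm_num) (by positivity), ← Real.rpow_natCast, ← Real.rpow_mul hk0.le]
    have h3 : (3 : ℝ) ^ κ ≤ 3 := by
      calc (3 : ℝ) ^ κ ≤ 3 ^ (1 : ℝ) := Real.rpow_le_rpow_of_exponent_le (by norm_num) (by linarith)
        _ = 3 := Real.rpow_one 3
    push_cast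
    exact mul_le_mul_of_nonneg_right h3 (by positivity)
  have hρle2 : ρ K ≤ 3 * k K := by
    refine hρle.trans ?_
    apply mul_le_mul_of_nonneg_left _ (by norm_num)
    calc (k K : ℝ) ^ (20 * κ) ≤ (k K : ℝ) ^ (1 : ℝ) := Real.rpow_le_rpow_of_exponent_le (by linarith) (by linarith)
      _ = k K := Real.rpow_one _
  have hρ1 : 1 ≤ ρ K := by
    simp only [hρ]
    apply Real.one_le_rpow _ h0.le
    have : (1 : ℝ) ≤ n K := by
      simp only [hn]
      exact one_le_pow₀ (by linarith)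
    linarith
  have hρ2 : ρ K ≤ (k K : ℝ) ^ 16 := by
    refine hρle2.trans ?_
    have : (k K : ℝ) * (k K : ℝ) ^ 1 ≤ (k K : ℝ) ^ 16 := by
      rw [← pow_succ']
      exact pow_le_pow_right₀ (by linarith) (by norm_num)
    nlinarith
  have hρ3 : ρ K ≤ N K := by
    refine hρle2.trans ?_
    have h3 : (k K : ℝ) * (k K : ℝ) ^ 10 ≤ (k K : ℝ) ^ 20 := by
      rw [← pow_succ']
      exact pow_le_pow_right₀ (by linarith) (by norm_num)
    have h4 : (10 : ℝ) ^ 10 ≤ (k K : ℝ) ^ 10 := pow_le_pow_left₀ (by norm_num) hk10 10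
    have h5 : (k K : ℝ) * 10 ^ 10 ≤ (k K : ℝ) * (k K : ℝ) ^ 10 := mul_le_mul_of_nonneg_left h4 hk0.le
    linarith
  have hvK : ‖(((k K : ℝ) ^ 20 : ℝ) : ℂ) * y - pt (v K)‖ ≤ 2 := near_bd hr _
  have hcount : ∀ l : List Step, endPt 0 l = v K → 9999 * N K ≤ l.count s₀ := by
    intro l hl
    have h2 := hs₀ (v K) ((k K : ℝ) ^ 20) (by positivity) hvK l hl
    have h3 : (9999 * N K : ℝ) ≤ l.count s₀ := by
      refine le_trans ?_ h2
      rw [hNr]
      have h4 : (10 : ℝ) ^ 20 ≤ (k K : ℝ) ^ 20 := pow_le_pow_left₀ (by norm_num) hk10 20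
      rw [hNr] at h4
      have h5 : (10 : ℝ) ^ 16 ≤ N K := by linarith
      linarith
    exact_mod_cast h3
  have hl1v : (l1 (v K) : ℝ) ≤ 3 * (k K : ℝ) ^ 20 := by
    have h2 := near_l1 hr ((n K : ℂ) * y)
    have h3 := fl_sub_le ((n K : ℂ) * y) 0
    rw [fl_zero, sub_zero] at h3
    have e1 : ((n K : ℂ) * y).re = n K * y.re := Complex.re_ofReal_mul _ _
    have e2 : ((n K : ℂ) * y).im = n K * y.im := Complex.im_ofReal_mul _ _
    have hn0 : 0 ≤ n K := by simp only [hn]; positivity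
    rw [e1, e2, Complex.zero_re, Complex.zero_im, sub_zero, sub_zero, abs_mul, abs_mul, abs_of_nonneg hn0, ← mul_add] at h3
    have h4 := l1_tri (v K) (fl ((n K : ℂ) * y)) 0
    rw [sub_zero, sub_zero] at h4
    have h5 : n K * (|y.re| + |y.im|) ≤ n K * (10001 / 10000) := mul_le_mul_of_nonneg_left hsum hn0
    have h6 : (10 : ℝ) ^ 20 ≤ n K := pow_le_pow_left₀ (by norm_num) hk10 20
    have h7 : n K = (k K : ℝ) ^ 20 := rfl
    rw [← h7]
    have h8 : v K = r ((n K : ℂ) * y) := rfl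
    rw [h8] at h4 ⊢
    linarith
  have hkey := key_ineq hy hmin hG1 hG2 hk1 hNk hvK hcount hρ1 hρ2 hρ3
  have pC := C_bound hk1 hl1v
  have pB := B_bound s₀ (N K)
  have hNpos : (0 : ℝ) ≤ N K := Nat.cast_nonneg _
  have hhalf : (1 : ℝ) / 2 ≤ 1 - (PP Edge).real {b | ¬ |TB b 0 (v K) - G y * (k K : ℝ) ^ 20| ≤ ρ K}
      - (PP Edge).real (badC (k K) (v K)) - (PP Edge).real (badB s₀ (N K)) := by
    have p1 : (PP Edge).real {b | ¬ |TB b 0 (v K) - G y * (k K : ℝ) ^ 20| ≤ ρ K} < 1 / 6 := qA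
    have p2 : (PP Edge).real (badB s₀ (N K)) ≤ (3 * (N K : ℝ) + 1) * (1 / 2) ^ (N K) := pB
    linarith
  have hfin : (99 / 100) * ((N K : ℝ) / 10) * (1 / 2) ≤ 50 * ρ K * (k K : ℝ) ^ 19 :=
    (mul_le_mul_of_nonneg_left hhalf (by positivity)).trans hkey
  have h20 : (k K : ℝ) ^ 20 ≤ 10 ^ 11 * ((k K : ℝ) ^ (20 * κ) * (k K : ℝ) ^ 19) := by
    have h2 : ρ K * (k K : ℝ) ^ 19 ≤ 3 * (k K : ℝ) ^ (20 * κ) * (k K : ℝ) ^ 19 :=
      mul_le_mul_of_nonneg_right hρle (by positivity)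
    have h3 : (0 : ℝ) ≤ (k K : ℝ) ^ (20 * κ) * (k K : ℝ) ^ 19 := by positivity
    rw [hNr]
    linarith
  have h21 : (k K : ℝ) ≤ 10 ^ 11 * (k K : ℝ) ^ (20 * κ) := by
    have h2 : (k K : ℝ) ^ 20 = (k K : ℝ) * (k K : ℝ) ^ 19 := by ring
    rw [h2, ← mul_assoc] at h20
    exact le_of_mul_le_mul_right h20 (by positivity)
  have h22 : (k K : ℝ) ^ (1 - 20 * κ) * (k K : ℝ) ^ (20 * κ) = k K := by
    rw [← Real.rpow_add hk0]
    simp
  have h23 : 0 < (k K : ℝ) ^ (20 * κ) := by positivity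
  have h24 : (k K : ℝ) ^ (1 - 20 * κ) * (k K : ℝ) ^ (20 * κ) ≤ 10 ^ 11 * (k K : ℝ) ^ (20 * κ) := by
    rw [h22]; exact h21
  have h25 := le_of_mul_le_mul_right h24 h23
  linarith

end FPPDir
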