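import Pool.Agent.Lib.MP_9b88e3_pr.Diag
import Pool.Agent.Lib.MP_9b88e3_pr.NoSmall

/-!
Exponents in the two directions, for the Bernoulli description of the environment.
-/

set_option autoImplicit false

open MeasureTheory ProbabilityTheory Filter Topology
open scoped ENNReal NNReal

namespace FPPDir

/-- the event in the definition of the exponent -/
def goodT (τ : Edge → ℝ) (r : ℂ → ℤ × ℤ) (x : ℂ) (μ κ : ℝ) : Prop :=
  ∀ᶠ t : ℝ in atTop,
    (∀ n : ℝ, 0 ≤ n → n ≤ μ⁻¹ * (t - t ^ κ) → T τ 0 (r ((n : ℂ) * x)) ≤ t) ∧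
    (∀ n : ℝ, 0 ≤ n → μ⁻¹ * (t + t ^ κ) ≤ n → t ≤ T τ 0 (r ((n : ℂ) * x)))

lemma goodT_mono {τ : Edge → ℝ} {r : ℂ → ℤ × ℤ} {x : ℂ} {μ κ κ' : ℝ} (hμ : 0 < μ) (hκ : κ ≤ κ')
    (h : goodT τ r x μ κ) : goodT τ r x μ κ' := by
  unfold goodT at *
  filter_upwards [h, eventually_ge_atTop (1 : ℝ)] with t ht ht1
  have h1 : t ^ κ ≤ t ^ κ' := Real.rpow_le_rpow_of_exponent_le ht1 hκ
  have h2 : 0 < μ⁻¹ := inv_pos.2 hμ
  refine ⟨fun n hn0 hn => ht.1 n hn0 (hn.trans ?_), fun n hn0 hn => ht.2 n hn0 (le_trans ?_ hn)⟩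
  · exact mul_le_mul_of_nonneg_left (by linarith) h2.le
  · exact mul_le_mul_of_nonneg_left (by linarith) h2.le

lemma eventually_rpow_le {κ : ℝ} (hκ : κ < 1) : ∀ᶠ n : ℝ in atTop, (3 * n) ^ κ ≤ n / 2 := by
  have h1 : Tendsto (fun n : ℝ => (3 * n) ^ (1 - κ)) atTop atTop :=
    (tendsto_rpow_atTop (by linarith)).comp (tendsto_id.const_mul_atTop (by norm_num))
  filter_upwards [h1.eventually (eventually_ge_atTop 6), eventually_gt_atTop (0 : ℝ)] with n hn hn0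
  have h2 : (3 * n) ^ (1 - κ) * (3 * n) ^ κ = 3 * n := by
    rw [← Real.rpow_add (by positivity)]
    simp
  have h3 : 0 < (3 * n) ^ κ := by positivity
  nlinarith

/-- the exponent condition gives two-sided bounds on passage times -/
lemma goodT_bound {τ : Edge → ℝ} {r : ℂ → ℤ × ℤ} {x : ℂ} {μ κ : ℝ} (h1 : 1 ≤ μ) (h2 : μ ≤ 2) (hκ0 : 0 < κ)
    (hκ : κ < 1) (h : goodT τ r x μ κ) :
    ∀ᶠ n : ℝ in atTop, |T τ 0 (r ((n : ℂ) * x)) - μ * n| ≤ (3 * n) ^ κ := by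
  have hμ : 0 < μ := by linarith
  unfold goodT at h
  obtain ⟨t₀, ht₀⟩ := eventually_atTop.1 h
  filter_upwards [eventually_rpow_le hκ, eventually_gt_atTop (0 : ℝ), eventually_ge_atTop (2 * t₀)] with n hn1 hn0 hn2
  set e := (3 * n) ^ κ with he
  have he0 : 0 < e := by positivity
  have hμn : n ≤ μ * n := by nlinarith
  have hμn2 : μ * n ≤ 2 * n := by nlinarith
  rw [abs_le]
  constructor
  · -- lower bound
    have ht : t₀ ≤ μ * n - e := by linarith
    have hb := (ht₀ (μ * n - e) ht).2 n hn0.le ?_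
    · linarith
    · have h3 : (μ * n - e) ^ κ ≤ e := Real.rpow_le_rpow (by linarith) (by linarith) hκ0.le
      rw [inv_mul_le_iff₀ hμ]
      linarith
  · have ht : t₀ ≤ μ * n + e := by
      rcases le_total t₀ 0 with h5 | h5 <;> linarith
    have hb := (ht₀ (μ * n + e) ht).1 n hn0.le ?_
    · linarith
    · have h3 : (μ * n + e) ^ κ ≤ e := Real.rpow_le_rpow (by linarith) (by linarith) hκ0.le
      rw [le_inv_mul_iff₀ hμ]
      linarith

/-- lower bound for the exponents in the extremal direction -/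
theorem y_lower {y : ℂ} (hy : ‖y‖ = 1) (hmin : ∀ x : ℂ, G y * ‖x‖ ≤ G x) {r : ℂ → ℤ × ℤ} (hr : IsNearest r)
    {κ : ℝ} (h : ∀ᵐ b ∂(PP Edge), goodT (env b) r y (G y) κ) : 1 / 20 ≤ κ := by
  by_contra hcon
  push Not at hcon
  have hG2 : G y ≤ 10001 / 10000 := by
    have h2 := hmin 1
    have h3 := G_one_le
    rw [norm_one, mul_one] at h2
    unfold hh pb at h3
    linarith
  have hG1 : 1 ≤ G y := by
    have := Complex.norm_le_abs_re_add_abs_im y
    rw [hy] at this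
    exact this.trans (le_G y)
  set κ' := max κ (1 / 40) with hκ'
  have h0 : 0 < κ' := lt_of_lt_of_le (by norm_num) (le_max_right _ _)
  have h1 : κ' < 1 / 20 := max_lt hcon (by norm_num)
  refine no_small hy hmin hr h0 h1 ?_
  filter_upwards [h] with b hb
  exact goodT_bound hG1 (by linarith) h0 (by linarith) (goodT_mono (by linarith) (le_max_left _ _) hb)

/-! ### the diagonal direction -/

/-- `1/√2` -/
noncomputable def is2 : ℝ := (Real.sqrt 2)⁻¹

lemma is2_pos : 0 < is2 := by unfold is2; positivity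

lemma is2_sq : is2 * is2 = 1 / 2 := by
  unfold is2
  rw [← mul_inv, Real.mul_self_sqrt (by norm_num)]
  norm_num

lemma two_is2 : 2 * is2 = Real.sqrt 2 := by
  unfold is2
  have h := Real.mul_self_sqrt (show (0 : ℝ) ≤ 2 by norm_num)
  have h0 : Real.sqrt 2 ≠ 0 := by positivity
  field_simp
  linarith

/-- the diagonal unit vector -/
noncomputable def dg : ℂ := ⟨is2, is2⟩

lemma norm_dg : ‖dg‖ = 1 := by
  have h : ‖dg‖ ^ 2 = 1 := by
    rw [← Complex.normSq_eq_norm_sq, Complex.normSq_apply]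
    unfold dg
    simp only
    rw [is2_sq]
    norm_num
  have h0 := norm_nonneg dg
  nlinarith

lemma diag_facts {r : ℂ → ℤ × ℤ} (hr : IsNearest r) (b : Edge → Bool) {n : ℝ} (hn : 0 ≤ n) :
    Real.sqrt 2 * n - 14 ≤ TB b 0 (r ((n : ℂ) * dg)) ∧
    TB b 0 (r ((n : ℂ) * dg)) ≤ TB b 0 ((⌊n * is2⌋₊ : ℤ), (⌊n * is2⌋₊ : ℤ)) + 12 ∧
    TB b 0 ((⌊n * is2⌋₊ : ℤ), (⌊n * is2⌋₊ : ℤ)) ≤ 4 * ⌊n * is2⌋₊ ∧
    2 * (⌊n * is2⌋₊ : ℝ) ≤ Real.sqrt 2 * n := by
  set m := ⌊n * is2⌋₊ with hm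
  have hns : 0 ≤ n * is2 := mul_nonneg hn is2_pos.le
  have hfl : fl ((n : ℂ) * dg) = ((m : ℤ), (m : ℤ)) := by
    unfold fl
    have e1 : ((n : ℂ) * dg).re = n * is2 := Complex.re_ofReal_mul _ _
    have e2 : ((n : ℂ) * dg).im = n * is2 := Complex.im_ofReal_mul _ _
    rw [e1, e2, hm, Int.natCast_floor_eq_floor hns]
  have h1 := near_l1 hr ((n : ℂ) * dg)
  rw [hfl] at h1
  have h2 := T_lip (env_ge b) (env_le' b) 0 (r ((n : ℂ) * dg)) ((m : ℤ), (m : ℤ))
  have h3 : |TB b 0 (r ((n : ℂ) * dg)) - TB b 0 ((m : ℤ), (m : ℤ))| ≤ 12 := by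
    unfold TB
    linarith
  rw [abs_le] at h3
  have h4 := l1_le_T (env_ge b) 0 ((m : ℤ), (m : ℤ))
  have h5 := T_le_l1 (env_ge b) (env_le' b) 0 ((m : ℤ), (m : ℤ))
  rw [sub_zero, l1_nonneg_eq (by simp) (by simp)] at h4 h5
  push_cast at h4 h5
  have h6 : (m : ℝ) ≤ n * is2 := Nat.floor_le hns
  have h7 : n * is2 < m + 1 := Nat.lt_floor_add_one _
  have h8 : Real.sqrt 2 * n = 2 * (n * is2) := by rw [← two_is2]; ring
  unfold TB at *
  refine ⟨?_, ?_, ?_, ?_⟩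
  · rw [h8]; linarith [h3.1]
  · linarith [h3.2]
  · linarith
  · rw [h8]; linarith

lemma log_small {κ : ℝ} (hκ : 0 < κ) : ∀ᶠ t : ℝ in atTop, 20 + 8 * Real.logb 2 t ≤ t ^ κ := by
  have h1 := (isLittleO_log_rpow_atTop hκ).bound (show 0 < Real.log 2 / 16 by positivity)
  have h2 : Tendsto (fun t : ℝ => t ^ κ) atTop atTop := tendsto_rpow_atTop hκ
  filter_upwards [h1, h2.eventually (eventually_ge_atTop 40), eventually_ge_atTop (1 : ℝ)] with t ht1 ht2 ht3
  have h3 : 0 ≤ Real.log t := Real.log_nonneg ht3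
  rw [Real.norm_of_nonneg h3, Real.norm_of_nonneg (by positivity)] at ht1
  have hl2 : 0 < Real.log 2 := Real.log_pos (by norm_num)
  have h4 : Real.logb 2 t ≤ t ^ κ / 16 := by
    unfold Real.logb
    rw [div_le_iff₀ hl2]
    linarith
  linarith

lemma diag_upper {r : ℂ → ℤ × ℤ} (hr : IsNearest r) : ∀ᵐ b ∂(PP Edge), ∃ M₀ : ℕ, ∀ n : ℝ, 0 ≤ n →
    (⌊n * is2⌋₊ < M₀ → TB b 0 (r ((n : ℂ) * dg)) ≤ 4 * M₀ + 12) ∧
    (M₀ ≤ ⌊n * is2⌋₊ → 1 ≤ n ∧ TB b 0 (r ((n : ℂ) * dg)) ≤ Real.sqrt 2 * n + 20 + 8 * Real.logb 2 n) := by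
  filter_upwards [as_diag] with b hb
  obtain ⟨M, hM⟩ := eventually_atTop.1 hb
  refine ⟨max M 1, fun n hn => ?_⟩
  obtain ⟨f1, f2, f3, f4⟩ := diag_facts hr b hn
  constructor
  · intro hlt
    have : (⌊n * is2⌋₊ : ℝ) ≤ ((max M 1 : ℕ) : ℝ) := by exact_mod_cast hlt.le
    linarith
  · intro hle
    have hm1 : 1 ≤ ⌊n * is2⌋₊ := (le_max_right _ _).trans hle
    have hmM : M ≤ ⌊n * is2⌋₊ := (le_max_left _ _).trans hle
    have h1 := hM _ hmM
    set m := ⌊n * is2⌋₊ with hm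
    have hmn : (m : ℝ) ≤ n := by
      have h2 : (m : ℝ) ≤ n * is2 := Nat.floor_le (mul_nonneg hn is2_pos.le)
      have h3 : is2 ≤ 1 := by
        have := is2_sq
        have := is2_pos
        nlinarith
      nlinarith
    have hm1' : (1 : ℝ) ≤ m := by exact_mod_cast hm1
    have hn1 : 1 ≤ n := hm1'.trans hmn
    refine ⟨hn1, ?_⟩
    have h2 : (Nat.log 2 m : ℝ) ≤ Real.logb 2 n := by
      refine (Real.natLog_le_logb m 2).trans ?_
      exact Real.logb_le_logb_of_le (by norm_num) (by linarith) hmn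
    linarith

/-- in the diagonal direction every positive exponent is good -/
theorem diag_good {r : ℂ → ℤ × ℤ} (hr : IsNearest r) {κ : ℝ} (hκ : 0 < κ) :
    ∀ᵐ b ∂(PP Edge), goodT (env b) r dg (Real.sqrt 2) κ := by
  filter_upwards [diag_upper hr] with b hb
  obtain ⟨M₀, hM⟩ := hb
  have hs2 : 0 < Real.sqrt 2 := by positivity
  have hs1 : 1 ≤ Real.sqrt 2 := by
    rw [Real.one_le_sqrt]; norm_num
  unfold goodT
  have h2 : Tendsto (fun t : ℝ => t ^ κ) atTop atTop := tendsto_rpow_atTop hκ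
  filter_upwards [log_small hκ, h2.eventually (eventually_ge_atTop 14), eventually_ge_atTop (4 * (M₀ : ℝ) + 12)]
    with t ht1 ht2 ht3
  constructor
  · intro n hn0 hn
    rw [le_inv_mul_iff₀ hs2] at hn
    obtain ⟨g1, g2⟩ := hM n hn0
    rcases lt_or_ge ⌊n * is2⌋₊ M₀ with hlt | hle
    · have := g1 hlt
      unfold TB at this
      linarith
    · obtain ⟨hn1, hT⟩ := g2 hle
      have hnt : n ≤ t := by nlinarith
      have h3 : Real.logb 2 n ≤ Real.logb 2 t := Real.logb_le_logb_of_le (by norm_num) (by linarith) hnt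
      unfold TB at hT
      linarith
  · intro n hn0 hn
    rw [inv_mul_le_iff₀ hs2] at hn
    have h3 := (diag_facts hr b hn0).1
    unfold TB at h3
    linarith

/-- the time constant in the diagonal direction -/
theorem diag_time {r : ℂ → ℤ × ℤ} (hr : IsNearest r) :
    ∀ᵐ b ∂(PP Edge), Tendsto (fun n : ℝ => TB b 0 (r ((n : ℂ) * dg)) / n) atTop (𝓝 (Real.sqrt 2)) := by
  filter_upwards [diag_upper hr] with b hb
  obtain ⟨M₀, hM⟩ := hb
  have h1 : Tendsto (fun n : ℝ => Real.sqrt 2 - 14 / n) atTop (𝓝 (Real.sqrt 2 - 0)) :=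
    tendsto_const_nhds.sub (tendsto_const_nhds.div_atTop tendsto_id)
  rw [sub_zero] at h1
  have h2 : Tendsto (fun n : ℝ => Real.sqrt 2 + n ^ (-(1 / 2) : ℝ)) atTop (𝓝 (Real.sqrt 2 + 0)) :=
    tendsto_const_nhds.add (tendsto_rpow_neg_atTop (by norm_num))
  rw [add_zero] at h2
  have hfl : Tendsto (fun n : ℝ => ⌊n * is2⌋₊) atTop atTop :=
    tendsto_nat_floor_atTop.comp (tendsto_id.atTop_mul_const is2_pos)
  refine tendsto_of_tendsto_of_tendsto_of_le_of_le' h1 h2 ?_ ?_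
  · filter_upwards [eventually_gt_atTop (0 : ℝ)] with n hn
    have h3 := (diag_facts hr b hn.le).1
    rw [le_div_iff₀ hn]
    have : (Real.sqrt 2 - 14 / n) * n = Real.sqrt 2 * n - 14 := by field_simp
    rw [this]
    exact h3
  · filter_upwards [eventually_gt_atTop (0 : ℝ), hfl.eventually (eventually_ge_atTop M₀),
      log_small (show (0 : ℝ) < 1 / 2 by norm_num)] with n hn hn2 hn3
    have h3 := ((hM n hn.le).2 hn2).2
    rw [div_le_iff₀ hn]
    have h4 : n ^ (-(1 / 2) : ℝ) * n = n ^ (1 / 2 : ℝ) := by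
      have : n ^ (-(1 / 2) : ℝ) * n ^ (1 : ℝ) = n ^ (1 / 2 : ℝ) := by
        rw [← Real.rpow_add hn]; norm_num
      rwa [Real.rpow_one] at this
    rw [add_mul, h4]
    linarith

end FPPDir
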