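import Pool.Agent.Lib.MP_9b88e3_pr.Conf

/-!
Lower bound for the fluctuation exponent in the extremal direction.
-/

set_option autoImplicit false

open MeasureTheory ProbabilityTheory Filter Topology
open scoped ENNReal NNReal

namespace FPPDir

/-- component of a vector in the direction of a step -/
def comp : Step → ℤ × ℤ → ℤ
  | (false, false), z => z.1
  | (false, true), z => -z.1
  | (true, false), z => z.2
  | (true, true), z => -z.2

lemma comp_le (s₀ : Step) (u : ℤ × ℤ) (l : List Step) : comp s₀ (endPt u l) ≤ comp s₀ u + l.count s₀ := by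
  induction l generalizing u with
  | nil => simp [endPt]
  | cons s l ih =>
    have h1 := ih (u + vec s)
    have h2 : comp s₀ (u + vec s) ≤ comp s₀ u + if s = s₀ then 1 else 0 := by
      rcases s₀ with ⟨a, b⟩
      rcases s with ⟨c, d⟩
      cases a <;> cases b <;> cases c <;> cases d <;> simp [comp, vec]
    rw [List.count_cons]
    simp only [endPt, beq_iff_eq]
    push_cast
    split_ifs at h2 ⊢ <;> linarith

lemma exists_main {y : ℂ} (hy : ‖y‖ = 1) (h : |y.re| + |y.im| ≤ 10001 / 10000) :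
    ∃ s₀ : Step, ∀ (v : ℤ × ℤ) (n : ℝ), 0 ≤ n → ‖(n : ℂ) * y - pt v‖ ≤ 2 → ∀ l : List Step, endPt 0 l = v →
      n * (10000 / 10001) - 2 ≤ l.count s₀ := by
  have hsq : |y.re| ^ 2 + |y.im| ^ 2 = 1 := by
    have h1 : ‖y‖ ^ 2 = y.re ^ 2 + y.im ^ 2 := by
      rw [← Complex.normSq_eq_norm_sq, Complex.normSq_apply]; ring
    rw [sq_abs, sq_abs, ← h1, hy]; norm_num
  have hre : ∀ (v : ℤ × ℤ) (n : ℝ), ‖(n : ℂ) * y - pt v‖ ≤ 2 → |n * y.re - v.1| ≤ 2 := by
    intro v n h1
    have := (Complex.abs_re_le_norm ((n : ℂ) * y - pt v)).trans h1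
    have e : ((n : ℂ) * y - pt v).re = n * y.re - v.1 := by simp [pt]
    rwa [e] at this
  have him : ∀ (v : ℤ × ℤ) (n : ℝ), ‖(n : ℂ) * y - pt v‖ ≤ 2 → |n * y.im - v.2| ≤ 2 := by
    intro v n h1
    have := (Complex.abs_im_le_norm ((n : ℂ) * y - pt v)).trans h1
    have e : ((n : ℂ) * y - pt v).im = n * y.im - v.2 := by simp [pt]
    rwa [e] at this
  have a0 := abs_nonneg y.re
  have b0 := abs_nonneg y.im
  have hgen : ∀ (s₀ : Step) (v : ℤ × ℤ) (l : List Step), endPt 0 l = v → (comp s₀ v : ℝ) ≤ l.count s₀ := by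
    intro s₀ v l hl
    have h1 := comp_le s₀ 0 l
    have h2 : comp s₀ 0 = 0 := by
      rcases s₀ with ⟨a, b⟩; cases a <;> cases b <;> rfl
    rw [hl, h2, zero_add] at h1
    exact_mod_cast h1
  rcases le_total |y.im| |y.re| with hab | hab
  · have ha : 10000 / 10001 ≤ |y.re| := by nlinarith
    rcases le_total 0 y.re with h0 | h0
    · refine ⟨(false, false), fun v n hn h1 l hl => ?_⟩
      have h2 := hgen (false, false) v l hl
      simp only [comp] at h2
      have h3 := hre v n h1
      rw [abs_le] at h3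
      rw [abs_of_nonneg h0] at ha
      have := mul_le_mul_of_nonneg_left ha hn
      linarith [h3.1, h3.2]
    · refine ⟨(false, true), fun v n hn h1 l hl => ?_⟩
      have h2 := hgen (false, true) v l hl
      simp only [comp] at h2
      push_cast at h2
      have h3 := hre v n h1
      rw [abs_le] at h3
      rw [abs_of_nonpos h0] at ha
      have := mul_le_mul_of_nonneg_left ha hn
      linarith [h3.1, h3.2]
  · have ha : 10000 / 10001 ≤ |y.im| := by nlinarith
    rcases le_total 0 y.im with h0 | h0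
    · refine ⟨(true, false), fun v n hn h1 l hl => ?_⟩
      have h2 := hgen (true, false) v l hl
      simp only [comp] at h2
      have h3 := him v n h1
      rw [abs_le] at h3
      rw [abs_of_nonneg h0] at ha
      have := mul_le_mul_of_nonneg_left ha hn
      linarith [h3.1, h3.2]
    · refine ⟨(true, true), fun v n hn h1 l hl => ?_⟩
      have h2 := hgen (true, true) v l hl
      simp only [comp] at h2
      push_cast at h2
      have h3 := him v n h1
      rw [abs_le] at h3
      rw [abs_of_nonpos h0] at ha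
      have := mul_le_mul_of_nonneg_left ha hn
      linarith [h3.1, h3.2]

/-- truncation at level `R` -/
noncomputable def clip (R x : ℝ) : ℝ := max (-R) (min R x)

lemma clip_mono (R : ℝ) : Monotone (clip R) := fun _ _ h => max_le_max_left _ (min_le_min_left _ h)

lemma abs_clip_le {R : ℝ} (hR : 0 ≤ R) (x : ℝ) : |clip R x| ≤ R := by
  unfold clip
  rw [abs_le]
  exact ⟨le_max_left _ _, max_le (by linarith) (min_le_left _ _)⟩

lemma clip_eq {R x : ℝ} (h1 : -R ≤ x) (h2 : x ≤ R) : clip R x = x := by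
  unfold clip
  rw [min_eq_right h2, max_eq_right h1]

/-- exceptional event for straight words -/
def badB (s₀ : Step) (N : ℕ) : Set (Edge → Bool) :=
  {b | ∃ l : List Step, 9999 * N ≤ l.length ∧ l.length ≤ 10002 * N ∧ (edgs 0 l).Nodup ∧
      l.length ≤ l.count s₀ + 3 * N ∧ slowCount b 0 l ≤ 10 * N}

/-- The key inequality. -/
lemma key_ineq {y : ℂ} (hy : ‖y‖ = 1) (hmin : ∀ x : ℂ, G y * ‖x‖ ≤ G x) (hG1 : 1 ≤ G y)
    (hG2 : G y ≤ 10001 / 10000) {s₀ : Step} {k N : ℕ} (hk : 1 ≤ k) (hN : k ^ 20 = 10 ^ 4 * N) {v : ℤ × ℤ}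
    (hv : ‖(((k : ℝ) ^ 20 : ℝ) : ℂ) * y - pt v‖ ≤ 2)
    (hcount : ∀ l : List Step, endPt 0 l = v → 9999 * N ≤ l.count s₀)
    {ρ : ℝ} (hρ1 : 1 ≤ ρ) (hρ2 : ρ ≤ (k : ℝ) ^ 16) (hρ3 : ρ ≤ N) :
    (99 / 100) * ((N : ℝ) / 10) * (1 - (PP Edge).real {b | ¬ |TB b 0 v - G y * (k : ℝ) ^ 20| ≤ ρ}
      - (PP Edge).real (badC k v) - (PP Edge).real (badB s₀ N)) ≤ 50 * ρ * (k : ℝ) ^ 19 := by
  have hk' : (1 : ℝ) ≤ k := by exact_mod_cast hk
  have hNr : (k : ℝ) ^ 20 = 10 ^ 4 * N := by exact_mod_cast hN
  have hy2 : 1 / 2 ≤ |y.re| ∨ 1 / 2 ≤ |y.im| := by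
    by_contra hcon
    push Not at hcon
    have h1 := Complex.norm_le_abs_re_add_abs_im y
    rw [hy] at h1
    linarith [hcon.1, hcon.2]
  set S := reg y k with hS
  set n : ℝ := (k : ℝ) ^ 20 with hn
  set F : (Edge → Bool) → ℝ := fun b => clip (2 * ρ) (TB b 0 v - G y * n) with hF
  set H : (Edge → Bool) → ℝ := fun b => ∑ e ∈ S, bi e b * Dd e F b with hH
  set m₀ := 2 * l1 (v - 0) with hm₀
  have hFdep : DependsOn F (SN 0 m₀ : Set Edge) := by
    intro x z hxz
    have := TB_dep 0 v hxz
    simp only at this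
    simp only [hF]
    rw [this]
  have hFb : ∀ b, |F b| ≤ 2 * ρ := fun b => abs_clip_le (by linarith) _
  have hDF : ∀ e b, 0 ≤ Dd e F b := by
    intro e b
    unfold Dd
    simp only [hF]
    have h1 := Dd_TB_nonneg e 0 v b
    unfold Dd at h1
    have := clip_mono (2 * ρ) (show TB (Function.update b e false) 0 v - G y * n ≤ TB (Function.update b e true) 0 v - G y * n by linarith)
    linarith
  -- the big finite set on which everything depends
  set U := SN 0 m₀ ∪ S with hU
  have hFU : DependsOn F (U : Set Edge) := DependsOn.mono' Finset.subset_union_left hFdep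
  have hbiU : ∀ e ∈ S, DependsOn (bi e : (Edge → Bool) → ℝ) (U : Set Edge) := by
    intro e he
    exact DependsOn.mono' (by rw [Finset.singleton_subset_iff]; exact Finset.mem_union_right _ he) (dep_bi e)
  have hDU : ∀ e, DependsOn (Dd e F) (U : Set Edge) := by
    intro e
    exact DependsOn.mono' (Finset.erase_subset e U) (DependsOn.dd e hFU)
  have hHdep : DependsOn H (U : Set Edge) := by
    intro x z hxz
    simp only [hH]
    refine Finset.sum_congr rfl fun e he => ?_
    rw [hbiU e he hxz, hDU e hxz]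
  have hSdep : DependsOn (fun b : Edge → Bool => ∑ e ∈ S, (bi e b - pb)) (U : Set Edge) := by
    intro x z hxz
    simp only
    refine Finset.sum_congr rfl fun e he => ?_
    rw [hbiU e he hxz]
  -- identity
  have hid : ∫ b, F b * ∑ e ∈ S, (bi e b - pb) ∂(PP Edge) = (1 - pb) * ∫ b, H b ∂(PP Edge) := by
    have h1 : ∀ b, F b * ∑ e ∈ S, (bi e b - pb) = ∑ e ∈ S, F b * (bi e b - pb) := fun b => Finset.mul_sum _ _ _
    simp only [h1]
    rw [integral_finsetSum, hH, integral_finsetSum, Finset.mul_sum]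
    · refine Finset.sum_congr rfl fun e _ => ?_
      rw [cov_identity e hFdep, int_bi_Dd e hFdep]
      ring
    · intro e he
      apply DependsOn.integrable (S := U)
      intro x z hxz
      simp only
      rw [hbiU e he hxz, hDU e hxz]
    · intro e he
      apply DependsOn.integrable (S := U)
      intro x z hxz
      simp only
      rw [hbiU e he hxz, hFU hxz]
  -- upper bound
  have hcard : (S.card : ℝ) ≤ 610 * (k : ℝ) ^ 38 := reg_card hy2 hk
  have hup : ∫ b, F b * ∑ e ∈ S, (bi e b - pb) ∂(PP Edge) ≤ 50 * ρ * (k : ℝ) ^ 19 := by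
    have hc19 : (0 : ℝ) < 25 * (k : ℝ) ^ 19 := by positivity
    have h1 : ∀ b : Edge → Bool, F b * ∑ e ∈ S, (bi e b - pb)
        ≤ ρ * ((∑ e ∈ S, (bi e b - pb)) ^ 2 / (25 * (k : ℝ) ^ 19) + 25 * (k : ℝ) ^ 19) := by
      intro b
      set σ := ∑ e ∈ S, (bi e b - pb) with hσ
      have h2 : F b * σ ≤ 2 * ρ * |σ| := by
        calc F b * σ ≤ |F b * σ| := le_abs_self _
          _ = |F b| * |σ| := abs_mul _ _
          _ ≤ 2 * ρ * |σ| := mul_le_mul_of_nonneg_right (hFb b) (abs_nonneg _)
      have h3 : 2 * |σ| ≤ σ ^ 2 / (25 * (k : ℝ) ^ 19) + 25 * (k : ℝ) ^ 19 := by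
        rw [div_add' _ _ _ hc19.ne', le_div_iff₀ hc19]
        nlinarith [sq_nonneg (|σ| - 25 * (k : ℝ) ^ 19), sq_abs σ]
      nlinarith
    have h2 : ∫ b, F b * ∑ e ∈ S, (bi e b - pb) ∂(PP Edge)
        ≤ ∫ b, ρ * ((∑ e ∈ S, (bi e b - pb)) ^ 2 / (25 * (k : ℝ) ^ 19) + 25 * (k : ℝ) ^ 19) ∂(PP Edge) := by
      apply integral_mono
      · apply DependsOn.integrable (S := U)
        intro x z hxz
        have := hSdep hxz
        simp only at this ⊢
        rw [this, hFU hxz]
      · apply DependsOn.integrable (S := U)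
        intro x z hxz
        have := hSdep hxz
        simp only at this ⊢
        rw [this]
      · exact h1
    refine h2.trans ?_
    have hint : Integrable (fun b : Edge → Bool => (∑ e ∈ S, (bi e b - pb)) ^ 2) (PP Edge) := by
      apply DependsOn.integrable (S := U)
      intro x z hxz
      have := hSdep hxz
      simp only at this ⊢
      rw [this]
    rw [integral_const_mul, integral_add (hint.div_const _) (integrable_const _), integral_div, sum_sq]
    simp only [integral_const, probReal_univ, one_smul]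
    have h3 : pb * (1 - pb) * S.card / (25 * (k : ℝ) ^ 19) ≤ 25 * (k : ℝ) ^ 19 := by
      rw [div_le_iff₀ hc19]
      have e1 : pb * (1 - pb) ≤ 1 := by unfold pb; norm_num
      have e2 : pb * (1 - pb) * S.card ≤ 1 * S.card := mul_le_mul_of_nonneg_right e1 (Nat.cast_nonneg _)
      have e3 : 25 * (k : ℝ) ^ 19 * (25 * (k : ℝ) ^ 19) = 625 * (k : ℝ) ^ 38 := by ring
      rw [e3]
      have e4 : (0 : ℝ) ≤ (k : ℝ) ^ 38 := by positivity
      linarith
    have h4 : ρ * (pb * (1 - pb) * S.card / (25 * (k : ℝ) ^ 19) + 25 * (k : ℝ) ^ 19)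
        ≤ ρ * (25 * (k : ℝ) ^ 19 + 25 * (k : ℝ) ^ 19) := by
      apply mul_le_mul_of_nonneg_left _ (by linarith)
      linarith
    linarith
  -- lower bound
  have hcov : (Set.univ : Set (Edge → Bool)) ⊆
      (({b | (N : ℝ) / 10 ≤ H b} ∪ {b | ¬ |TB b 0 v - G y * n| ≤ ρ}) ∪ badC k v) ∪ badB s₀ N := by
    intro b _
    by_cases hA : ¬ |TB b 0 v - G y * n| ≤ ρ
    · exact Or.inl (Or.inl (Or.inr hA))
    by_cases hC : b ∈ badC k v
    · exact Or.inl (Or.inr hC)
    by_cases hB : b ∈ badB s₀ N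
    · exact Or.inr hB
    refine Or.inl (Or.inl (Or.inl ?_))
    rw [not_not] at hA
    obtain ⟨l, hl, hc⟩ := exists_geod (env_ge b) 0 v
    have hnd := geo_nodup (env_ge b) l 0 hl hc
    have hA' := abs_le.1 hA
    have hTu : TB b 0 v ≤ 10002 * N := by
      have : G y * n ≤ 10001 / 10000 * (10 ^ 4 * N) := by
        rw [hNr]
        exact mul_le_mul_of_nonneg_right hG2 (by positivity)
      linarith [hA'.2]
    have hlen : (l.length : ℝ) ≤ 10002 * N := by
      have := length_le_cost (env_ge b) 0 l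
      rw [hc] at this
      exact this.trans hTu
    have hlen' : l.length ≤ 10002 * N := by exact_mod_cast hlen
    have hcnt := hcount l hl
    have hcl : l.count s₀ ≤ l.length := List.count_le_length
    have hslow : 10 * N < slowCount b 0 l := by
      by_contra hcon
      exact hB ⟨l, by omega, hlen', hnd, by omega, by omega⟩
    have hreg := geo_in_reg hy hmin hG1 hk hv hC (by linarith [hA'.2]) (by
      have : (0 : ℝ) ≤ N := Nat.cast_nonneg _
      rw [← hn, hNr]
      linarith) hl hc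
    -- slow edges of the geodesic
    set Q : Finset Edge := ((edgs 0 l).filter b).toFinset with hQ
    have hQcard : Q.card = slowCount b 0 l := by
      rw [hQ, List.toFinset_card_of_nodup (hnd.filter _)]
      unfold slowCount
      rw [List.countP_eq_length_filter]
    have hQS : Q ⊆ S := by
      intro e he
      rw [hQ, List.mem_toFinset, List.mem_filter] at he
      exact hreg e he.1
    have hterm : ∀ e ∈ Q, hh ≤ bi e b * Dd e F b := by
      intro e he
      rw [hQ, List.mem_toFinset, List.mem_filter] at he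
      have hbe : b e = true := he.2
      have h1 : bi e b = 1 := by unfold bi; simp [hbe]
      rw [h1, one_mul]
      have h2 : Function.update b e true = b := by rw [← hbe]; exact Function.update_eq_self e b
      have h3 := TB_update_false_le hbe hl hc he.1
      unfold Dd
      rw [h2]
      simp only [hF]
      rw [clip_eq (x := TB b 0 v - G y * n) (by linarith [hA'.1]) (by linarith [hA'.2])]
      have h4 : clip (2 * ρ) (TB (Function.update b e false) 0 v - G y * n) ≤ clip (2 * ρ) (TB b 0 v - G y * n - hh) :=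
        clip_mono _ (by linarith)
      have hh1 : hh ≤ 1 := by unfold hh; norm_num
      have hh0 := hh_pos
      rw [clip_eq (x := TB b 0 v - G y * n - hh) (by linarith [hA'.1]) (by linarith [hA'.2])] at h4
      linarith
    have h5 : ∑ e ∈ Q, hh ≤ H b := by
      refine (Finset.sum_le_sum hterm).trans ?_
      exact Finset.sum_le_sum_of_subset_of_nonneg hQS fun e _ _ => mul_nonneg (bi_nonneg e b) (hDF e b)
    rw [Finset.sum_const, nsmul_eq_mul, hQcard] at h5
    have h6 : (10 * N : ℝ) ≤ slowCount b 0 l := by exact_mod_cast hslow.le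
    have h7 : (10 * N : ℝ) * hh ≤ slowCount b 0 l * hh := mul_le_mul_of_nonneg_right h6 hh_pos.le
    have h8 : (10 * N : ℝ) * hh = N / 10 := by unfold hh; ring
    rw [h8] at h7
    exact h7.trans h5
  have hone : 1 ≤ (PP Edge).real {b | (N : ℝ) / 10 ≤ H b} + (PP Edge).real {b | ¬ |TB b 0 v - G y * n| ≤ ρ}
      + (PP Edge).real (badC k v) + (PP Edge).real (badB s₀ N) := by
    have h1 := prmono hcov
    rw [probReal_univ] at h1
    have h2 := measureReal_union_le (μ := PP Edge) (({b | (N : ℝ) / 10 ≤ H b} ∪ {b | ¬ |TB b 0 v - G y * n| ≤ ρ}) ∪ badC k v) (badB s₀ N)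
    have h3 := measureReal_union_le (μ := PP Edge) ({b | (N : ℝ) / 10 ≤ H b} ∪ {b | ¬ |TB b 0 v - G y * n| ≤ ρ}) (badC k v)
    have h4 := measureReal_union_le (μ := PP Edge) {b | (N : ℝ) / 10 ≤ H b} {b | ¬ |TB b 0 v - G y * n| ≤ ρ}
    linarith
  have hHnn : ∀ b, 0 ≤ H b := fun b => Finset.sum_nonneg fun e _ => mul_nonneg (bi_nonneg e b) (hDF e b)
  have hmark := mul_meas_ge_le_integral_of_nonneg (μ := PP Edge) (ae_of_all _ hHnn) (DependsOn.integrable hHdep) ((N : ℝ) / 10)
  rw [hid] at hup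
  have hpb : (1 - pb) = 99 / 100 := by unfold pb; norm_num
  rw [hpb] at hup
  have hN0 : (0 : ℝ) ≤ N / 10 := by positivity
  have h9 : (N : ℝ) / 10 * (1 - (PP Edge).real {b | ¬ |TB b 0 v - G y * n| ≤ ρ}
      - (PP Edge).real (badC k v) - (PP Edge).real (badB s₀ N)) ≤ N / 10 * (PP Edge).real {b | (N : ℝ) / 10 ≤ H b} :=
    mul_le_mul_of_nonneg_left (by linarith) hN0
  calc (99 / 100) * ((N : ℝ) / 10) * (1 - (PP Edge).real {b | ¬ |TB b 0 v - G y * n| ≤ ρ}
      - (PP Edge).real (badC k v) - (PP Edge).real (badB s₀ N))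
      = (99 / 100) * ((N : ℝ) / 10 * (1 - (PP Edge).real {b | ¬ |TB b 0 v - G y * n| ≤ ρ}
      - (PP Edge).real (badC k v) - (PP Edge).real (badB s₀ N))) := by ring
    _ ≤ (99 / 100) * ∫ b, H b ∂(PP Edge) := by linarith
    _ ≤ _ := hup

end FPPDir
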