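import Pool.Agent.Lib.MP_9b88e3_pr.Expo

/-!
The critical probability is positive.
-/

set_option autoImplicit false

open MeasureTheory ProbabilityTheory Filter Topology
open scoped ENNReal NNReal

namespace FPPDir

lemma perc_eq : perc (1 / 100) = PP Edge := by
  unfold perc PP bern pb
  rfl

lemma edgs_take (u : ℤ × ℤ) (l : List Step) (n : ℕ) : edgs u (l.take n) = (edgs u l).take n := by
  induction l generalizing u n with
  | nil => simp [edgs]
  | cons s l ih =>
    cases n with
    | zero => simp [edgs]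
    | succ n => simp [edgs, ih]

/-- an infinite cluster contains long self-avoiding open paths -/
lemma exists_long {ω : Edge → Bool} (h : ¬ (cluster ω).Finite) (n : ℕ) :
    ∃ l : List Step, l.length = n ∧ (edgs 0 l).Nodup ∧ ∀ e ∈ edgs 0 l, ω e = true := by
  have hfin : {z : ℤ × ℤ | l1 z ≤ n}.Finite := by
    refine ((Set.finite_Icc (-(n : ℤ)) n).prod (Set.finite_Icc (-(n : ℤ)) n)).subset ?_
    intro z hz
    simp only [Set.mem_ofPred_eq] at hz
    unfold l1 at hz
    simp only [Set.mem_prod, Set.mem_Icc]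
    omega
  obtain ⟨z, hz, hzn⟩ : ∃ z ∈ cluster ω, z ∉ {z : ℤ × ℤ | l1 z ≤ n} := by
    by_contra hcon
    push Not at hcon
    exact h (hfin.subset fun z hz => hcon z hz)
  simp only [Set.mem_ofPred_eq, not_le] at hzn
  obtain ⟨l₀, hl₀, hop⟩ := hz
  set τ : Edge → ℝ := fun e => if ω e then 1 else (l₀.length : ℝ) + 2 with hτ
  have h1 : ∀ e, 1 ≤ τ e := by
    intro e
    simp only [hτ]
    split_ifs
    · exact le_refl _
    · have : (0 : ℝ) ≤ l₀.length := Nat.cast_nonneg _
      linarith
  obtain ⟨l, hl, hc⟩ := exists_geod h1 0 z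
  have hcost : cost τ 0 l₀ = l₀.length := by
    rw [cost_congr (τ' := fun _ => 1)]
    · unfold cost
      simp [edgs_length]
    · intro e he
      simp only [hτ]
      rw [hop e he]
      simp
  have hle : cost τ 0 l ≤ l₀.length := by rw [hc, ← hcost]; exact T_le h1 hl₀
  have hopen : ∀ e ∈ edgs 0 l, ω e = true := by
    intro e he
    by_contra hcon
    have h2 : τ e ≤ cost τ 0 l := by
      unfold cost
      apply List.single_le_sum
      · intro x hx
        rw [List.mem_map] at hx
        obtain ⟨e', _, rfl⟩ := hx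
        exact le_trans (by norm_num) (h1 e')
      · exact List.mem_map_of_mem he
    have h3 : τ e = (l₀.length : ℝ) + 2 := by simp only [hτ]; rw [if_neg hcon]
    linarith
  have hnd := geo_nodup h1 l 0 hl hc
  have hlen : n < l.length := by
    have := l1_endPt_le 0 l
    rw [hl, sub_zero] at this
    omega
  refine ⟨l.take n, by rw [List.length_take]; omega, ?_, ?_⟩
  · rw [edgs_take]
    exact hnd.sublist (List.take_sublist _ _)
  · intro e he
    rw [edgs_take] at he
    exact hopen e (List.mem_of_mem_take he)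

lemma prob_long (n : ℕ) : (PP Edge).real {ω | ¬ (cluster ω).Finite} ≤ (1 / 25) ^ n := by
  classical
  set F : Finset (Fin n → Step) := Finset.univ.filter fun f => (edgs 0 (List.ofFn f)).Nodup with hF
  have h1 : {ω : Edge → Bool | ¬ (cluster ω).Finite} ⊆ ⋃ f ∈ F, {b | ∀ e ∈ (edgs 0 (List.ofFn f)).toFinset, b e = true} := by
    intro ω hω
    obtain ⟨l, hl, hn, ho⟩ := exists_long hω n
    simp only [Set.mem_iUnion]
    subst hl
    refine ⟨l.get, ?_, ?_⟩
    · rw [hF, Finset.mem_filter, List.ofFn_get]
      exact ⟨Finset.mem_univ _, hn⟩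
    · rw [List.ofFn_get]
      intro e he
      exact ho e (by simpa using he)
  refine (prmono h1).trans ((measureReal_biUnion_finset_le _ _).trans ?_)
  have h2 : ∀ f ∈ F, (PP Edge).real {b | ∀ e ∈ (edgs 0 (List.ofFn f)).toFinset, b e = true} ≤ (1 / 100) ^ n := by
    intro f hf
    rw [hF, Finset.mem_filter] at hf
    rw [prob_all_slow, List.toFinset_card_of_nodup hf.2, edgs_length, List.length_ofFn]
    unfold pb
    exact le_refl _
  refine (Finset.sum_le_card_nsmul _ _ _ h2).trans ?_
  rw [nsmul_eq_mul]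
  have h3 : (F.card : ℝ) ≤ 4 ^ n := by
    have h4 : F.card ≤ 4 ^ n := by
      refine (Finset.card_le_univ _).trans_eq ?_
      simp
    exact_mod_cast h4
  calc (F.card : ℝ) * (1 / 100) ^ n ≤ 4 ^ n * (1 / 100) ^ n := mul_le_mul_of_nonneg_right h3 (by positivity)
    _ = (1 / 25) ^ n := by rw [← mul_pow]; norm_num

lemma pc_pos : 0 < pc := by
  have h1 : (PP Edge).real {ω | ¬ (cluster ω).Finite} ≤ 0 := by
    have ht : Tendsto (fun n : ℕ => ((1 : ℝ) / 25) ^ n) atTop (𝓝 0) :=
      tendsto_pow_atTop_nhds_zero_of_lt_one (by norm_num) (by norm_num)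
    exact ge_of_tendsto' ht prob_long
  have h2 : (PP Edge) {ω | ¬ (cluster ω).Finite} = 0 := by
    rw [← measureReal_eq_zero_iff]
    exact le_antisymm h1 measureReal_nonneg
  have h3 : (1 / 100 : ℝ) ≤ pc := by
    unfold pc
    apply le_csSup
    · exact ⟨1, fun p hp => hp.2.1⟩
    · refine ⟨by norm_num, by norm_num, ?_⟩
      rw [perc_eq]
      exact h2
  linarith

end FPPDir
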