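import Pool.Agent.Lib.MP_9b88e3_pr.Basic

/-!
Expected passage times, variance bound, the time constant.
-/

set_option autoImplicit false

open MeasureTheory ProbabilityTheory Filter Topology
open scoped ENNReal NNReal

namespace FPPDir

lemma PP_shift (σ : Edge ≃ Edge) : (PP Edge).map (fun b : Edge → Bool => fun e => b (σ e)) = PP Edge := by
  have hm : Measurable (fun b : Edge → Bool => fun e => b (σ e)) :=
    measurable_pi_iff.2 fun e => measurable_pi_apply _
  unfold PP
  apply Measure.eq_infinitePi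
  intro s t ht
  rw [Measure.map_apply hm (MeasurableSet.pi s.countable_toSet fun i _ => ht i)]
  have h1 : (fun b : Edge → Bool => fun e => b (σ e)) ⁻¹' Set.pi s t
      = Set.pi (s.map σ.toEmbedding : Finset Edge) (fun e => t (σ.symm e)) := by
    ext b
    simp only [Set.mem_preimage, Set.mem_pi, Finset.coe_map, Set.mem_image, Finset.mem_coe]
    constructor
    · rintro h _ ⟨i, hi, rfl⟩
      have := h i hi
      have e1 : σ.symm (σ.toEmbedding i) = i := σ.symm_apply_apply i
      rw [e1]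
      exact this
    · intro h i hi
      have := h (σ i) ⟨i, hi, rfl⟩
      have e1 : σ.symm (σ i) = i := σ.symm_apply_apply i
      rw [e1] at this
      exact this
  rw [h1, Measure.infinitePi_pi _ (fun i _ => ht _), Finset.prod_map]
  refine Finset.prod_congr rfl fun i _ => ?_
  have e1 : σ.symm (σ.toEmbedding i) = i := σ.symm_apply_apply i
  rw [e1]

/-- expected passage time -/
noncomputable def aa (x : ℤ × ℤ) : ℝ := ∫ b, TB b 0 x ∂(PP Edge)

lemma TB_dep (u v : ℤ × ℤ) : DependsOn (fun b => TB b u v) (SN u (2 * l1 (v - u)) : Set Edge) :=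
  TB_depends u v le_rfl

lemma TB_integrable (u v : ℤ × ℤ) : Integrable (fun b => TB b u v) (PP Edge) :=
  DependsOn.integrable (TB_dep u v)

lemma TB_measurable (u v : ℤ × ℤ) : Measurable (fun b => TB b u v) := DependsOn.meas (TB_dep u v)

lemma TB_shift (b : Edge → Bool) (u v x : ℤ × ℤ) :
    TB b (u + x) (v + x) = TB (fun e => b (shift x e)) u v := by
  unfold TB
  rw [T_add]
  rfl

lemma mean_eq (u v : ℤ × ℤ) : ∫ b, TB b u v ∂(PP Edge) = aa (v - u) := by
  have h1 : ∀ b, TB b u v = TB (fun e => b (shift u e)) 0 (v - u) := by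
    intro b
    rw [← TB_shift]
    simp
  simp only [h1]
  unfold aa
  conv_rhs => rw [← PP_shift (shift u)]
  rw [integral_map]
  · exact (measurable_pi_iff.2 fun e => measurable_pi_apply _).aemeasurable
  · exact (TB_measurable _ _).aestronglyMeasurable

lemma aa_add_le (x y : ℤ × ℤ) : aa (x + y) ≤ aa x + aa y := by
  have h1 : aa y = ∫ b, TB b x (x + y) ∂(PP Edge) := by rw [mean_eq]; simp
  rw [h1]
  unfold aa
  rw [← integral_add (TB_integrable _ _) (TB_integrable _ _)]
  exact integral_mono (TB_integrable _ _) ((TB_integrable _ _).add (TB_integrable _ _))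
    fun b => T_tri (env_ge b) 0 x (x + y)

lemma aa_lip (x y : ℤ × ℤ) : |aa x - aa y| ≤ 2 * l1 (x - y) := by
  unfold aa
  rw [← integral_sub (TB_integrable _ _) (TB_integrable _ _)]
  refine (abs_integral_le_integral_abs).trans ?_
  have : ∫ b, |TB b 0 x - TB b 0 y| ∂(PP Edge) ≤ ∫ _, 2 * (l1 (x - y) : ℝ) ∂(PP Edge) := by
    apply integral_mono
    · exact ((TB_integrable _ _).sub (TB_integrable _ _)).abs
    · exact integrable_const _
    · intro b
      exact T_lip (env_ge b) (env_le' b) 0 x y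
  refine this.trans ?_
  simp

lemma l1_le_aa (x : ℤ × ℤ) : (l1 x : ℝ) ≤ aa x := by
  unfold aa
  have : ∫ _, (l1 x : ℝ) ∂(PP Edge) ≤ ∫ b, TB b 0 x ∂(PP Edge) := by
    apply integral_mono (integrable_const _) (TB_integrable _ _)
    intro b
    have := l1_le_T (env_ge b) 0 x
    rw [sub_zero] at this
    exact this
  simpa using this

lemma aa_le_l1 (x : ℤ × ℤ) : aa x ≤ 2 * l1 x := by
  have h := aa_lip x 0
  have h0 : aa 0 = 0 := by
    have h1 : ∀ b, TB b 0 0 = 0 := by
      intro b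
      have h2 := T_le_l1 (env_ge b) (env_le' b) 0 0
      have h3 := T_nonneg (env_ge b) 0 0
      unfold TB
      simp [l1] at h2
      linarith
    unfold aa
    simp [h1]
  rw [h0, sub_zero, sub_zero] at h
  exact (le_abs_self _).trans h

/-- **Variance bound.** -/
lemma var_le (u v : ℤ × ℤ) :
    ∫ b, (TB b u v - aa (v - u)) ^ 2 ∂(PP Edge) ≤ l1 (v - u) := by
  set S := SN u (2 * l1 (v - u)) with hS
  have hdep := TB_dep u v
  have hes := efron_stein S (fun b => TB b u v) hdep
  have hsq : Integrable (fun b => TB b u v ^ 2) (PP Edge) := by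
    apply DependsOn.integrable (S := S)
    intro x y h
    simp only
    have := hdep h
    simp only at this
    rw [this]
  have h1 : ∫ b, (TB b u v - aa (v - u)) ^ 2 ∂(PP Edge)
      = ∫ b, TB b u v ^ 2 ∂(PP Edge) - (∫ b, TB b u v ∂(PP Edge)) ^ 2 := by
    have e1 : ∀ b, (TB b u v - aa (v - u)) ^ 2 = TB b u v ^ 2 - 2 * aa (v - u) * TB b u v + aa (v - u) ^ 2 := by
      intro b; ring
    simp only [e1]
    rw [integral_add, integral_sub, integral_const_mul, mean_eq]
    · simp; ring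
    · exact hsq
    · exact (TB_integrable _ _).const_mul _
    · exact hsq.sub ((TB_integrable _ _).const_mul _)
    · exact integrable_const _
  rw [h1]
  refine hes.trans ?_
  have h2 : ∀ e ∈ S, pb * (1 - pb) * ∫ b, Dd e (fun b => TB b u v) b ^ 2 ∂(PP Edge)
      = ∫ b, pb * ((1 - bi e b) * Dd e (fun b => TB b u v) b ^ 2) ∂(PP Edge) := by
    intro e _
    rw [integral_const_mul, int_bi_Dd_sq e hdep]
    ring
  have hdepe : ∀ e ∈ S, DependsOn (fun b => pb * ((1 - bi e b) * Dd e (fun b => TB b u v) b ^ 2)) (S : Set Edge) := by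
    intro e he x y h
    simp only
    have a1 := DependsOn.mono' (Finset.erase_subset e S) (DependsOn.dd e hdep) h
    have a2 := DependsOn.mono' (T := S) (by simpa using he) (dep_bi e) h
    rw [a1, a2]
  rw [Finset.sum_congr rfl h2, ← integral_finsetSum]
  · have h3 : ∀ b, ∑ e ∈ S, pb * ((1 - bi e b) * Dd e (fun b => TB b u v) b ^ 2) ≤ pb * hh ^ 2 * TB b u v := by
      intro b
      obtain ⟨l, hl, hc⟩ := exists_geod (env_ge b) u v
      have hlen : (l.length : ℝ) ≤ TB b u v := by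
        unfold TB; rw [← hc]; exact length_le_cost (env_ge b) u l
      have hterm : ∀ e ∈ S, pb * ((1 - bi e b) * Dd e (fun b => TB b u v) b ^ 2)
          ≤ if e ∈ (edgs u l).toFinset then pb * hh ^ 2 else 0 := by
        intro e _
        have a1 := Dd_TB_nonneg e u v b
        have a2 := Dd_TB_le e u v b
        have a3 := pb_pos
        have a4 := hh_pos
        have a5 := bi_nonneg e b
        split_ifs with he
        · have a6 : Dd e (fun b => TB b u v) b ^ 2 ≤ hh ^ 2 := pow_le_pow_left₀ a1 a2 2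
          have a7 : (1 - bi e b) * Dd e (fun b => TB b u v) b ^ 2 ≤ 1 * hh ^ 2 := by
            apply mul_le_mul (by linarith) a6 (by positivity) (by norm_num)
          rw [one_mul] at a7
          exact mul_le_mul_of_nonneg_left a7 a3.le
        · cases hbe : b e with
          | true => simp [bi, hbe]
          | false =>
            have := Dd_TB_zero hbe hl hc (by simpa using he)
            rw [this]; simp
      refine (Finset.sum_le_sum hterm).trans ?_
      rw [← Finset.sum_filter, Finset.sum_const, nsmul_eq_mul]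
      have hcard : ((S.filter fun e => e ∈ (edgs u l).toFinset).card : ℝ) ≤ TB b u v := by
        refine le_trans ?_ hlen
        have c1 : (S.filter fun e => e ∈ (edgs u l).toFinset).card ≤ (edgs u l).toFinset.card := by
          apply Finset.card_le_card
          intro e he
          exact (Finset.mem_filter.1 he).2
        have c2 := List.toFinset_card_le (edgs u l)
        rw [edgs_length] at c2
        exact_mod_cast c1.trans c2
      have := mul_le_mul_of_nonneg_right hcard (show 0 ≤ pb * hh ^ 2 by have := pb_pos; positivity)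
      linarith
    have h4 : ∫ b, ∑ e ∈ S, pb * ((1 - bi e b) * Dd e (fun b => TB b u v) b ^ 2) ∂(PP Edge)
        ≤ ∫ b, pb * hh ^ 2 * TB b u v ∂(PP Edge) := by
      apply integral_mono
      · exact integrable_finset_sum _ fun e he => DependsOn.integrable (hdepe e he)
      · exact (TB_integrable _ _).const_mul _
      · exact h3
    refine h4.trans ?_
    rw [integral_const_mul, mean_eq]
    have h5 := aa_le_l1 (v - u)
    have h6 : (0 : ℝ) ≤ l1 (v - u) := by positivity
    unfold pb hh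
    nlinarith
  · intro e he
    exact DependsOn.integrable (hdepe e he)

/-- Chebyshev -/
lemma cheb (u v : ℤ × ℤ) {s : ℝ} (hs : 0 < s) :
    (PP Edge).real {b | s ≤ |TB b u v - aa (v - u)|} ≤ l1 (v - u) / s ^ 2 := by
  have hint : Integrable (fun b => (TB b u v - aa (v - u)) ^ 2) (PP Edge) := by
    apply DependsOn.integrable (S := SN u (2 * l1 (v - u)))
    intro x y h
    have := TB_dep u v h
    simp only at this ⊢
    rw [this]
  have h1 := mul_meas_ge_le_integral_of_nonneg (ae_of_all _ fun b => sq_nonneg (TB b u v - aa (v - u))) hint (s ^ 2)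
  have h2 : {b | s ≤ |TB b u v - aa (v - u)|} = {b | s ^ 2 ≤ (TB b u v - aa (v - u)) ^ 2} := by
    ext b
    simp only [Set.mem_setOf_eq]
    rw [← sq_abs (TB b u v - aa (v - u))]
    constructor
    · intro h; exact pow_le_pow_left₀ hs.le h 2
    · intro h; exact le_of_sq_le_sq h (abs_nonneg _)
  rw [h2, le_div_iff₀ (by positivity), mul_comm]
  exact h1.trans (var_le u v)

/-! ### the time constant -/

/-- coordinatewise integer part -/
noncomputable def fl (x : ℂ) : ℤ × ℤ := (⌊x.re⌋, ⌊x.im⌋)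

lemma l1_real (z : ℤ × ℤ) : (l1 z : ℝ) = |(z.1 : ℝ)| + |(z.2 : ℝ)| := by
  unfold l1
  push_cast
  rw [Nat.cast_natAbs, Nat.cast_natAbs]
  push_cast
  rfl

lemma fl_add (x y : ℂ) : l1 (fl (x + y) - (fl x + fl y)) ≤ 2 := by
  have h1 := Int.le_floor_add x.re y.re
  have h2 := Int.le_floor_add_floor x.re y.re
  have h3 := Int.le_floor_add x.im y.im
  have h4 := Int.le_floor_add_floor x.im y.im
  unfold l1 fl
  simp only [Complex.add_re, Complex.add_im, Prod.fst_sub, Prod.snd_sub, Prod.fst_add, Prod.snd_add]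
  omega

lemma fl_sub_le (x y : ℂ) : (l1 (fl x - fl y) : ℝ) ≤ |x.re - y.re| + |x.im - y.im| + 2 := by
  rw [l1_real]
  unfold fl
  simp only [Prod.fst_sub, Prod.snd_sub]
  push_cast
  have key : ∀ a b : ℝ, |((⌊a⌋ : ℤ) : ℝ) - ((⌊b⌋ : ℤ) : ℝ)| ≤ |a - b| + 1 := by
    intro a b
    have h1 := Int.floor_le a
    have h2 := Int.lt_floor_add_one a
    have h3 := Int.floor_le b
    have h4 := Int.lt_floor_add_one b
    rw [abs_le]
    have h5 := le_abs_self (a - b)
    have h6 := neg_abs_le (a - b)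
    constructor <;> linarith
  have := key x.re y.re
  have := key x.im y.im
  linarith

/-- the subadditive sequence defining the time constant -/
noncomputable def sq (x : ℂ) (n : ℕ) : ℝ := aa (fl ((n : ℂ) * x)) + 4

lemma sq_subadd (x : ℂ) : Subadditive (sq x) := by
  intro m n
  unfold sq
  have h1 : ((m + n : ℕ) : ℂ) * x = (m : ℂ) * x + (n : ℂ) * x := by push_cast; ring
  rw [h1]
  have h2 := aa_lip (fl ((m : ℂ) * x + (n : ℂ) * x)) (fl ((m : ℂ) * x) + fl ((n : ℂ) * x))
  have h3 := fl_add ((m : ℂ) * x) ((n : ℂ) * x)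
  have h4 := aa_add_le (fl ((m : ℂ) * x)) (fl ((n : ℂ) * x))
  have h5 : ((l1 (fl ((m : ℂ) * x + (n : ℂ) * x) - (fl ((m : ℂ) * x) + fl ((n : ℂ) * x))) : ℕ) : ℝ) ≤ 2 := by
    exact_mod_cast h3
  have h6 := (le_abs_self _).trans h2
  linarith

lemma aa_nonneg (x : ℤ × ℤ) : 0 ≤ aa x := (Nat.cast_nonneg _).trans (l1_le_aa x)

lemma sq_bdd (x : ℂ) : BddBelow (Set.range fun n => sq x n / n) := by
  refine ⟨0, ?_⟩
  rintro _ ⟨n, rfl⟩
  have := aa_nonneg (fl ((n : ℂ) * x))
  simp only
  unfold sq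
  positivity

/-- the time constant -/
noncomputable def G (x : ℂ) : ℝ := (sq_subadd x).lim

lemma G_tendsto (x : ℂ) : Tendsto (fun n : ℕ => aa (fl ((n : ℂ) * x)) / n) atTop (𝓝 (G x)) := by
  have h1 := (sq_subadd x).tendsto_lim (sq_bdd x)
  have h2 : Tendsto (fun n : ℕ => (4 : ℝ) / n) atTop (𝓝 0) := tendsto_const_div_atTop_nhds_zero_nat 4
  have h3 := h1.sub h2
  rw [sub_zero] at h3
  refine h3.congr fun n => ?_
  unfold sq
  ring

lemma G_le (x : ℂ) : G x ≤ aa (fl x) + 4 := by
  have h := (sq_subadd x).lim_le_div (sq_bdd x) (n := 1) one_ne_zero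
  have h2 : sq x 1 / ((1 : ℕ) : ℝ) = aa (fl x) + 4 := by
    unfold sq
    simp
  unfold G
  rw [← h2]
  exact h

/-- real multiples -/
lemma G_tendsto_real (x : ℂ) :
    Tendsto (fun t : ℝ => aa (fl ((t : ℂ) * x)) / t) atTop (𝓝 (G x)) := by
  have h1 : Tendsto (fun t : ℝ => aa (fl (((⌊t⌋₊ : ℕ) : ℂ) * x)) / (⌊t⌋₊ : ℝ)) atTop (𝓝 (G x)) :=
    (G_tendsto x).comp tendsto_nat_floor_atTop
  have h2 : Tendsto (fun t : ℝ => (⌊t⌋₊ : ℝ) / t) atTop (𝓝 1) := tendsto_nat_floor_div_atTop
  have h3 := h1.mul h2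
  rw [mul_one] at h3
  have h4 : Tendsto (fun t : ℝ => (2 * (|x.re| + |x.im| + 2)) / t) atTop (𝓝 0) :=
    tendsto_const_nhds.div_atTop tendsto_id
  rw [tendsto_iff_norm_sub_tendsto_zero] at h3 ⊢
  have h5 := h3.add h4
  rw [add_zero] at h5
  refine squeeze_zero' (Eventually.of_forall fun t => norm_nonneg _) ?_ h5
  filter_upwards [eventually_ge_atTop (1 : ℝ)] with t ht
  have ht0 : 0 < t := by linarith
  have hn : (0 : ℝ) < (⌊t⌋₊ : ℝ) := by
    have : 1 ≤ ⌊t⌋₊ := Nat.le_floor (by simpa using ht)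
    exact_mod_cast this
  have h6 : aa (fl (((⌊t⌋₊ : ℕ) : ℂ) * x)) / (⌊t⌋₊ : ℝ) * ((⌊t⌋₊ : ℝ) / t) = aa (fl (((⌊t⌋₊ : ℕ) : ℂ) * x)) / t := by
    field_simp
  rw [h6]
  have h7 := aa_lip (fl ((t : ℂ) * x)) (fl (((⌊t⌋₊ : ℕ) : ℂ) * x))
  have h8 := fl_sub_le ((t : ℂ) * x) (((⌊t⌋₊ : ℕ) : ℂ) * x)
  have h9 : |((t : ℂ) * x).re - ((((⌊t⌋₊ : ℕ) : ℂ) * x)).re| ≤ |x.re| := by
    have : ((t : ℂ) * x).re - ((((⌊t⌋₊ : ℕ) : ℂ) * x)).re = (t - ⌊t⌋₊) * x.re := by
      simp; ring
    rw [this, abs_mul]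
    have a1 : |t - ⌊t⌋₊| ≤ 1 := by
      rw [abs_le]
      have := Nat.floor_le ht0.le
      have := Nat.lt_floor_add_one t
      constructor <;> linarith
    have := mul_le_mul_of_nonneg_right a1 (abs_nonneg x.re)
    linarith
  have h10 : |((t : ℂ) * x).im - ((((⌊t⌋₊ : ℕ) : ℂ) * x)).im| ≤ |x.im| := by
    have : ((t : ℂ) * x).im - ((((⌊t⌋₊ : ℕ) : ℂ) * x)).im = (t - ⌊t⌋₊) * x.im := by
      simp; ring
    rw [this, abs_mul]
    have a1 : |t - ⌊t⌋₊| ≤ 1 := by
      rw [abs_le]
      have := Nat.floor_le ht0.le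
      have := Nat.lt_floor_add_one t
      constructor <;> linarith
    have := mul_le_mul_of_nonneg_right a1 (abs_nonneg x.im)
    linarith
  have h11 : |aa (fl ((t : ℂ) * x)) / t - aa (fl (((⌊t⌋₊ : ℕ) : ℂ) * x)) / t| ≤ 2 * (|x.re| + |x.im| + 2) / t := by
    rw [← sub_div, abs_div, abs_of_pos ht0]
    apply div_le_div_of_nonneg_right _ ht0.le
    linarith
  rw [Real.norm_eq_abs, Real.norm_eq_abs]
  have := abs_sub_le (aa (fl ((t : ℂ) * x)) / t) (aa (fl (((⌊t⌋₊ : ℕ) : ℂ) * x)) / t) (G x)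
  linarith

lemma G_smul (x : ℂ) {c : ℝ} (hc : 0 < c) : G ((c : ℂ) * x) = c * G x := by
  have h1 := G_tendsto_real ((c : ℂ) * x)
  have h2 : Tendsto (fun t : ℝ => t * c) atTop atTop := tendsto_id.atTop_mul_const hc
  have h3 := ((G_tendsto_real x).comp h2).const_mul c
  refine tendsto_nhds_unique h1 (h3.congr' ?_)
  filter_upwards [eventually_gt_atTop (0 : ℝ)] with t ht
  simp only [Function.comp]
  have : ((t * c : ℝ) : ℂ) * x = (t : ℂ) * ((c : ℂ) * x) := by push_cast; ring
  rw [this]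
  field_simp

lemma G_lip (x y : ℂ) : |G x - G y| ≤ 2 * (|x.re - y.re| + |x.im - y.im|) := by
  have h1 := ((G_tendsto x).sub (G_tendsto y)).abs
  have h2 : Tendsto (fun n : ℕ => 2 * (|x.re - y.re| + |x.im - y.im|) + (4 : ℝ) / n) atTop
      (𝓝 (2 * (|x.re - y.re| + |x.im - y.im|) + 0)) :=
    tendsto_const_nhds.add (tendsto_const_div_atTop_nhds_zero_nat 4)
  rw [add_zero] at h2
  refine le_of_tendsto_of_tendsto h1 h2 ?_
  filter_upwards [eventually_gt_atTop 0] with n hn
  have hn' : (0 : ℝ) < n := by exact_mod_cast hn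
  have h3 := aa_lip (fl ((n : ℂ) * x)) (fl ((n : ℂ) * y))
  have h4 := fl_sub_le ((n : ℂ) * x) ((n : ℂ) * y)
  have h5 : |((n : ℂ) * x).re - ((n : ℂ) * y).re| = n * |x.re - y.re| := by
    have : ((n : ℂ) * x).re - ((n : ℂ) * y).re = n * (x.re - y.re) := by simp; ring
    rw [this, abs_mul, abs_of_pos hn']
  have h6 : |((n : ℂ) * x).im - ((n : ℂ) * y).im| = n * |x.im - y.im| := by
    have : ((n : ℂ) * x).im - ((n : ℂ) * y).im = n * (x.im - y.im) := by simp; ring
    rw [this, abs_mul, abs_of_pos hn']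
  rw [h5, h6] at h4
  rw [← sub_div, abs_div, abs_of_pos hn', div_le_iff₀ hn']
  have h7 : (2 * (|x.re - y.re| + |x.im - y.im|) + 4 / n) * n = 2 * (n * |x.re - y.re| + n * |x.im - y.im| + 2) := by
    field_simp
    ring
  rw [h7]
  linarith

lemma G_continuous : Continuous G := by
  rw [continuous_iff_continuousAt]
  intro x
  rw [ContinuousAt, tendsto_iff_norm_sub_tendsto_zero]
  have h1 : Tendsto (fun y : ℂ => 2 * (|y.re - x.re| + |y.im - x.im|)) (𝓝 x) (𝓝 (2 * (|x.re - x.re| + |x.im - x.im|))) := by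
    apply Continuous.tendsto
    fun_prop
  simp only [sub_self, abs_zero, add_zero, mul_zero] at h1
  exact squeeze_zero (fun y => norm_nonneg _) (fun y => G_lip y x) h1

lemma le_G (x : ℂ) : |x.re| + |x.im| ≤ G x := by
  have h2 : Tendsto (fun n : ℕ => |x.re| + |x.im| - (2 : ℝ) / n) atTop (𝓝 (|x.re| + |x.im| - 0)) :=
    tendsto_const_nhds.sub (tendsto_const_div_atTop_nhds_zero_nat 2)
  rw [sub_zero] at h2
  refine le_of_tendsto_of_tendsto h2 (G_tendsto x) ?_
  filter_upwards [eventually_gt_atTop 0] with n hn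
  have hn' : (0 : ℝ) < n := by exact_mod_cast hn
  have h3 := l1_le_aa (fl ((n : ℂ) * x))
  rw [le_div_iff₀ hn']
  have h4 : (|x.re| + |x.im| - 2 / n) * n = n * |x.re| + n * |x.im| - 2 := by
    field_simp
  rw [h4]
  refine le_trans ?_ h3
  rw [l1_real]
  unfold fl
  have key : ∀ a : ℝ, |(n : ℝ) * a| - 1 ≤ |((⌊(n : ℝ) * a⌋ : ℤ) : ℝ)| := by
    intro a
    have h1 := Int.floor_le ((n : ℝ) * a)
    have h2 := Int.lt_floor_add_one ((n : ℝ) * a)
    have h5 := abs_sub_abs_le_abs_sub ((n : ℝ) * a) ((⌊(n : ℝ) * a⌋ : ℤ) : ℝ)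
    have h6 : |(n : ℝ) * a - ((⌊(n : ℝ) * a⌋ : ℤ) : ℝ)| ≤ 1 := by
      rw [abs_le]; constructor <;> linarith
    linarith
  have k1 := key x.re
  have k2 := key x.im
  rw [abs_mul, abs_of_pos hn'] at k1 k2
  have e1 : ((n : ℂ) * x).re = n * x.re := by simp
  have e2 : ((n : ℂ) * x).im = n * x.im := by simp
  simp only [e1, e2]
  linarith

lemma int_bi (e : Edge) : ∫ b, bi e b ∂(PP Edge) = pb := by
  have h := int_prod (ι := Edge) (fun c => if c then (1 : ℝ) else 0) {e}
  simp only [Finset.prod_singleton, if_true, Bool.false_eq_true, if_false, mul_one, mul_zero, add_zero,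
    Finset.card_singleton, pow_one] at h
  exact h

lemma int_cost (u : ℤ × ℤ) (l : List Step) :
    Integrable (fun b => cost (env b) u l) (PP Edge) ∧
    ∫ b, cost (env b) u l ∂(PP Edge) = l.length * (1 + hh * pb) := by
  induction l generalizing u with
  | nil =>
    simp only [cost_nil]
    exact ⟨integrable_const _, by simp⟩
  | cons s l ih =>
    obtain ⟨h1, h2⟩ := ih (u + vec s)
    simp only [cost_cons]
    have h3 : Integrable (fun b : Edge → Bool => env b (stepEdge u s)) (PP Edge) := by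
      unfold env
      exact (integrable_const _).add ((DependsOn.integrable (dep_bi _)).const_mul _)
    refine ⟨h3.add h1, ?_⟩
    rw [integral_add h3 h1, h2]
    unfold env
    rw [integral_add (integrable_const _) ((DependsOn.integrable (dep_bi _)).const_mul _), integral_const_mul, int_bi]
    simp
    ring

lemma G_one_le : G 1 ≤ 1 + hh * pb := by
  refine le_of_tendsto (G_tendsto 1) ?_
  filter_upwards [eventually_gt_atTop 0] with n hn
  have hn' : (0 : ℝ) < n := by exact_mod_cast hn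
  rw [div_le_iff₀ hn']
  have hfl : fl ((n : ℂ) * 1) = ((n : ℤ), 0) := by
    unfold fl
    simp
  rw [hfl]
  obtain ⟨l, hl, hlen⟩ := exists_straight n (0 : ℤ × ℤ) ((n : ℤ), 0) (by simp [l1])
  obtain ⟨h1, h2⟩ := int_cost 0 l
  have h3 : aa ((n : ℤ), 0) ≤ ∫ b, cost (env b) 0 l ∂(PP Edge) := by
    unfold aa
    exact integral_mono (TB_integrable _ _) h1 fun b => T_le (env_ge b) hl
  rw [h2, hlen] at h3
  linarith

/-- the direction in which the limit shape is farthest from the origin -/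
lemma exists_dir : ∃ y : ℂ, ‖y‖ = 1 ∧ ∀ x : ℂ, G y * ‖x‖ ≤ G x := by
  have hcomp : IsCompact (Metric.sphere (0 : ℂ) 1) := isCompact_sphere 0 1
  obtain ⟨y, hy, hmin⟩ := hcomp.exists_isMinOn ⟨1, by simp⟩ G_continuous.continuousOn
  have hy1 : ‖y‖ = 1 := by simpa using hy
  refine ⟨y, hy1, fun x => ?_⟩
  rcases eq_or_ne x 0 with rfl | hx
  · rw [norm_zero, mul_zero]
    have := le_G 0
    simpa using this
  · have hx0 : 0 < ‖x‖ := norm_pos_iff.2 hx
    have h1 : x = ((‖x‖ : ℝ) : ℂ) * (((‖x‖⁻¹ : ℝ) : ℂ) * x) := by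
      rw [← mul_assoc, ← Complex.ofReal_mul, mul_inv_cancel₀ hx0.ne']; simp
    have h2 : ‖((‖x‖⁻¹ : ℝ) : ℂ) * x‖ = 1 := by
      rw [norm_mul, Complex.norm_real, Real.norm_of_nonneg (by positivity), inv_mul_cancel₀ hx0.ne']
    have h3 : G y ≤ G (((‖x‖⁻¹ : ℝ) : ℂ) * x) := hmin (by simpa using h2)
    conv_rhs => rw [h1]
    rw [G_smul _ hx0, mul_comm]
    exact mul_le_mul_of_nonneg_left h3 hx0.le

end FPPDir
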