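import Pool.Agent.Lib.MP_9b88e3_pr.Shape

/-!
The time constant exists almost surely, along real multiples.
-/

set_option autoImplicit false

open MeasureTheory ProbabilityTheory Filter Topology
open scoped ENNReal NNReal

namespace FPPDir

/-- Borel–Cantelli, real form -/
lemma bc {Ω : Type*} [MeasurableSpace Ω] {μ : Measure Ω} [IsProbabilityMeasure μ] {s : ℕ → Set Ω} (c : ℕ → ℝ)
    (hc : Summable c) (n₀ : ℕ) (h : ∀ n, n₀ ≤ n → μ.real (s n) ≤ c n) :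
    ∀ᵐ b ∂μ, ∀ᶠ n in atTop, b ∉ s n := by
  have hc' : Summable fun n => c (n + n₀) := (summable_nat_add_iff n₀).2 hc
  have h1 : ∑' n, μ (s (n + n₀)) ≠ ∞ := by
    have h2 : ∀ n, μ (s (n + n₀)) ≤ ENNReal.ofReal (c (n + n₀)) := by
      intro n
      rw [← ofReal_measureReal (μ := μ) (s := s (n + n₀))]
      exact ENNReal.ofReal_le_ofReal (h _ (by omega))
    refine ne_top_of_le_ne_top ?_ (ENNReal.tsum_le_tsum h2)
    exact hc'.tsum_ofReal_ne_top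
  filter_upwards [ae_eventually_notMem h1] with b hb
  obtain ⟨N, hN⟩ := eventually_atTop.1 hb
  refine eventually_atTop.2 ⟨N + n₀, fun n hn => ?_⟩
  have := hN (n - n₀) (by omega)
  rwa [Nat.sub_add_cancel (by omega)] at this

lemma near_bd {r : ℂ → ℤ × ℤ} (hr : IsNearest r) (x : ℂ) : ‖x - pt (r x)‖ ≤ 2 := by
  refine (hr x (fl x)).trans ?_
  have h := Complex.norm_le_abs_re_add_abs_im (x - pt (fl x))
  have h1 : (x - pt (fl x)).re = x.re - ((⌊x.re⌋ : ℤ) : ℝ) := by simp [pt, fl]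
  have h2 : (x - pt (fl x)).im = x.im - ((⌊x.im⌋ : ℤ) : ℝ) := by simp [pt, fl]
  rw [h1, h2] at h
  have a1 := Int.floor_le x.re
  have a2 := Int.lt_floor_add_one x.re
  have a3 := Int.floor_le x.im
  have a4 := Int.lt_floor_add_one x.im
  have a5 : |x.re - ((⌊x.re⌋ : ℤ) : ℝ)| ≤ 1 := by rw [abs_le]; constructor <;> linarith
  have a6 : |x.im - ((⌊x.im⌋ : ℤ) : ℝ)| ≤ 1 := by rw [abs_le]; constructor <;> linarith
  linarith

lemma near_l1 {r : ℂ → ℤ × ℤ} (hr : IsNearest r) (x : ℂ) : (l1 (r x - fl x) : ℝ) ≤ 6 := by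
  have h := near_bd hr x
  have h3 := (Complex.abs_re_le_norm (x - pt (r x))).trans h
  have h4 := (Complex.abs_im_le_norm (x - pt (r x))).trans h
  have h1 : (x - pt (r x)).re = x.re - ((r x).1 : ℝ) := by simp [pt]
  have h2 : (x - pt (r x)).im = x.im - ((r x).2 : ℝ) := by simp [pt]
  rw [h1] at h3
  rw [h2] at h4
  rw [l1_real]
  unfold fl
  simp only [Prod.fst_sub, Prod.snd_sub]
  push_cast
  have a1 := Int.floor_le x.re
  have a2 := Int.lt_floor_add_one x.re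
  have a3 := Int.floor_le x.im
  have a4 := Int.lt_floor_add_one x.im
  rw [abs_le] at h3 h4
  have a5 : |((r x).1 : ℝ) - ((⌊x.re⌋ : ℤ) : ℝ)| ≤ 3 := by rw [abs_le]; constructor <;> linarith
  have a6 : |((r x).2 : ℝ) - ((⌊x.im⌋ : ℤ) : ℝ)| ≤ 3 := by rw [abs_le]; constructor <;> linarith
  linarith

lemma l1_tri (a b c : ℤ × ℤ) : (l1 (a - c) : ℝ) ≤ l1 (a - b) + l1 (b - c) := by
  have : a - c = (a - b) + (b - c) := by abel
  rw [this]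
  exact_mod_cast l1_add_le _ _

lemma l1_comm' (a b : ℤ × ℤ) : (l1 (a - b) : ℝ) = l1 (b - a) := by rw [l1_sub_comm]

lemma fl_zero : fl 0 = 0 := by unfold fl; simp

lemma as_pow4 (x : ℂ) : ∀ᵐ b ∂(PP Edge), ∀ᶠ k : ℕ in atTop,
    |TB b 0 (fl ((((k : ℝ) ^ 4 : ℝ) : ℂ) * x)) - aa (fl ((((k : ℝ) ^ 4 : ℝ) : ℂ) * x))| < (k : ℝ) ^ 3 := by
  have hs : Summable fun k : ℕ => (|x.re| + |x.im| + 2) * (1 / (k : ℝ) ^ 2) :=
    (Real.summable_one_div_nat_pow.2 (by norm_num)).mul_left _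
  have h := bc (μ := PP Edge)
    (s := fun k : ℕ => {b | (k : ℝ) ^ 3 ≤ |TB b 0 (fl ((((k : ℝ) ^ 4 : ℝ) : ℂ) * x)) - aa (fl ((((k : ℝ) ^ 4 : ℝ) : ℂ) * x))|})
    _ hs 1 ?_
  · filter_upwards [h] with b hb
    filter_upwards [hb] with k hk
    simpa using hk
  · intro k hk
    have hk' : (1 : ℝ) ≤ k := by exact_mod_cast hk
    have h1 := cheb 0 (fl ((((k : ℝ) ^ 4 : ℝ) : ℂ) * x)) (s := (k : ℝ) ^ 3) (by positivity)
    rw [sub_zero] at h1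
    refine h1.trans ?_
    have h2 := fl_sub_le ((((k : ℝ) ^ 4 : ℝ) : ℂ) * x) 0
    rw [fl_zero, sub_zero] at h2
    have e1 : ((((k : ℝ) ^ 4 : ℝ) : ℂ) * x).re = (k : ℝ) ^ 4 * x.re := Complex.re_ofReal_mul _ _
    have e2 : ((((k : ℝ) ^ 4 : ℝ) : ℂ) * x).im = (k : ℝ) ^ 4 * x.im := Complex.im_ofReal_mul _ _
    rw [e1, e2, Complex.zero_re, Complex.zero_im, sub_zero, sub_zero, abs_mul, abs_mul,
      abs_of_nonneg (by positivity : (0 : ℝ) ≤ (k : ℝ) ^ 4)] at h2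
    rw [div_le_iff₀ (by positivity)]
    have h3 : (|x.re| + |x.im| + 2) * (1 / (k : ℝ) ^ 2) * ((k : ℝ) ^ 3) ^ 2 = (|x.re| + |x.im| + 2) * (k : ℝ) ^ 4 := by
      field_simp
    rw [h3]
    have h4 : (1 : ℝ) ≤ (k : ℝ) ^ 4 := one_le_pow₀ hk'
    nlinarith

/-- `⌊n^{1/4}⌋` -/
noncomputable def kk (n : ℝ) : ℕ := ⌊n ^ (1 / 4 : ℝ)⌋₊

lemma kk_le {n : ℝ} (hn : 0 ≤ n) : (kk n : ℝ) ^ 4 ≤ n := by
  have h1 : (kk n : ℝ) ≤ n ^ (1 / 4 : ℝ) := Nat.floor_le (by positivity)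
  have h2 : (kk n : ℝ) ^ 4 ≤ (n ^ (1 / 4 : ℝ)) ^ 4 := pow_le_pow_left₀ (by positivity) h1 4
  refine h2.trans_eq ?_
  rw [← Real.rpow_natCast, ← Real.rpow_mul hn]
  norm_num

lemma lt_kk {n : ℝ} (hn : 0 ≤ n) : n < ((kk n : ℝ) + 1) ^ 4 := by
  have h1 : n ^ (1 / 4 : ℝ) < (kk n : ℝ) + 1 := Nat.lt_floor_add_one _
  have h2 : (n ^ (1 / 4 : ℝ)) ^ 4 < ((kk n : ℝ) + 1) ^ 4 := pow_lt_pow_left₀ h1 (by positivity) (by norm_num)
  refine lt_of_eq_of_lt ?_ h2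
  rw [← Real.rpow_natCast, ← Real.rpow_mul hn]
  norm_num

lemma kk_tendsto : Tendsto kk atTop atTop :=
  tendsto_nat_floor_atTop.comp (tendsto_rpow_atTop (by norm_num))

/-- **The time constant**: almost surely `T(0, n x)/n → G x` along real `n`. -/
lemma time_constant {r : ℂ → ℤ × ℤ} (hr : IsNearest r) (x : ℂ) :
    ∀ᵐ b ∂(PP Edge), Tendsto (fun n : ℝ => TB b 0 (r ((n : ℂ) * x)) / n) atTop (𝓝 (G x)) := by
  filter_upwards [as_pow4 x] with b hb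
  set D := |x.re| + |x.im| with hD
  have hD0 : 0 ≤ D := by positivity
  have h1 : Tendsto (fun n : ℝ => (60 * D + 21) * (1 / (kk n : ℝ))) atTop (𝓝 ((60 * D + 21) * 0)) := by
    apply Tendsto.const_mul
    exact tendsto_one_div_atTop_nhds_zero_nat.comp kk_tendsto
  rw [mul_zero] at h1
  have h2 : ∀ᶠ n : ℝ in atTop, |TB b 0 (r ((n : ℂ) * x)) / n - aa (fl ((n : ℂ) * x)) / n| ≤ (60 * D + 21) * (1 / (kk n : ℝ)) := by
    filter_upwards [kk_tendsto.eventually hb, kk_tendsto.eventually (eventually_ge_atTop 1), eventually_gt_atTop (0 : ℝ)]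
      with n hn1 hn2 hn3
    set k := kk n with hk
    have hk1 : (1 : ℝ) ≤ k := by exact_mod_cast hn2
    have hk2 := kk_le hn3.le
    have hk3 := lt_kk hn3.le
    rw [← hk] at hk2 hk3
    have a1 : (l1 (fl ((n : ℂ) * x) - fl ((((k : ℝ) ^ 4 : ℝ) : ℂ) * x)) : ℝ) ≤ 15 * D * (k : ℝ) ^ 3 + 2 := by
      refine (fl_sub_le _ _).trans ?_
      have e1 : ((((k : ℝ) ^ 4 : ℝ) : ℂ) * x).re = (k : ℝ) ^ 4 * x.re := Complex.re_ofReal_mul _ _
      have e2 : ((((k : ℝ) ^ 4 : ℝ) : ℂ) * x).im = (k : ℝ) ^ 4 * x.im := Complex.im_ofReal_mul _ _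
      have e3 : ((n : ℂ) * x).re = n * x.re := Complex.re_ofReal_mul _ _
      have e4 : ((n : ℂ) * x).im = n * x.im := Complex.im_ofReal_mul _ _
      rw [e1, e2, e3, e4, ← sub_mul, ← sub_mul, abs_mul, abs_mul, abs_of_nonneg (sub_nonneg.2 hk2), ← mul_add, ← hD]
      have a2 : n - (k : ℝ) ^ 4 ≤ 15 * (k : ℝ) ^ 3 := by
        have a3 : ((k : ℝ) + 1) ^ 4 = (k : ℝ) ^ 4 + 4 * (k : ℝ) ^ 3 + 6 * (k : ℝ) ^ 2 + 4 * k + 1 := by ring
        have a4 : (k : ℝ) ^ 2 ≤ (k : ℝ) ^ 3 := pow_le_pow_right₀ hk1 (by norm_num)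
        have a5 : (k : ℝ) ≤ (k : ℝ) ^ 3 := le_self_pow₀ hk1 (by norm_num)
        have a6 : (1 : ℝ) ≤ (k : ℝ) ^ 3 := one_le_pow₀ hk1
        linarith
      have := mul_le_mul_of_nonneg_right a2 hD0
      linarith
    have a2 : (l1 (r ((n : ℂ) * x) - fl ((((k : ℝ) ^ 4 : ℝ) : ℂ) * x)) : ℝ) ≤ 6 + (15 * D * (k : ℝ) ^ 3 + 2) := by
      have := l1_tri (r ((n : ℂ) * x)) (fl ((n : ℂ) * x)) (fl ((((k : ℝ) ^ 4 : ℝ) : ℂ) * x))
      have := near_l1 hr ((n : ℂ) * x)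
      linarith
    have a3 : |TB b 0 (r ((n : ℂ) * x)) - TB b 0 (fl ((((k : ℝ) ^ 4 : ℝ) : ℂ) * x))| ≤ 2 * (6 + (15 * D * (k : ℝ) ^ 3 + 2)) := by
      have := T_lip (env_ge b) (env_le' b) 0 (r ((n : ℂ) * x)) (fl ((((k : ℝ) ^ 4 : ℝ) : ℂ) * x))
      unfold TB
      linarith
    have a4 := aa_lip (fl ((((k : ℝ) ^ 4 : ℝ) : ℂ) * x)) (fl ((n : ℂ) * x))
    rw [l1_comm'] at a4
    have a5 : |TB b 0 (r ((n : ℂ) * x)) - aa (fl ((n : ℂ) * x))| ≤ (60 * D + 21) * (k : ℝ) ^ 3 := by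
      have b1 := abs_sub_le (TB b 0 (r ((n : ℂ) * x))) (TB b 0 (fl ((((k : ℝ) ^ 4 : ℝ) : ℂ) * x))) (aa (fl ((n : ℂ) * x)))
      have b2 := abs_sub_le (TB b 0 (fl ((((k : ℝ) ^ 4 : ℝ) : ℂ) * x))) (aa (fl ((((k : ℝ) ^ 4 : ℝ) : ℂ) * x))) (aa (fl ((n : ℂ) * x)))
      have b3 : (1 : ℝ) ≤ (k : ℝ) ^ 3 := one_le_pow₀ hk1
      nlinarith
    rw [← sub_div, abs_div, abs_of_pos hn3, div_le_iff₀ hn3]
    refine a5.trans ?_
    rw [mul_assoc]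
    apply mul_le_mul_of_nonneg_left _ (by positivity)
    rw [one_div, ← div_eq_inv_mul, le_div_iff₀ (by linarith)]
    calc (k : ℝ) ^ 3 * k = (k : ℝ) ^ 4 := by ring
      _ ≤ n := hk2
  have h3 : Tendsto (fun n : ℝ => TB b 0 (r ((n : ℂ) * x)) / n - aa (fl ((n : ℂ) * x)) / n) atTop (𝓝 0) := by
    rw [tendsto_zero_iff_norm_tendsto_zero]
    exact squeeze_zero' (Eventually.of_forall fun _ => norm_nonneg _) h2 h1
  have h4 := h3.add (G_tendsto_real x)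
  rw [zero_add] at h4
  refine h4.congr fun n => ?_
  ring

end FPPDir
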