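import Pool.Agent.Lib.MP_9b88e3_pr.TC

/-!
Union bound over nearly straight words: with high probability they contain many slow edges.
-/

set_option autoImplicit false

open MeasureTheory ProbabilityTheory Filter Topology
open scoped ENNReal NNReal

namespace FPPDir

lemma prmono {s t : Set (Edge → Bool)} (h : s ⊆ t) : (PP Edge).real s ≤ (PP Edge).real t :=
  measureReal_mono h (measure_ne_top _ _)

/-- number of slow edges of a path -/
def slowCount (b : Edge → Bool) (u : ℤ × ℤ) (l : List Step) : ℕ := (edgs u l).countP b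

lemma prod_half (b : Edge → Bool) (L : List Edge) (hn : L.Nodup) :
    ∏ e ∈ L.toFinset, (if b e then (1 / 2 : ℝ) else 1) = (1 / 2) ^ (L.countP b) := by
  induction L with
  | nil => simp
  | cons a L ih =>
    rw [List.nodup_cons] at hn
    rw [List.toFinset_cons, Finset.prod_insert (by simpa using hn.1), ih hn.2, List.countP_cons]
    by_cases ha : b a
    · simp [ha, pow_succ, mul_comm]
    · simp [ha]

lemma prob_few (l : List Step) (hn : (edgs 0 l).Nodup) (j : ℕ) :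
    (PP Edge).real {b | slowCount b 0 l ≤ j} ≤ 2 ^ j * (199 / 200) ^ l.length := by
  have h1 := int_prod (fun c => if c then (1 / 2 : ℝ) else 1) (edgs 0 l).toFinset
  rw [List.toFinset_card_of_nodup hn, edgs_length] at h1
  have h0 : pb * (if true = true then (1 / 2 : ℝ) else 1) + (1 - pb) * (if false = true then (1 / 2 : ℝ) else 1) = 199 / 200 := by
    unfold pb; norm_num
  rw [h0] at h1
  have hdep : DependsOn (fun b : Edge → Bool => ∏ e ∈ (edgs 0 l).toFinset, (if b e then (1 / 2 : ℝ) else 1))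
      ((edgs 0 l).toFinset : Set Edge) := by
    intro x y h
    simp only
    exact Finset.prod_congr rfl fun e he => by rw [h e (by exact_mod_cast he)]
  have h2 := mul_meas_ge_le_integral_of_nonneg (μ := PP Edge)
    (f := fun b : Edge → Bool => ∏ e ∈ (edgs 0 l).toFinset, (if b e then (1 / 2 : ℝ) else 1))
    (ae_of_all _ fun b => Finset.prod_nonneg fun e _ => by split_ifs <;> norm_num)
    (DependsOn.integrable hdep) ((1 / 2 : ℝ) ^ j)
  rw [h1] at h2
  have h3 : (PP Edge).real {b | slowCount b 0 l ≤ j} ≤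
      (PP Edge).real {b | (1 / 2 : ℝ) ^ j ≤ ∏ e ∈ (edgs 0 l).toFinset, (if b e then (1 / 2 : ℝ) else 1)} := by
    apply prmono
    intro b hb
    simp only [Set.mem_ofPred_eq] at hb ⊢
    rw [prod_half b _ hn]
    exact pow_le_pow_of_le_one (by norm_num) (by norm_num) hb
  have h4 : (2 : ℝ) ^ j * (1 / 2) ^ j = 1 := by rw [← mul_pow]; norm_num
  calc (PP Edge).real {b | slowCount b 0 l ≤ j} ≤ _ := h3
    _ = 2 ^ j * ((1 / 2 : ℝ) ^ j * (PP Edge).real {b | (1 / 2 : ℝ) ^ j ≤ ∏ e ∈ (edgs 0 l).toFinset, (if b e then (1 / 2 : ℝ) else 1)}) := by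
        rw [← mul_assoc, h4, one_mul]
    _ ≤ _ := mul_le_mul_of_nonneg_left h2 (by positivity)

/-- weight of a step -/
noncomputable def ww (s₀ s : Step) : ℝ := if s = s₀ then 1 else 1 / 10 ^ 4

lemma ww_nonneg (s₀ s : Step) : 0 ≤ ww s₀ s := by unfold ww; split_ifs <;> positivity

lemma sum_ww (s₀ : Step) : ∑ s, ww s₀ s = 1 + 3 / 10 ^ 4 := by
  unfold ww
  rcases s₀ with ⟨a, b⟩
  cases a <;> cases b <;> simp [Fintype.sum_prod_type] <;> norm_num

lemma list_ww (s₀ : Step) (l : List Step) :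
    (10 ^ 4 : ℝ) ^ (l.length - l.count s₀) * (l.map (ww s₀)).prod = 1 := by
  induction l with
  | nil => simp
  | cons s l ih =>
    have hc : l.count s₀ ≤ l.length := List.count_le_length
    simp only [List.map_cons, List.prod_cons, List.length_cons, List.count_cons]
    by_cases h : s = s₀
    · subst h
      simp only [beq_self_eq_true, if_true, Nat.add_sub_add_right]
      rw [show ww s s = 1 by simp [ww], one_mul]
      exact ih
    · have h2 : (s == s₀) = false := by simpa using h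
      rw [h2]
      simp only [Bool.false_eq_true, if_false, add_zero]
      rw [show l.length + 1 - l.count s₀ = (l.length - l.count s₀) + 1 by omega, pow_succ,
        show ww s₀ s = 1 / 10 ^ 4 by simp [ww, h]]
      have : (10 ^ 4 : ℝ) ^ (l.length - l.count s₀) * 10 ^ 4 * (1 / 10 ^ 4 * (l.map (ww s₀)).prod)
          = (10 ^ 4 : ℝ) ^ (l.length - l.count s₀) * (l.map (ww s₀)).prod := by ring
      rw [this]
      exact ih

/-- the number `1.0003 * 0.995` -/
noncomputable def xx : ℝ := (1 + 3 / 10 ^ 4) * (199 / 200)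

lemma xx_pos : 0 < xx := by unfold xx; norm_num
lemma xx_le_one : xx ≤ 1 := by unfold xx; norm_num

lemma words_bound (s₀ : Step) (L q j : ℕ) :
    (PP Edge).real {b | ∃ l : List Step, l.length = L ∧ (edgs 0 l).Nodup ∧ L ≤ l.count s₀ + q ∧ slowCount b 0 l ≤ j}
      ≤ (10 ^ 4) ^ q * 2 ^ j * xx ^ L := by
  classical
  set F : Finset (Fin L → Step) := Finset.univ.filter fun f =>
    (edgs 0 (List.ofFn f)).Nodup ∧ L ≤ (List.ofFn f).count s₀ + q with hF
  have h1 : {b | ∃ l : List Step, l.length = L ∧ (edgs 0 l).Nodup ∧ L ≤ l.count s₀ + q ∧ slowCount b 0 l ≤ j}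
      ⊆ ⋃ f ∈ F, {b | slowCount b 0 (List.ofFn f) ≤ j} := by
    rintro b ⟨l, hl, hn, hc, hs⟩
    simp only [Set.mem_iUnion]
    subst hl
    refine ⟨l.get, ?_, ?_⟩
    · rw [hF, Finset.mem_filter]
      rw [List.ofFn_get]
      exact ⟨Finset.mem_univ _, hn, hc⟩
    · rw [List.ofFn_get]
      exact hs
  refine (prmono h1).trans ((measureReal_biUnion_finset_le _ _).trans ?_)
  have h2 : ∀ f ∈ F, (PP Edge).real {b | slowCount b 0 (List.ofFn f) ≤ j}
      ≤ (10 ^ 4) ^ q * 2 ^ j * (199 / 200) ^ L * ∏ i, ww s₀ (f i) := by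
    intro f hf
    rw [hF, Finset.mem_filter] at hf
    have h3 := prob_few (List.ofFn f) hf.2.1 j
    rw [List.length_ofFn] at h3
    refine h3.trans ?_
    have h4 := list_ww s₀ (List.ofFn f)
    rw [List.length_ofFn, List.map_ofFn, List.prod_ofFn] at h4
    have h5 : (10 ^ 4 : ℝ) ^ (L - (List.ofFn f).count s₀) ≤ (10 ^ 4) ^ q := by
      apply pow_le_pow_right₀ (by norm_num)
      have := hf.2.2
      omega
    have h6 : 0 ≤ ∏ i, (ww s₀ ∘ f) i := Finset.prod_nonneg fun i _ => ww_nonneg _ _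
    have h7 : 1 ≤ (10 ^ 4 : ℝ) ^ q * ∏ i, (ww s₀ ∘ f) i := by
      rw [← h4]
      exact mul_le_mul_of_nonneg_right h5 h6
    have h8 : (10 ^ 4 : ℝ) ^ q * 2 ^ j * (199 / 200) ^ L * ∏ i, ww s₀ (f i)
        = (2 ^ j * (199 / 200) ^ L) * ((10 ^ 4 : ℝ) ^ q * ∏ i, (ww s₀ ∘ f) i) := by
      simp only [Function.comp]
      ring
    rw [h8]
    exact le_mul_of_one_le_right (by positivity) h7
  refine (Finset.sum_le_sum h2).trans ?_
  rw [← Finset.mul_sum]
  have h3 : ∑ f ∈ F, ∏ i, ww s₀ (f i) ≤ (1 + 3 / 10 ^ 4) ^ L := by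
    calc ∑ f ∈ F, ∏ i, ww s₀ (f i) ≤ ∑ f : Fin L → Step, ∏ i, ww s₀ (f i) :=
          Finset.sum_le_sum_of_subset_of_nonneg (Finset.subset_univ _)
            fun f _ _ => Finset.prod_nonneg fun i _ => ww_nonneg _ _
      _ = (∑ s, ww s₀ s) ^ L := (Fintype.sum_pow _ _).symm
      _ = _ := by rw [sum_ww]
  calc (10 ^ 4) ^ q * 2 ^ j * (199 / 200) ^ L * ∑ f ∈ F, ∏ i, ww s₀ (f i)
      ≤ (10 ^ 4) ^ q * 2 ^ j * (199 / 200) ^ L * (1 + 3 / 10 ^ 4) ^ L :=
        mul_le_mul_of_nonneg_left h3 (by positivity)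
    _ = _ := by unfold xx; rw [mul_pow]; ring

lemma pow_bound {x : ℝ} (hx0 : 0 ≤ x) (hx : x ≤ Real.exp (-(47 / 9999))) {k : ℕ} (hk : k = 9999) :
    x ^ k ≤ (Real.exp 47)⁻¹ := by
  refine (pow_le_pow_left₀ hx0 hx k).trans_eq ?_
  rw [← Real.exp_nat_mul, hk, ← Real.exp_neg]
  congr 1
  norm_num

lemma exp_bound : (10 ^ 4 : ℝ) ^ 3 * 2 ^ 10 * 2 ≤ Real.exp 47 := by
  have h3 : (2.7182818283 : ℝ) ^ 47 ≤ Real.exp 47 := by
    have h4 : Real.exp 47 = Real.exp 1 ^ 47 := by rw [← Real.exp_nat_mul]; norm_num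
    rw [h4]
    exact pow_le_pow_left₀ (by norm_num) Real.exp_one_gt_d9.le 47
  refine le_trans ?_ h3
  norm_num

lemma rho_bound {k : ℕ} (hk : k = 9999) : (10 ^ 4 : ℝ) ^ 3 * 2 ^ 10 * xx ^ k ≤ 1 / 2 := by
  have h1 : xx ≤ Real.exp (-(47 / 9999)) := by
    refine le_trans ?_ (Real.one_sub_le_exp_neg _)
    unfold xx
    norm_num
  have h2 := pow_bound xx_pos.le h1 hk
  have h6 : 0 < Real.exp 47 := Real.exp_pos _
  have h7 := exp_bound
  calc (10 ^ 4 : ℝ) ^ 3 * 2 ^ 10 * xx ^ k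
      ≤ (10 ^ 4 : ℝ) ^ 3 * 2 ^ 10 * (Real.exp 47)⁻¹ := mul_le_mul_of_nonneg_left h2 (by positivity)
    _ ≤ 1 / 2 := by
        rw [← div_eq_mul_inv, div_le_iff₀ h6]
        linarith

/-- nearly straight self-avoiding words of length about `10⁴ N` with few slow edges are unlikely -/
lemma B_bound (s₀ : Step) (N : ℕ) :
    (PP Edge).real {b | ∃ l : List Step, 9999 * N ≤ l.length ∧ l.length ≤ 10002 * N ∧ (edgs 0 l).Nodup ∧
      l.length ≤ l.count s₀ + 3 * N ∧ slowCount b 0 l ≤ 10 * N} ≤ (3 * N + 1) * (1 / 2) ^ N := by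
  have h1 : {b : Edge → Bool | ∃ l : List Step, 9999 * N ≤ l.length ∧ l.length ≤ 10002 * N ∧ (edgs 0 l).Nodup ∧
      l.length ≤ l.count s₀ + 3 * N ∧ slowCount b 0 l ≤ 10 * N}
      ⊆ ⋃ L ∈ Finset.Icc (9999 * N) (10002 * N),
        {b | ∃ l : List Step, l.length = L ∧ (edgs 0 l).Nodup ∧ L ≤ l.count s₀ + 3 * N ∧ slowCount b 0 l ≤ 10 * N} := by
    rintro b ⟨l, h1, h2, h3, h4, h5⟩
    simp only [Set.mem_iUnion]
    exact ⟨l.length, Finset.mem_Icc.2 ⟨h1, h2⟩, l, rfl, h3, h4, h5⟩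
  refine (prmono h1).trans ((measureReal_biUnion_finset_le _ _).trans ?_)
  have h2 : ∀ L ∈ Finset.Icc (9999 * N) (10002 * N), (PP Edge).real
      {b | ∃ l : List Step, l.length = L ∧ (edgs 0 l).Nodup ∧ L ≤ l.count s₀ + 3 * N ∧ slowCount b 0 l ≤ 10 * N}
      ≤ (1 / 2) ^ N := by
    intro L hL
    rw [Finset.mem_Icc] at hL
    refine (words_bound s₀ L (3 * N) (10 * N)).trans ?_
    obtain ⟨k, hk⟩ : ∃ k : ℕ, k = 9999 := ⟨9999, rfl⟩
    rw [← hk] at hL
    have h3 : xx ^ L ≤ xx ^ (k * N) := pow_le_pow_of_le_one xx_pos.le xx_le_one hL.1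
    calc (10 ^ 4 : ℝ) ^ (3 * N) * 2 ^ (10 * N) * xx ^ L
        ≤ (10 ^ 4 : ℝ) ^ (3 * N) * 2 ^ (10 * N) * xx ^ (k * N) :=
          mul_le_mul_of_nonneg_left h3 (by positivity)
      _ = ((10 ^ 4 : ℝ) ^ 3 * 2 ^ 10 * xx ^ k) ^ N := by
          rw [mul_pow, mul_pow, pow_mul _ 3 N, pow_mul _ 10 N, pow_mul _ k N]
      _ ≤ (1 / 2) ^ N := pow_le_pow_left₀ (by have := xx_pos; positivity) (rho_bound hk) N
  refine (Finset.sum_le_card_nsmul _ _ _ h2).trans ?_
  rw [nsmul_eq_mul, Nat.card_Icc]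
  apply mul_le_mul_of_nonneg_right _ (by positivity)
  have : 10002 * N + 1 - 9999 * N = 3 * N + 1 := by omega
  rw [this]
  push_cast
  exact le_refl _

end FPPDir
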